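import Mathlib
import Pool.Agent.Lib.P47443c.SelfDual

set_option autoImplicit false

/-!
# Homogeneous bent functions of degree `2 ^ i + 2 ^ j` : definitions

* `SysData k` : a homogeneous Maiorana-McFarland system of degree `k` with a free dimension;
* `Tmpl k` : a template (one local block, to be translated by a Golomb ruler in `ZMod M`);
* `KeyData D` : the data of the key lemma for degree `D`.
-/

namespace Pool.Agent.HBD

open Finset Pool.Agent.P47443c

/-! ## Systems -/

/-- The vector `y = a + D p` attached to `z = (a, p)`. -/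
def yv {κ ι : Type} [Fintype ι] (D : κ → ι → ZMod 2) (z : κ ⊕ ι → ZMod 2) : κ → ZMod 2 :=
  fun i => z (Sum.inl i) + ∑ l, D i l * z (Sum.inr l)

/-- The Maiorana-McFarland function attached to `D`, `pi`, `g`. -/
def FF {κ ι : Type} [Fintype ι] (D : κ → ι → ZMod 2) (pi : (κ → ZMod 2) → (ι → ZMod 2))
    (g : (κ → ZMod 2) → ZMod 2) (z : κ ⊕ ι → ZMod 2) : ZMod 2 :=
  ∑ j, z (Sum.inr j) * pi (yv D z) j + g (yv D z)

/-- A homogeneous Maiorana-McFarland system of degree `k` with a free dimension `x0`. -/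
structure SysData (k : ℕ) where
  κ : Type
  ι : Type
  [fκ : Fintype κ]
  [dκ : DecidableEq κ]
  [fι : Fintype ι]
  [dι : DecidableEq ι]
  D : κ → ι → ZMod 2
  pi : (κ → ZMod 2) → (ι → ZMod 2)
  g : (κ → ZMod 2) → ZMod 2
  x0 : κ
  card_eq : Fintype.card κ = Fintype.card ι
  bij : Function.Bijective pi
  free : ∀ j, D x0 j = 0
  hom : IsHomOn (univ : Finset (κ ⊕ ι)) k (FF D pi g)

attribute [instance] SysData.fκ SysData.dκ SysData.fι SysData.dι

/-- There is a homogeneous system of degree `k` and dimension `m` (in `2 m` variables). -/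
def Sys (k m : ℕ) : Prop := ∃ X : SysData k, Fintype.card X.κ = m

/-- All large dimensions occur. -/
def AllLarge (k : ℕ) : Prop := ∃ N : ℕ, ∀ m : ℕ, N < m → Sys k m

/-! ## Templates -/

/-- Local linear forms of a template: `φ λ` plus the local coordinates whose type contains `λ`. -/
def tloc {Λ E P : Type} [DecidableEq Λ] [Fintype E] [Fintype P]
    (TE : E → Finset Λ) (TP : P → Finset Λ) (z : Λ ⊕ (E ⊕ P) → ZMod 2) (l : Λ) : ZMod 2 :=
  z (Sum.inl l) + ∑ e, (if l ∈ TE e then z (Sum.inr (Sum.inl e)) else 0) +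
    ∑ p, (if l ∈ TP p then z (Sum.inr (Sum.inr p)) else 0)

/-- Local data coordinates. -/
def bloc {Λ E P : Type} (z : Λ ⊕ (E ⊕ P) → ZMod 2) (e : E) : ZMod 2 := z (Sum.inr (Sum.inl e))

/-- A template of degree `k`. -/
structure Tmpl (k : ℕ) where
  Λ : Type
  E : Type
  P : Type
  [fΛ : Fintype Λ]
  [dΛ : DecidableEq Λ]
  [fE : Fintype E]
  [dE : DecidableEq E]
  [fP : Fintype P]
  [dP : DecidableEq P]
  lam0 : Λ
  TE : E → Finset Λ
  TP : P → Finset Λ
  pi : P → (Λ → ZMod 2) → (E → ZMod 2) → ZMod 2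
  g : (Λ → ZMod 2) → (E → ZMod 2) → ZMod 2
  card_eq : Fintype.card P = Fintype.card E + 1
  neE : Nonempty E
  hom : IsHomOn (univ : Finset (Λ ⊕ (E ⊕ P))) k (fun z =>
    ∑ p, z (Sum.inr (Sum.inr p)) * pi p (tloc TE TP z) (bloc z) + g (tloc TE TP z) (bloc z))
  dec1 : ∀ t b t' b', (∀ p, pi p t b = pi p t' b') → t lam0 = t' lam0
  dec2 : ∀ t b b', (∀ p, pi p t b = pi p t b') → b = b'

attribute [instance] Tmpl.fΛ Tmpl.dΛ Tmpl.fE Tmpl.dE Tmpl.fP Tmpl.dP

/-! ## The key lemma -/

/-- The data of the key lemma for degree `D` (to be used for forms of degree `k = D + 1`).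
`G` is homogeneous of degree `D` in the variables `ξ s`, `s : S`; its derivative in the direction
`(1, ..., 1)` is `1` plus forms of degrees `d ∈ A` in the even linear forms
`η l = ∑ s ∈ E l, ξ s`, which are independent (dual system `cut`). -/
structure KeyData (D : ℕ) where
  S : Type
  L : Type
  [fS : Fintype S]
  [dS : DecidableEq S]
  [fL : Fintype L]
  [dL : DecidableEq L]
  E : L → Finset S
  cut : L → Finset S
  G : (S → ZMod 2) → ZMod 2
  A : Finset ℕ
  c : ℕ → (L → ZMod 2) → ZMod 2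
  neL : Nonempty L
  even : ∀ l, Even (E l).card
  dual : ∀ l l', (((E l ∩ cut l').card : ℕ) : ZMod 2) = if l = l' then 1 else 0
  homG : IsHomOn (univ : Finset S) D G
  homc : ∀ d ∈ A, IsHomOn (univ : Finset L) d (c d)
  legal : ∀ d ∈ A, (∃ a, d + 2 ^ a = D) ∧ (Odd d ∨ ∃ b, d + 2 ^ b = D + 1)
  key : ∀ ξ : S → ZMod 2, G (fun s => ξ s + 1) + G ξ =
    1 + ∑ d ∈ A, c d (fun l => ∑ s ∈ E l, ξ s)

attribute [instance] KeyData.fS KeyData.dS KeyData.fL KeyData.dL

/-! ## Sequences in a ring: binomial convolution and binomial transform -/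

section seq

variable {R : Type*} [Ring R]

/-- Binomial convolution. -/
def cv (f g : ℕ → R) (a : ℕ) : R :=
  ∑ ij ∈ antidiagonal a, (a.choose ij.1 : R) * (f ij.1 * g ij.2)

/-- Binomial transform. -/
def bt (f : ℕ → R) (a : ℕ) : R :=
  ∑ ij ∈ antidiagonal a, (a.choose ij.1 : R) * f ij.1

/-- Shift. -/
def sh (f : ℕ → R) (a : ℕ) : R := f (a + 1)

/-- The subsequence of even index. -/
def ev (g : ℕ → R) (a : ℕ) : R := g (2 * a)

/-- The subsequence of odd index. -/
def od (g : ℕ → R) (a : ℕ) : R := g (2 * a + 1)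

/-- The change of letters: `hs g (2m+1) = ∑ j, binom(m,j) (g (2j) + g (2j+1))` and
`hs g (2m) = hs g (2m+1) + g (2m+1)`. -/
def hs (g : ℕ → R) (n : ℕ) : R :=
  bt (fun j => ev g j + od g j) (n / 2) + if Even n then g (n + 1) else 0

/-- The pair `(E a, O a)` given by the recursion (in characteristic two)
`E a = δ_{a0} + ∑_{b<a} binom(a,b) E b g(2(a-b)) + ∑_{b<a} binom(a-1,b) O b g(2(a-1-b)+1)`,
`O a = ∑_{b≤a} binom(a,b) E b g(2(a-b)+1) + ∑_{b<a} binom(a,b) O b g(2(a-b))`. -/
def EO (g : ℕ → R) (a : ℕ) : R × R :=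
  let e : R := (if a = 0 then 1 else 0)
    + ∑ b : Fin a, (a.choose b.val : R) * ((EO g b.val).1 * g (2 * (a - b.val)))
    + ∑ b : Fin a, ((a - 1).choose b.val : R) * ((EO g b.val).2 * g (2 * (a - 1 - b.val) + 1))
  (e, ∑ b : Fin a, (a.choose b.val : R) * ((EO g b.val).1 * g (2 * (a - b.val) + 1)) + e * g 1
    + ∑ b : Fin a, (a.choose b.val : R) * ((EO g b.val).2 * g (2 * (a - b.val))))
termination_by a
decreasing_by all_goals exact b.isLt

/-- The element `W_{2a+1}`. -/
def WW (g : ℕ → R) (a : ℕ) : R := cv (fun b => (EO g b).1) (od g) a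

end seq

/-! ## Letters -/

/-- The edge variables of the infinite tree: `(u, none)` is the edge from the root to `u`,
`(u, some j)` the edge from `u` to its leaf `j`. The same type indexes the vertices other than
the root. -/
abbrev NV (n : ℕ) : Type := ℕ × Option (Fin n)

/-- The vertex variables in terms of the edge variables, when the root variable is `1`. -/
def xi {n : ℕ} (y : NV n → ZMod 2) : NV n → ZMod 2
  | (u, none) => 1 + y (u, none)
  | (u, some j) => 1 + y (u, none) + y (u, some j)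

/-- The letter `c` at the node `u` : the node variable if `c` is odd, times the elementary
symmetric function of degree `2 * (c / 2)` of the leaf variables. -/
def letter (n : ℕ) (c u : ℕ) (y : NV n → ZMod 2) : ZMod 2 :=
  (if Odd c then y (u, none) else 1) *
    esym (univ : Finset (Fin n)) (2 * (c / 2)) (fun j => y (u, some j))

end Pool.Agent.HBD
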