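import Mathlib
import Pool.Agent.Lib.HBD.Defs

set_option autoImplicit false

/-!
# Module HBD.Hom : closure properties of homogeneous Boolean functions

`IsHomOn A k F` (file P47443c/Basic.lean): `F` is the function of a sum of monomials with exactly
`k` variables, all in the finite set `A`. Closure lemmas there: `IsHomOn.zero/congr/add/sum/mono/
monomial/one/mul/linear/prod/transport`.

* `hom_comp` : write `F x = ∑ T ∈ S, ∏ i ∈ T, x i` (unfold `IsHomOn`); then
  `F (fun s => q s z) = ∑ T ∈ S, ∏ s ∈ T, q s z`, use `IsHomOn.sum` and `IsHomOn.prod` (with all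
  degrees `d`, `∑ t ∈ T, d = card T * d = k * d`) and `IsHomOn.mono`.
* `hom_mul_sum` : for `c b = ∑ T ∈ S, ∏ l ∈ T, b l` put
  `c' b = ∑ T ∈ S, ∑ l ∈ univ \ T, ∏ l' ∈ insert l T, b l'`. For `l ∈ T` one has
  `b l * ∏ l' ∈ T, b l' = ∏ l' ∈ T, b l'` (idempotent, `z * z = z` in `ZMod 2`), there are `d` of
  these for every `T`.
* `hom_restrict` : write `F` as a sum of monomials over `T ⊆ A`; every such `T` is the image under
  `i` of the finset `T' = univ.filter (fun k => i k ∈ T)`, of the same cardinality, and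
  `∏ a ∈ T, Function.extend i x 0 a = ∏ k ∈ T', x k`. Use `IsHomOn.sum` and `IsHomOn.monomial`.
* `hom_esym_map` : `esym M r v = ∑ T ∈ M.powersetCard r, ∏ i ∈ T, v i`, `IsHomOn.sum` and
  `IsHomOn.monomial` for `T.map e`.
-/

namespace Pool.Agent.HBD

open Finset Pool.Agent.P47443c

theorem hom_comp {ι κ : Type*} [DecidableEq ι] [DecidableEq κ] {A : Finset ι} {k : ℕ}
    {F : (ι → ZMod 2) → ZMod 2} (hF : IsHomOn A k F) (d : ℕ) (C : ι → Finset κ)
    (q : ι → (κ → ZMod 2) → ZMod 2) (hq : ∀ s ∈ A, IsHomOn (C s) d (q s))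
    (hC : ∀ s ∈ A, ∀ s' ∈ A, s ≠ s' → Disjoint (C s) (C s')) :
    IsHomOn (A.biUnion C) (k * d) (fun z => F (fun s => q s z)) := by
  obtain ⟨S, h1, h2⟩ := hF
  have h3 : IsHomOn (A.biUnion C) (k * d) (fun z => ∑ T ∈ S, ∏ s ∈ T, q s z) := by
    refine IsHomOn.sum S (fun T hT => ?_)
    obtain ⟨hc, hs⟩ := h1 T hT
    have h4 := IsHomOn.prod T C (fun _ => d) (F := q) (fun s h => hq s (hs h))
      (fun s h s' h' => hC s (hs h) s' (hs h'))
    rw [Finset.sum_const, smul_eq_mul, hc] at h4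
    exact h4.mono (Finset.biUnion_subset_biUnion_of_subset_left C hs)
  exact h3.congr (fun z => h2 _)

theorem hom_mul_sum {L : Type*} [Fintype L] [DecidableEq L] {d : ℕ}
    {c : (L → ZMod 2) → ZMod 2} (hc : IsHomOn (univ : Finset L) d c) :
    ∃ c' : (L → ZMod 2) → ZMod 2, IsHomOn (univ : Finset L) (d + 1) c' ∧
      ∀ b, (∑ l, b l) * c b = (d : ZMod 2) * c b + c' b := by
  obtain ⟨S, h1, h2⟩ := hc
  have idem : ∀ z : ZMod 2, z * z = z := by decide
  refine ⟨fun b => ∑ T ∈ S, ∑ l ∈ univ \ T, ∏ l' ∈ insert l T, b l', ?_, fun b => ?_⟩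
  · refine IsHomOn.sum S (fun T hT => IsHomOn.sum _ (fun l hl => ?_))
    have h3 := IsHomOn.monomial (Finset.subset_univ (insert l T))
    rwa [Finset.card_insert_of_notMem (Finset.mem_sdiff.1 hl).2, (h1 T hT).1] at h3
  · rw [h2 b, Finset.mul_sum, Finset.mul_sum, ← Finset.sum_add_distrib]
    refine Finset.sum_congr rfl (fun T hT => ?_)
    rw [← Finset.sum_sdiff (Finset.subset_univ T), add_mul, add_comm]
    congr 1
    · rw [Finset.sum_mul]
      have h4 : ∀ l ∈ T, b l * ∏ l' ∈ T, b l' = ∏ l' ∈ T, b l' := fun l hl => by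
        rw [← Finset.mul_prod_erase T b hl, ← mul_assoc, idem]
      rw [Finset.sum_congr rfl h4, Finset.sum_const, (h1 T hT).1, nsmul_eq_mul]
    · rw [Finset.sum_mul]
      refine Finset.sum_congr rfl (fun l hl => ?_)
      rw [Finset.prod_insert (Finset.mem_sdiff.1 hl).2]

theorem hom_restrict {ι κ : Type*} [DecidableEq ι] [Fintype κ] [DecidableEq κ] (i : κ ↪ ι)
    {A : Finset ι} (hA : ∀ a ∈ A, ∃ k, i k = a) {k : ℕ} {F : (ι → ZMod 2) → ZMod 2}
    (hF : IsHomOn A k F) :
    IsHomOn (univ : Finset κ) k (fun x => F (Function.extend i x 0)) := by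
  obtain ⟨S, h1, h2⟩ := hF
  have h3 : ∀ T ∈ S, ∃ T' : Finset κ, T'.map i = T := fun T hT => by
    classical
    refine ⟨univ.filter (fun k => i k ∈ T), ?_⟩
    ext a
    simp only [Finset.mem_map, Finset.mem_filter, Finset.mem_univ, true_and]
    constructor
    · rintro ⟨k, hk, rfl⟩
      exact hk
    · intro ha
      obtain ⟨k, rfl⟩ := hA a ((h1 T hT).2 ha)
      exact ⟨k, ha, rfl⟩
  have h4 : IsHomOn (univ : Finset κ) k
      (fun x => ∑ T ∈ S, ∏ a ∈ T, Function.extend i x 0 a) := by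
    refine IsHomOn.sum S (fun T hT => ?_)
    obtain ⟨T', rfl⟩ := h3 T hT
    have h5 := IsHomOn.monomial (Finset.subset_univ T')
    rw [← Finset.card_map i, (h1 _ hT).1] at h5
    refine h5.congr (fun x => ?_)
    rw [Finset.prod_map]
    exact Finset.prod_congr rfl (fun k _ => i.injective.extend_apply _ _ _)
  exact h4.congr (fun x => h2 _)

theorem hom_esym_map {α κ : Type*} [DecidableEq α] [DecidableEq κ] (M : Finset α) (e : α ↪ κ)
    (r : ℕ) : IsHomOn (M.map e) r (fun z => esym M r (fun a => z (e a))) := by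
  unfold esym
  refine IsHomOn.sum _ (fun T hT => ?_)
  obtain ⟨h1, h2⟩ := Finset.mem_powersetCard.1 hT
  have h3 := IsHomOn.monomial (Finset.map_subset_map.2 h1 : T.map e ⊆ M.map e)
  rw [Finset.card_map, h2] at h3
  exact h3.congr (fun z => (Finset.prod_map T e z).symm)

end Pool.Agent.HBD
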