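import Mathlib
import Pool.Agent.Lib.HBD.Hom

set_option autoImplicit false

/-!
# Module HBD.Base : the base templates, degree `2 ^ a + 1`

`n = 2 ^ (a+1) - 1`, labels `Λ = Unit ⊕ (Fin n ⊕ Fin r × Fin n)`, data `E = Fin r` with empty
types, outputs `P = Option (Fin r)` with `TP none` = the labels of `Fin n`, `TP (some e)` = the
labels `(e, ·)`. `pi none = t lam0`, `pi (some e) = b e`,
`g = t lam0 * esym univ (2^a) (t on Fin n) + ∑_e b e * esym univ (2^a) (t (e, ·))`.
Homogeneous form: `φ lam0 * esym univ (2^a) (φ on Fin n) + ∑_e b e * esym univ (2^a) (φ (e, ·))`,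
degree `1 + 2^a`; here `t lam0 = φ lam0`, `t i = φ i + z none`, `t (e,i) = φ (e,i) + z (some e)`,
and `esym_selfdual` gives `esym (t) = esym (φ) + z`. (`hom_esym_map`, `IsHomOn.mul`,
`IsHomOn.monomial`, `IsHomOn.sum`, `IsHomOn.mono`.) `dec1`, `dec2` are immediate.
-/

namespace Pool.Agent.HBD

open Finset Pool.Agent.P47443c

namespace BaseAux

/-- The labels. -/
abbrev Lb (n r : ℕ) : Type := Unit ⊕ (Fin n ⊕ (Fin r × Fin n))

/-- Types of the outputs. -/
def TPb (n r : ℕ) : Option (Fin r) → Finset (Lb n r)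
  | none => univ.image (fun i : Fin n => (Sum.inr (Sum.inl i) : Lb n r))
  | some e => univ.image (fun i : Fin n => (Sum.inr (Sum.inr (e, i)) : Lb n r))

/-- The output functions. -/
def pib (n r : ℕ) : Option (Fin r) → (Lb n r → ZMod 2) → (Fin r → ZMod 2) → ZMod 2
  | none, t, _ => t (Sum.inl ())
  | some e, _, b => b e

/-- The free term. -/
def gb (a n r : ℕ) (t : Lb n r → ZMod 2) (b : Fin r → ZMod 2) : ZMod 2 :=
  t (Sum.inl ()) * esym (univ : Finset (Fin n)) (2 ^ a) (fun i => t (Sum.inr (Sum.inl i))) +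
    ∑ e, b e * esym (univ : Finset (Fin n)) (2 ^ a) (fun i => t (Sum.inr (Sum.inr (e, i))))

theorem t0 (n r : ℕ) (z : Lb n r ⊕ (Fin r ⊕ Option (Fin r)) → ZMod 2) :
    tloc (fun _ : Fin r => (∅ : Finset (Lb n r))) (TPb n r) z (Sum.inl ()) =
      z (Sum.inl (Sum.inl ())) := by
  unfold tloc
  simp [TPb, Fintype.sum_option]

theorem t1 (n r : ℕ) (z : Lb n r ⊕ (Fin r ⊕ Option (Fin r)) → ZMod 2) (i : Fin n) :
    tloc (fun _ : Fin r => (∅ : Finset (Lb n r))) (TPb n r) z (Sum.inr (Sum.inl i)) =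
      z (Sum.inl (Sum.inr (Sum.inl i))) + z (Sum.inr (Sum.inr none)) := by
  unfold tloc
  simp [TPb, Fintype.sum_option]

theorem t2 (n r : ℕ) (z : Lb n r ⊕ (Fin r ⊕ Option (Fin r)) → ZMod 2) (e : Fin r) (i : Fin n) :
    tloc (fun _ : Fin r => (∅ : Finset (Lb n r))) (TPb n r) z (Sum.inr (Sum.inr (e, i))) =
      z (Sum.inl (Sum.inr (Sum.inr (e, i)))) + z (Sum.inr (Sum.inr (some e))) := by
  unfold tloc
  simp [TPb, Fintype.sum_option]

theorem homb (a r : ℕ) : IsHomOn (univ : Finset (Lb (2 ^ (a + 1) - 1) r ⊕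
      (Fin r ⊕ Option (Fin r)))) (2 ^ a + 1) (fun z =>
    z (Sum.inl (Sum.inl ())) * esym (univ : Finset (Fin (2 ^ (a + 1) - 1))) (2 ^ a)
      (fun i => z (Sum.inl (Sum.inr (Sum.inl i)))) +
    ∑ e, z (Sum.inr (Sum.inl e)) * esym (univ : Finset (Fin (2 ^ (a + 1) - 1))) (2 ^ a)
      (fun i => z (Sum.inl (Sum.inr (Sum.inr (e, i)))))) := by
  have key : ∀ (c : Lb (2 ^ (a + 1) - 1) r ⊕ (Fin r ⊕ Option (Fin r)))
      (f : Fin (2 ^ (a + 1) - 1) ↪ Lb (2 ^ (a + 1) - 1) r ⊕ (Fin r ⊕ Option (Fin r))),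
      (∀ i, f i ≠ c) → IsHomOn (univ : Finset (Lb (2 ^ (a + 1) - 1) r ⊕
      (Fin r ⊕ Option (Fin r)))) (2 ^ a + 1) (fun z => z c *
        esym (univ : Finset (Fin (2 ^ (a + 1) - 1))) (2 ^ a) (fun i => z (f i))) := by
    intro c f hf
    have h1 : IsHomOn ({c} : Finset _) ({c} : Finset _).card
        (fun z : Lb (2 ^ (a + 1) - 1) r ⊕ (Fin r ⊕ Option (Fin r)) → ZMod 2 =>
          ∏ i ∈ ({c} : Finset _), z i) := IsHomOn.monomial (Finset.Subset.refl _)
    have h2 := hom_esym_map (univ : Finset (Fin (2 ^ (a + 1) - 1))) f (2 ^ a)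
    have h3 : Disjoint ({c} : Finset _) ((univ : Finset (Fin (2 ^ (a + 1) - 1))).map f) := by
      rw [Finset.disjoint_singleton_left, Finset.mem_map]
      rintro ⟨i, _, hi⟩
      exact hf i hi
    have h4 := (h1.mul h2 h3).mono (Finset.subset_univ _)
    rw [Finset.card_singleton, Nat.add_comm 1 (2 ^ a)] at h4
    exact h4.congr (fun z => by rw [Finset.prod_singleton])
  refine IsHomOn.add ?_ (IsHomOn.sum _ (fun e _ => ?_))
  · exact key (Sum.inl (Sum.inl ())) ⟨fun i => Sum.inl (Sum.inr (Sum.inl i)),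
      fun _ _ h => by simpa using h⟩
      (by intro i h; exact absurd (Sum.inl_injective h) Sum.inr_ne_inl)
  · exact key (Sum.inr (Sum.inl e)) ⟨fun i => Sum.inl (Sum.inr (Sum.inr (e, i))),
      fun _ _ h => by simpa using h⟩ (by intro i; simp)

end BaseAux

open BaseAux in
theorem base_tmpl (a r : ℕ) (hr : 0 < r) :
    ∃ T : Tmpl (2 ^ a + 1), Fintype.card T.P = r + 1 := by
  have hn : (univ : Finset (Fin (2 ^ (a + 1) - 1))).card = 2 ^ (a + 1) - 1 := by
    rw [Finset.card_univ, Fintype.card_fin]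
  refine ⟨{ Λ := Lb (2 ^ (a + 1) - 1) r
            E := Fin r
            P := Option (Fin r)
            lam0 := Sum.inl ()
            TE := fun _ => ∅
            TP := TPb (2 ^ (a + 1) - 1) r
            pi := pib (2 ^ (a + 1) - 1) r
            g := gb a (2 ^ (a + 1) - 1) r
            card_eq := by simp
            neE := ⟨⟨0, hr⟩⟩
            hom := ?_
            dec1 := ?_
            dec2 := ?_ }, ?_⟩
  · refine (homb a r).congr (fun z => ?_)
    have hz : ∀ x : ZMod 2, x + x = 0 := by decide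
    rw [Fintype.sum_option]
    simp only [pib, gb, t0, t1, t2, bloc, esym_selfdual _ a hn]
    have e1 : ∑ e, z (Sum.inr (Sum.inl e)) *
        (esym (univ : Finset (Fin (2 ^ (a + 1) - 1))) (2 ^ a)
          (fun i => z (Sum.inl (Sum.inr (Sum.inr (e, i))))) + z (Sum.inr (Sum.inr (some e)))) =
        ∑ e, z (Sum.inr (Sum.inl e)) *
        esym (univ : Finset (Fin (2 ^ (a + 1) - 1))) (2 ^ a)
          (fun i => z (Sum.inl (Sum.inr (Sum.inr (e, i))))) +
        ∑ e, z (Sum.inr (Sum.inr (some e))) * z (Sum.inr (Sum.inl e)) := by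
      rw [← Finset.sum_add_distrib]
      exact Finset.sum_congr rfl (fun e _ => by ring)
    rw [e1]
    have h1 := hz (z (Sum.inr (Sum.inr none)) * z (Sum.inl (Sum.inl ())))
    have h2 := hz (∑ e, z (Sum.inr (Sum.inr (some e))) * z (Sum.inr (Sum.inl e)))
    linear_combination h1 + h2
  · intro t b t' b' h
    exact h none
  · intro t b b' h
    funext e
    exact h (some e)
  · simp

end Pool.Agent.HBD
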