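import Mathlib
import Pool.Agent.Lib.HBD.Defs

set_option autoImplicit false

/-!
# Module HBD.Grade : the degree of `WW g a` is `2 a + 1`

For a family of additive subgroups `Gd n` of a ring with `1 ∈ Gd 0`, `Gd m * Gd n ⊆ Gd (m + n)`
and `g n ∈ Gd n` for `n ≤ N`: by strong induction on `b`, if `2 b ≤ N` then `(EO g b).1 ∈ Gd (2 b)`
and if `2 b + 1 ≤ N` then `(EO g b).2 ∈ Gd (2 b + 1)` (unfold `EO` once, `rw [EO]`; every summand
is a natural number multiple `(a.choose b : R) * (x * y)` with `x`, `y` of the right degrees: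
`(n : R) * z = n • z`, `nsmul_eq_mul`, `AddSubgroup.nsmul_mem`; the term `1` occurs only for
`a = 0`). Then `WW g a = cv (fun b => (EO g b).1) (od g) a` is a sum of such multiples.
-/

namespace Pool.Agent.HBD

open Finset

namespace GradeAux

theorem EO_fst {R : Type*} [Ring R] (g : ℕ → R) (a : ℕ) : (EO g a).1 =
    (if a = 0 then 1 else 0)
    + ∑ b : Fin a, (a.choose b.val : R) * ((EO g b.val).1 * g (2 * (a - b.val)))
    + ∑ b : Fin a, ((a - 1).choose b.val : R) * ((EO g b.val).2 * g (2 * (a - 1 - b.val) + 1)) := by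
  conv_lhs => rw [EO]

theorem EO_snd {R : Type*} [Ring R] (g : ℕ → R) (a : ℕ) : (EO g a).2 =
    ∑ b : Fin a, (a.choose b.val : R) * ((EO g b.val).1 * g (2 * (a - b.val) + 1))
    + (EO g a).1 * g 1
    + ∑ b : Fin a, (a.choose b.val : R) * ((EO g b.val).2 * g (2 * (a - b.val))) := by
  conv_lhs => rw [EO]
  rw [EO_fst]

theorem mem_cast {R : Type*} [Ring R] (H : AddSubgroup R) (n : ℕ) {x : R} (hx : x ∈ H) :
    (n : R) * x ∈ H := by
  rw [← nsmul_eq_mul]
  exact H.nsmul_mem hx n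

theorem EO_mem {R : Type*} [Ring R] (Gd : ℕ → AddSubgroup R) (h1 : (1 : R) ∈ Gd 0)
    (hmul : ∀ m n x y, x ∈ Gd m → y ∈ Gd n → x * y ∈ Gd (m + n)) (g : ℕ → R) (N : ℕ)
    (hg : ∀ n ≤ N, g n ∈ Gd n) (b : ℕ) :
    (2 * b ≤ N → (EO g b).1 ∈ Gd (2 * b)) ∧ (2 * b + 1 ≤ N → (EO g b).2 ∈ Gd (2 * b + 1)) := by
  induction b using Nat.strong_induction_on with
  | _ a ih =>
    have key : ∀ m n k x y, x ∈ Gd m → y ∈ Gd n → m + n = k → x * y ∈ Gd k := by
      intro m n k x y hx hy hk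
      rw [← hk]
      exact hmul m n x y hx hy
    have hfst : 2 * a ≤ N → (EO g a).1 ∈ Gd (2 * a) := by
      intro ha
      rw [EO_fst]
      refine (Gd (2 * a)).add_mem ((Gd (2 * a)).add_mem ?_ ?_) ?_
      · split_ifs with h0
        · subst h0
          exact h1
        · exact (Gd (2 * a)).zero_mem
      · refine (Gd (2 * a)).sum_mem (fun b _ => mem_cast _ _ ?_)
        have hb := b.isLt
        refine key _ _ _ _ _ ((ih b.val hb).1 (by omega)) (hg _ (by omega)) (by omega)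
      · refine (Gd (2 * a)).sum_mem (fun b _ => mem_cast _ _ ?_)
        have hb := b.isLt
        refine key _ _ _ _ _ ((ih b.val hb).2 (by omega)) (hg _ (by omega)) (by omega)
    refine ⟨hfst, fun ha => ?_⟩
    rw [EO_snd]
    refine (Gd (2 * a + 1)).add_mem ((Gd (2 * a + 1)).add_mem ?_ ?_) ?_
    · refine (Gd (2 * a + 1)).sum_mem (fun b _ => mem_cast _ _ ?_)
      have hb := b.isLt
      refine key _ _ _ _ _ ((ih b.val hb).1 (by omega)) (hg _ (by omega)) (by omega)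
    · exact key _ _ _ _ _ (hfst (by omega)) (hg 1 (by omega)) rfl
    · refine (Gd (2 * a + 1)).sum_mem (fun b _ => mem_cast _ _ ?_)
      have hb := b.isLt
      refine key _ _ _ _ _ ((ih b.val hb).2 (by omega)) (hg _ (by omega)) (by omega)

end GradeAux

theorem WW_mem {R : Type*} [Ring R] (Gd : ℕ → AddSubgroup R) (h1 : (1 : R) ∈ Gd 0)
    (hmul : ∀ m n x y, x ∈ Gd m → y ∈ Gd n → x * y ∈ Gd (m + n)) (g : ℕ → R) (N : ℕ)
    (hg : ∀ n ≤ N, g n ∈ Gd n) (a : ℕ) (ha : 2 * a + 1 ≤ N) : WW g a ∈ Gd (2 * a + 1) := by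
  unfold WW cv
  refine (Gd (2 * a + 1)).sum_mem (fun ij hij => GradeAux.mem_cast _ _ ?_)
  rw [Finset.HasAntidiagonal.mem_antidiagonal] at hij
  have h2 := hmul _ _ _ _ ((GradeAux.EO_mem Gd h1 hmul g N hg ij.1).1 (by omega))
    (hg (2 * ij.2 + 1) (by omega))
  have h3 : 2 * ij.1 + (2 * ij.2 + 1) = 2 * a + 1 := by omega
  rw [h3] at h2
  exact h2

end Pool.Agent.HBD
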