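import Mathlib
import Pool.Agent.Lib.HBD.Defs

set_option autoImplicit false

/-!
# Module HBD.Conv : binomial convolution and binomial transform

`cv f g a = ∑ ij ∈ antidiagonal a, (a.choose ij.1) * (f ij.1 * g ij.2)`,
`bt f a = ∑ ij ∈ antidiagonal a, (a.choose ij.1) * f ij.1`, `sh f a = f (a + 1)`. `R` is a
noncommutative ring; natural number casts are central (`Nat.cast_commute`, `Nat.cast_comm`).

* `cv_succ` (the Leibniz rule) and `bt_succ` : Pascal, in Mathlib
  `Finset.sum_antidiagonal_choose_succ_mul`; `bt f = cv f 1` in disguise (`bt_eq`).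
* `bt_cv_left`, `bt_cv_right` : induction on `a` for all `f, g` at once, with
  `bt_succ`, `cv_succ` and additivity: e.g.
  `bt (cv f g) (a+1) = bt (cv f g) a + bt (sh (cv f g)) a`, and
  `sh (cv f g) = cv (sh f) g + cv f (sh g)`; on the other side
  `cv (bt f) g (a+1) = cv (sh (bt f)) g a + cv (bt f) (sh g) a`, `sh (bt f) = bt f + bt (sh f)`.
* `bt_bt` : in characteristic two `bt (bt f) = f`, again by induction for all `f`:
  `bt (bt f) (a+1) = bt (bt f) a + bt (sh (bt f)) a = 2 * (...) + bt (bt (sh f)) a`.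
-/

namespace Pool.Agent.HBD

open Finset

variable {R : Type*} [Ring R]

theorem cv_zero (f g : ℕ → R) : cv f g 0 = f 0 * g 0 := by
  simp [cv]

theorem cv_succ (f g : ℕ → R) (a : ℕ) : cv f g (a + 1) = cv (sh f) g a + cv f (sh g) a := by
  unfold cv
  have h := Finset.sum_antidiagonal_choose_succ_mul (R := R) (fun i j => f i * g j) a
  rw [h, add_comm]
  congr 1
  refine Finset.sum_congr rfl fun ij hij => ?_
  rw [Nat.choose_symm_of_eq_add (Finset.HasAntidiagonal.mem_antidiagonal.1 hij).symm]
  rfl

theorem bt_zero (f : ℕ → R) : bt f 0 = f 0 := by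
  simp [bt]

theorem bt_succ (f : ℕ → R) (a : ℕ) : bt f (a + 1) = bt f a + bt (sh f) a := by
  unfold bt
  have h := Finset.sum_antidiagonal_choose_succ_mul (R := R) (fun i _ => f i) a
  rw [h]
  congr 1
  refine Finset.sum_congr rfl fun ij hij => ?_
  rw [Nat.choose_symm_of_eq_add (Finset.HasAntidiagonal.mem_antidiagonal.1 hij).symm]
  rfl

theorem cv_add_left (f f' g : ℕ → R) (a : ℕ) :
    cv (fun b => f b + f' b) g a = cv f g a + cv f' g a := by
  simp only [cv, add_mul, mul_add, Finset.sum_add_distrib]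

theorem cv_add_right (f g g' : ℕ → R) (a : ℕ) :
    cv f (fun b => g b + g' b) a = cv f g a + cv f g' a := by
  simp only [cv, mul_add, Finset.sum_add_distrib]

theorem bt_add (f f' : ℕ → R) (a : ℕ) : bt (fun b => f b + f' b) a = bt f a + bt f' a := by
  simp only [bt, mul_add, Finset.sum_add_distrib]

theorem bt_cv_left (f g : ℕ → R) (a : ℕ) : bt (cv f g) a = cv (bt f) g a := by
  induction a generalizing f g with
  | zero => rw [bt_zero, cv_zero, cv_zero, bt_zero]
  | succ a ih =>
    have h1 : bt (sh (cv f g)) a = bt (cv (sh f) g) a + bt (cv f (sh g)) a := by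
      rw [← bt_add]
      exact congrArg (fun F => bt F a) (funext fun b => cv_succ f g b)
    have h2 : cv (sh (bt f)) g a = cv (bt f) g a + cv (bt (sh f)) g a := by
      rw [← cv_add_left]
      exact congrArg (fun F => cv F g a) (funext fun b => bt_succ f b)
    rw [bt_succ, h1, ih, ih, ih, cv_succ, h2]
    abel

theorem bt_cv_right (f g : ℕ → R) (a : ℕ) : bt (cv f g) a = cv f (bt g) a := by
  induction a generalizing f g with
  | zero => rw [bt_zero, cv_zero, cv_zero, bt_zero]
  | succ a ih =>
    have h1 : bt (sh (cv f g)) a = bt (cv (sh f) g) a + bt (cv f (sh g)) a := by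
      rw [← bt_add]
      exact congrArg (fun F => bt F a) (funext fun b => cv_succ f g b)
    have h2 : cv f (sh (bt g)) a = cv f (bt g) a + cv f (bt (sh g)) a := by
      rw [← cv_add_right]
      exact congrArg (fun F => cv f F a) (funext fun b => bt_succ g b)
    rw [bt_succ, h1, ih, ih, ih, cv_succ, h2]
    abel

theorem bt_bt (h2 : (2 : R) = 0) (f : ℕ → R) (a : ℕ) : bt (bt f) a = f a := by
  induction a generalizing f with
  | zero => rw [bt_zero, bt_zero]
  | succ a ih =>
    have h1 : bt (sh (bt f)) a = bt (bt f) a + bt (bt (sh f)) a := by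
      rw [← bt_add]
      exact congrArg (fun F => bt F a) (funext fun b => bt_succ f b)
    rw [bt_succ, h1, ih (sh f), ← add_assoc, ← two_mul, h2, zero_mul, zero_add]
    rfl

/-- The convolution with the leading term separated. -/
theorem cv_lead (f g : ℕ → R) (a : ℕ) : cv f g a =
    ∑ b : Fin a, (a.choose b.val : R) * (f b.val * g (a - b.val)) + f a * g 0 := by
  unfold cv
  rw [Finset.Nat.sum_antidiagonal_eq_sum_range_succ
    (fun i j => (a.choose i : R) * (f i * g j)) a, Finset.sum_range_succ, Nat.choose_self,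
    Nat.cast_one, one_mul, Nat.sub_self, ← Fin.sum_univ_eq_sum_range
    (fun i => (a.choose i : R) * (f i * g (a - i))) a]

/-- `bt` at a power of two, in characteristic two: only the two extreme terms survive. -/
theorem bt_two_pow (h2 : (2 : R) = 0) (f : ℕ → R) (t : ℕ) : bt f (2 ^ t) = f 0 + f (2 ^ t) := by
  have hc : ∀ i, i ∈ Finset.range (2 ^ t) → i ≠ 0 → (((2 ^ t).choose i : ℕ) : R) = 0 := by
    intro i hi h0
    have hd : 2 ∣ (2 ^ t).choose i :=
      Nat.prime_two.dvd_choose_pow h0 (ne_of_lt (Finset.mem_range.1 hi))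
    obtain ⟨m, hm⟩ := hd
    rw [hm, Nat.cast_mul, Nat.cast_two, h2, zero_mul]
  refine (Finset.Nat.sum_antidiagonal_eq_sum_range_succ
    (fun i _ => ((2 ^ t).choose i : R) * f i) (2 ^ t)).trans ?_
  rw [Finset.sum_range_succ, Nat.choose_self,
    Nat.cast_one, one_mul, Finset.sum_eq_single 0]
  · rw [Nat.choose_zero_right, Nat.cast_one, one_mul]
  · intro i hi h0
    rw [hc i hi h0, zero_mul]
  · intro h
    exact absurd (Finset.mem_range.2 (pow_pos (by norm_num) t)) h

end Pool.Agent.HBD
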