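import Mathlib
import Pool.Agent.Lib.HBD.Conv

set_option autoImplicit false

/-!
# Module HBD.SD : the self-dual elements

`R` is a ring with `2 = 0`, `g : ℕ → R` with `g 0 = 1`; `h = hs g`; `E`, `O` the two components of
`EO g` and `E'`, `O'` those of `EO h`. Below `*` is the binomial convolution `cv`, `T = bt`,
`g0 = ev g`, `g1 = od g`, `h0 = ev h`, `h1 = od h`; all identities are identities of sequences.

1. Recursion for `EO` (unfold, `cv_lead`, `g 0 = 1`, characteristic two):
   (a) `(E * g0) 0 = 1`, (b) `(E * g0) (a+1) = (O * g1) a`, i.e. `sh (E * g0) = O * g1`,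
   (c) `E * g1 = O * g0`. Conversely (a), (b), (c) for a pair of sequences determine it:
   if `(F, Q)` satisfy (a), (b), (c) (with `g 0 = 1`) then `F = E`, `Q = O` (strong induction).
2. `h1 = T (g0 + g1)`, `h0 = h1 + g1` (unfold `hs`), `h 0 = 1`.
3. Put `F = E + O + T O`, `Q = E + O`. Claim: (F, Q) satisfy (a), (b), (c) for `h`. Using
   `T (f * g) = (T f) * g = f * (T g)`, `T T = 1`, `E * g1 = O * g0`:
   `F * h1 = (E + O) * T(g0 + g1) + TO * T(g0 + g1)
           = T (E*g0 + O*g1) + O*g0 + O*g1`   [`E*g1 + O*g0 = 0`],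
   `Q * h0 = (E + O) * T(g0+g1) + (E + O) * g1 = T (E*g0 + O*g1) + O*g0 + O*g1`: this is (c);
   `F * h0 = F * h1 + F * g1 = T (E*g0 + O*g1) + O*g0 + O*g1 + E*g1 + O*g1 + T(O*g1)
           = T (E*g0)`;
   hence `(F * h0) 0 = (E * g0) 0 = 1`: (a), and
   `sh (F * h0) = T (E*g0) + T (sh (E*g0)) = T (E*g0) + T (O*g1) = Q * h1`: (b).
   So `E' = E + O + T O`, `O' = E + O`.
4. `WW h = E' * h1 = F * h1 = T (E*g0 + O*g1) + O*g0 + O*g1`, `WW g = E * g1 = O * g0`. With
   `P = E * g0`, `sh P = O * g1`: `WW h + WW g = T P + T (sh P) + sh P`, so at `a`: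
   `(T P) (a+1) + P (a+1)` by `bt_succ`. For `a + 1 = 2 ^ t` this is
   `P 0 + P (2^t) + P (2^t) = P 0 = 1` by `bt_two_pow`.
-/

namespace Pool.Agent.HBD

open Finset

variable {R : Type*} [Ring R]

namespace SDAux

theorem add_self' (h2 : (2 : R) = 0) (x : R) : x + x = 0 := by
  rw [← two_mul, h2, zero_mul]

theorem cv_congr {f f' : ℕ → R} (g : ℕ → R) (a : ℕ) (h : ∀ b, b ≤ a → f b = f' b) :
    cv f g a = cv f' g a := by
  unfold cv
  refine Finset.sum_congr rfl fun ij hij => ?_
  have hle : ij.1 ≤ a := by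
    have := Finset.HasAntidiagonal.mem_antidiagonal.1 hij
    omega
  rw [h _ hle]

/-- The defining relations of the pair `EO g`. -/
def Rel (g F Q : ℕ → R) : Prop :=
  cv F (ev g) 0 = 1 ∧ (∀ a, cv F (ev g) (a + 1) = cv Q (od g) a) ∧
    ∀ a, cv F (od g) a = cv Q (ev g) a

theorem rel_unique {g F Q F' Q' : ℕ → R} (h0 : g 0 = 1) (h : Rel g F Q) (h' : Rel g F' Q') :
    ∀ a, F a = F' a ∧ Q a = Q' a := by
  have hev : ev g 0 = 1 := h0
  intro a
  induction a using Nat.strong_induction_on with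
  | _ a ih =>
    have hF : cv F (ev g) a = cv F' (ev g) a := by
      cases a with
      | zero => rw [h.1, h'.1]
      | succ a =>
        rw [h.2.1 a, h'.2.1 a]
        exact cv_congr _ _ fun b hb => (ih b (Nat.lt_succ_of_le hb)).2
    have h1 : F a = F' a := by
      rw [cv_lead, cv_lead, hev, mul_one, mul_one] at hF
      have hs : (∑ b : Fin a, (a.choose b.val : R) * (F b.val * ev g (a - b.val)))
          = ∑ b : Fin a, (a.choose b.val : R) * (F' b.val * ev g (a - b.val)) :=
        Finset.sum_congr rfl fun b _ => by rw [(ih b.val b.isLt).1]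
      rw [hs] at hF
      exact add_left_cancel hF
    refine ⟨h1, ?_⟩
    have hQ : cv Q (ev g) a = cv Q' (ev g) a := by
      rw [← h.2.2 a, ← h'.2.2 a]
      refine cv_congr _ _ fun b hb => ?_
      rcases Nat.lt_or_eq_of_le hb with hb | hb
      · exact (ih b hb).1
      · rw [hb]; exact h1
    rw [cv_lead, cv_lead, hev, mul_one, mul_one] at hQ
    have hs : (∑ b : Fin a, (a.choose b.val : R) * (Q b.val * ev g (a - b.val)))
        = ∑ b : Fin a, (a.choose b.val : R) * (Q' b.val * ev g (a - b.val)) :=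
      Finset.sum_congr rfl fun b _ => by rw [(ih b.val b.isLt).2]
    rw [hs] at hQ
    exact add_left_cancel hQ

theorem cv_fin (f g : ℕ → R) (a : ℕ) :
    cv f g a = ∑ b : Fin (a + 1), (a.choose b.val : R) * (f b.val * g (a - b.val)) := by
  unfold cv
  rw [Finset.Nat.sum_antidiagonal_eq_sum_range_succ
    (fun i j => (a.choose i : R) * (f i * g j)) a, ← Fin.sum_univ_eq_sum_range
    (fun i => (a.choose i : R) * (f i * g (a - i))) (a + 1)]

theorem EO_fst (g : ℕ → R) (a : ℕ) : (EO g a).1 = (if a = 0 then 1 else 0)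
    + ∑ b : Fin a, (a.choose b.val : R) * ((EO g b.val).1 * g (2 * (a - b.val)))
    + ∑ b : Fin a, ((a - 1).choose b.val : R) * ((EO g b.val).2 * g (2 * (a - 1 - b.val) + 1)) := by
  rw [EO]

theorem EO_snd (g : ℕ → R) (a : ℕ) : (EO g a).2 =
    ∑ b : Fin a, (a.choose b.val : R) * ((EO g b.val).1 * g (2 * (a - b.val) + 1))
      + (EO g a).1 * g 1
    + ∑ b : Fin a, (a.choose b.val : R) * ((EO g b.val).2 * g (2 * (a - b.val))) := by
  rw [EO]

theorem rel_EO (h2 : (2 : R) = 0) (g : ℕ → R) (h0 : g 0 = 1) :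
    Rel g (fun a => (EO g a).1) (fun a => (EO g a).2) := by
  have hev : ev g 0 = 1 := h0
  refine ⟨?_, ?_, ?_⟩
  · rw [cv_zero, hev, mul_one, EO_fst]
    simp
  · intro a
    rw [cv_lead, hev, mul_one, cv_fin]
    show _ + (EO g (a + 1)).1 = _
    rw [EO_fst, if_neg (Nat.succ_ne_zero a), zero_add, ← add_assoc]
    have e1 : (∑ b : Fin (a + 1), ((a + 1).choose b.val : R) *
        ((EO g b.val).1 * ev g (a + 1 - b.val))) =
        ∑ b : Fin (a + 1), ((a + 1).choose b.val : R) *
        ((EO g b.val).1 * g (2 * (a + 1 - b.val))) := rfl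
    rw [e1, add_self' h2, zero_add]
    rfl
  · intro a
    rw [cv_lead, cv_lead, hev, mul_one]
    show _ = _ + (EO g a).2
    rw [EO_snd]
    have e1 : (∑ b : Fin a, (a.choose b.val : R) * ((EO g b.val).2 * ev g (a - b.val))) =
        ∑ b : Fin a, (a.choose b.val : R) * ((EO g b.val).2 * g (2 * (a - b.val))) := rfl
    rw [e1, add_comm (∑ b : Fin a, (a.choose b.val : R) *
      ((EO g b.val).2 * g (2 * (a - b.val)))) (_ + _), add_assoc (_ + _), add_self' h2, add_zero]
    rfl

end SDAux

open SDAux in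
theorem WW_hs (h2 : (2 : R) = 0) (g : ℕ → R) (h0 : g 0 = 1) (t : ℕ) :
    WW (hs g) (2 ^ t - 1) = WW g (2 ^ t - 1) + 1 := by
  set E : ℕ → R := fun a => (EO g a).1 with hE
  set O : ℕ → R := fun a => (EO g a).2 with hO
  obtain ⟨ra, rb, rc⟩ := rel_EO h2 g h0
  have two0 : ∀ x : R, x + x = 0 := add_self' h2
  -- the new letters
  have hod : od (hs g) = bt (fun j => ev g j + od g j) := by
    funext a
    have e1 : (2 * a + 1) / 2 = a := by omega
    have e2 : ¬ Even (2 * a + 1) := by
      rw [Nat.not_even_iff_odd]; exact odd_two_mul_add_one a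
    show hs g (2 * a + 1) = _
    unfold hs
    rw [e1, if_neg e2, add_zero]
  have hevh : ev (hs g) = fun a => od (hs g) a + od g a := by
    funext a
    have e1 : (2 * a) / 2 = a := by omega
    have e2 : Even (2 * a) := even_two_mul a
    rw [hod]
    show hs g (2 * a) = _
    unfold hs
    rw [e1, if_pos e2]
    rfl
  have h0' : hs g 0 = 1 := by
    have e : hs g 0 = ev (hs g) 0 := rfl
    rw [e, hevh, hod]
    show bt (fun j => ev g j + od g j) 0 + od g 0 = 1
    rw [bt_zero]
    show ev g 0 + od g 0 + od g 0 = 1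
    rw [add_assoc, two0, add_zero]
    exact h0
  -- the four convolutions
  set P : ℕ → R := cv E (ev g) with hP
  set S : ℕ → R := cv O (od g) with hS
  set X : ℕ → R := cv E (od g) with hX
  have hX' : cv O (ev g) = X := funext fun a => (rc a).symm
  have hPS : sh P = S := funext fun a => rb a
  -- bt of a sum
  have hbX : bt (bt X) = X := funext fun a => bt_bt h2 X a
  have hbS : bt (bt S) = S := funext fun a => bt_bt h2 S a
  have hsum : ∀ f : ℕ → R, ∀ a, cv f (fun j => ev g j + od g j) a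
      = cv f (ev g) a + cv f (od g) a := fun f a => cv_add_right f (ev g) (od g) a
  have hTO0 : cv (bt O) (ev g) = bt X := by
    funext a; rw [← bt_cv_left, hX']
  have hTO1 : cv (bt O) (od g) = bt S := by
    funext a; rw [← bt_cv_left]
  set Q : ℕ → R := fun a => E a + O a with hQ
  set F : ℕ → R := fun a => E a + O a + bt O a with hF
  have cQ : ∀ (k : ℕ → R) (a : ℕ), cv Q k a = cv E k a + cv O k a :=
    fun k a => cv_add_left E O k a
  have cF : ∀ (k : ℕ → R) (a : ℕ), cv F k a = cv E k a + cv O k a + cv (bt O) k a := by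
    intro k a
    have e := cv_add_left Q (bt O) k a
    rw [cQ] at e
    exact e
  have QG : cv Q (fun j => ev g j + od g j) = fun a => P a + S a := by
    funext a
    rw [hsum, cQ, cQ, hX']
    calc P a + X a + (X a + S a) = P a + S a + (X a + X a) := by abel
      _ = P a + S a := by rw [two0, add_zero]
  have FG : cv F (fun j => ev g j + od g j) = fun a => P a + S a + (bt X a + bt S a) := by
    funext a
    rw [hsum, cF, cF, hX', hTO0, hTO1]
    calc P a + X a + bt X a + (X a + S a + bt S a)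
        = P a + S a + (bt X a + bt S a) + (X a + X a) := by abel
      _ = P a + S a + (bt X a + bt S a) := by rw [two0, add_zero]
  have Qod : ∀ a, cv Q (od (hs g)) a = bt P a + bt S a := by
    intro a
    rw [hod, ← bt_cv_right, QG, bt_add]
  have Fod : ∀ a, cv F (od (hs g)) a = bt P a + bt S a + (X a + S a) := by
    intro a
    rw [hod, ← bt_cv_right, FG]
    have e1 := bt_add (fun a => P a + S a) (fun a => bt X a + bt S a) a
    rw [e1, bt_add, bt_add]
    have e2 : bt (fun b => bt X b) a = X a := bt_bt h2 X a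
    have e3 : bt (fun b => bt S b) a = S a := bt_bt h2 S a
    rw [e2, e3]
  have Qev : ∀ a, cv Q (ev (hs g)) a = bt P a + bt S a + (X a + S a) := by
    intro a
    rw [hevh]
    have e1 := cv_add_right Q (od (hs g)) (od g) a
    rw [e1, Qod, cQ]
  have Fev : ∀ a, cv F (ev (hs g)) a = bt P a := by
    intro a
    rw [hevh]
    have e1 := cv_add_right F (od (hs g)) (od g) a
    rw [e1, Fod, cF, hTO1]
    calc bt P a + bt S a + (X a + S a) + (X a + S a + bt S a)
        = bt P a + (bt S a + bt S a) + (X a + X a) + (S a + S a) := by abel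
      _ = bt P a := by rw [two0, two0, two0, add_zero, add_zero, add_zero]
  have hrel : Rel (hs g) F Q := by
    refine ⟨?_, ?_, ?_⟩
    · rw [Fev, bt_zero]; exact ra
    · intro a
      rw [Fev, Qod, bt_succ, hPS]
    · intro a
      rw [Fod, Qev]
  have huniq := rel_unique h0' (rel_EO h2 (hs g) h0') hrel
  have hWh : ∀ a, WW (hs g) a = bt P a + bt S a + (X a + S a) := by
    intro a
    have e : WW (hs g) a = cv F (od (hs g)) a := cv_congr _ _ fun b _ => (huniq b).1
    rw [e, Fod]
  have hWg : ∀ a, WW g a = X a := fun a => rfl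
  have hpos : 2 ^ t - 1 + 1 = 2 ^ t := Nat.sub_add_cancel Nat.one_le_two_pow
  have hSP : S (2 ^ t - 1) = P (2 ^ t) := by
    have e : S (2 ^ t - 1) = P (2 ^ t - 1 + 1) := (rb (2 ^ t - 1)).symm
    rw [e, hpos]
  have hbt : bt P (2 ^ t - 1) + bt S (2 ^ t - 1) = P 0 + P (2 ^ t) := by
    rw [← bt_two_pow h2 P t, ← hpos, bt_succ, hPS, hpos]
  have hP0 : P 0 = 1 := ra
  rw [hWh, hWg, hbt, hSP, hP0]
  calc 1 + P (2 ^ t) + (X (2 ^ t - 1) + P (2 ^ t))
      = X (2 ^ t - 1) + 1 + (P (2 ^ t) + P (2 ^ t)) := by abel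
    _ = X (2 ^ t - 1) + 1 := by rw [two0, add_zero]

end Pool.Agent.HBD
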