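import Mathlib
import Pool.Agent.Lib.HBD.SD
import Pool.Agent.Lib.HBD.Grade

set_option autoImplicit false

/-!
# Module HBD.Dual : duality and limits

Abstract form. `P` is a commutative `ZMod 2`-algebra (functions of the edge variables of an
infinite tree), `x c u`, `y c u` the letter `c` at the node `u` in vertex variables and in edge
variables, `XX e`, `YY e` the spaces of forms of degree `e` in vertex and edge variables.

Proof of `dual_lim`. Suppose not. Over the field `ZMod 2` there is a linear functional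
`psi0 : P →ₗ[ZMod 2] ZMod 2` with `psi0 1 = 1` vanishing on the submodule
(`Submodule.exists_le_ker_of_notMem` or a similar name; a nonzero element of `ZMod 2` is `1`).
In the same way there is `Lim : (ℕ → ZMod 2) →ₗ[ZMod 2] ZMod 2` with `Lim (fun _ => 1) = 1` and
`Lim f = 0` for every eventually zero `f` (the constant function `1` is not in the submodule of
eventually zero functions). Let `R = Module.End (ZMod 2) (Module.Dual (ZMod 2) P)` (a ring with
`2 = 0`) and for `f : ℕ → P` let `op f : R` be `psi ↦ (q ↦ Lim (fun u => psi (q * f u)))`.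
`op` is additive, `op (fun _ => 1) = 1`. Put `g c = op (y c)`; `g 0 = 1`. As `hs` is a sum of
natural number multiples of letters, `op (fun u => hs (fun c' => y c' u) c) = hs g c`, so
`hs g c = op (x c)` for `c ≤ N`.
Degrees: `GX n = {O | ∀ e psi, (∀ q ∈ XX (e + n), psi q = 0) → ∀ q ∈ XX e, O psi q = 0}` is an
additive subgroup of `R`, `1 ∈ GX 0`, `GX m * GX n ⊆ GX (m + n)` (`O1 * O2` is composition), and
`op (x c) ∈ GX c` for `c ≤ N` by `hX` (the function under `Lim` is eventually zero). The same for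
`GY` with `YY`, `y`. By `WW_mem` : `A1 := WW (hs g) (2^t1 - 1) ∈ GX (2^(t1+1) - 1)`, the same for
`A2` (`t2`), and `B1 := WW g (2^t1 - 1) ∈ GY (2^(t1+1) - 1)`, `B2`. By `WW_hs` : `A1 = B1 + 1`,
`A2 = B2 + 1`, so `A1 * A2 = B1 * B2 + B1 + B2 + 1`. Evaluate at `psi0` and at `1 ∈ XX 0`,
`1 ∈ YY 0` : the left side is `0`, since `psi0` vanishes on `XX (n1 + n2)`,
`n1 + n2 = 2^(t1+1) + 2^(t2+1) - 2`; on the right the first three terms vanish, since `psi0`
vanishes on `YY d` for `d` in `Adeg t1 t2`, and the last is `psi0 1 = 1`. Contradiction.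
-/

namespace Pool.Agent.HBD

open Finset

/-- The degrees of the error terms. -/
def Adeg (t1 t2 : ℕ) : Finset ℕ :=
  {2 ^ (t1 + 1) + 2 ^ (t2 + 1) - 2, 2 ^ (t1 + 1) - 1, 2 ^ (t2 + 1) - 1}

namespace DualAux

theorem ne_zero_eq_one : ∀ a : ZMod 2, a ≠ 0 → a = 1 := by decide

theorem dbl : ∀ a : ZMod 2, a + a = 0 := by decide

/-- A linear functional which is `1` at a given vector and vanishes on a submodule. -/
theorem exists_functional {V : Type*} [AddCommGroup V] [Module (ZMod 2) V]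
    (p : Submodule (ZMod 2) V) (v : V) (hv : v ∉ p) :
    ∃ f : V →ₗ[ZMod 2] ZMod 2, f v = 1 ∧ ∀ w ∈ p, f w = 0 := by
  have : Fact (Nat.Prime 2) := ⟨Nat.prime_two⟩
  obtain ⟨f, hf1, hf2⟩ := Submodule.exists_le_ker_of_notMem hv
  exact ⟨f, ne_zero_eq_one _ hf1, fun w hw => LinearMap.mem_ker.1 (hf2 hw)⟩

/-- The submodule of eventually zero sequences. -/
def evz : Submodule (ZMod 2) (ℕ → ZMod 2) where
  carrier := {f | ∃ u0, ∀ u ≥ u0, f u = 0}
  add_mem' := by
    rintro f g ⟨a, ha⟩ ⟨b, hb⟩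
    refine ⟨max a b, fun u hu => ?_⟩
    rw [Pi.add_apply, ha u (le_trans (le_max_left _ _) hu), hb u (le_trans (le_max_right _ _) hu),
      add_zero]
  zero_mem' := ⟨0, fun _ _ => rfl⟩
  smul_mem' := by
    rintro c f ⟨a, ha⟩
    refine ⟨a, fun u hu => ?_⟩
    rw [Pi.smul_apply, ha u hu, smul_zero]

theorem exists_lim : ∃ Lim : (ℕ → ZMod 2) →ₗ[ZMod 2] ZMod 2, Lim (fun _ => 1) = 1 ∧
    ∀ f : ℕ → ZMod 2, (∃ u0, ∀ u ≥ u0, f u = 0) → Lim f = 0 := by
  have h1 : (fun _ => 1 : ℕ → ZMod 2) ∉ evz := by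
    rintro ⟨a, ha⟩
    exact one_ne_zero (ha a le_rfl)
  obtain ⟨f, hf1, hf2⟩ := exists_functional evz _ h1
  exact ⟨f, hf1, fun g hg => hf2 g hg⟩

section

variable {P : Type} [CommRing P] [Algebra (ZMod 2) P]

/-- The limit operator of a sequence of elements of `P`. -/
def op (Lim : (ℕ → ZMod 2) →ₗ[ZMod 2] ZMod 2) :
    (ℕ → P) →+ Module.End (ZMod 2) (Module.Dual (ZMod 2) P) where
  toFun f :=
    { toFun := fun psi =>
        { toFun := fun q => Lim (fun u => psi (q * f u))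
          map_add' := by
            intro a b
            rw [← map_add]
            congr 1
            funext u
            show _ = psi (a * f u) + psi (b * f u)
            rw [← map_add, add_mul]
          map_smul' := by
            intro c a
            rw [RingHom.id_apply, ← map_smul]
            congr 1
            funext u
            show _ = c • psi (a * f u)
            rw [← map_smul, smul_mul_assoc] }
      map_add' := by
        intro psi psi'
        ext q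
        show Lim (fun u => (psi + psi') (q * f u)) =
          Lim (fun u => psi (q * f u)) + Lim (fun u => psi' (q * f u))
        rw [← map_add]
        rfl
      map_smul' := by
        intro c psi
        ext q
        show Lim (fun u => (c • psi) (q * f u)) = c • Lim (fun u => psi (q * f u))
        rw [← map_smul]
        rfl }
  map_zero' := by
    ext psi q
    show Lim (fun u => psi (q * (0 : ℕ → P) u)) = 0
    have : (fun u => psi (q * (0 : ℕ → P) u)) = (0 : ℕ → ZMod 2) := by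
      funext u
      rw [Pi.zero_apply, mul_zero, map_zero]
      rfl
    rw [this, map_zero]
  map_add' := by
    intro f g
    ext psi q
    show Lim (fun u => psi (q * (f + g) u)) =
      Lim (fun u => psi (q * f u)) + Lim (fun u => psi (q * g u))
    rw [← map_add]
    congr 1
    funext u
    show _ = psi (q * f u) + psi (q * g u)
    rw [← map_add, ← mul_add]
    rfl

theorem op_apply (Lim : (ℕ → ZMod 2) →ₗ[ZMod 2] ZMod 2) (f : ℕ → P)
    (psi : Module.Dual (ZMod 2) P) (q : P) :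
    op Lim f psi q = Lim (fun u => psi (q * f u)) := rfl

theorem op_one (Lim : (ℕ → ZMod 2) →ₗ[ZMod 2] ZMod 2) (h1 : Lim (fun _ => 1) = 1) :
    op Lim (fun _ => (1 : P)) = 1 := by
  ext psi q
  rw [op_apply]
  have : (fun _ : ℕ => psi (q * 1)) = psi q • (fun _ : ℕ => (1 : ZMod 2)) := by
    funext u
    rw [Pi.smul_apply, mul_one, smul_eq_mul, mul_one]
  rw [this, map_smul, h1, smul_eq_mul, mul_one]
  rfl

theorem op_hs (Lim : (ℕ → ZMod 2) →ₗ[ZMod 2] ZMod 2) (y : ℕ → ℕ → P) (c : ℕ) :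
    op Lim (fun u => hs (fun c' => y c' u) c) = hs (fun c' => op Lim (y c')) c := by
  have h1 : (fun u => hs (fun c' => y c' u) c) =
      ∑ ij ∈ antidiagonal (c / 2), ((c / 2).choose ij.1) • (y (2 * ij.1) + y (2 * ij.1 + 1)) +
        if Even c then y (c + 1) else 0 := by
    funext u
    rw [Pi.add_apply, Finset.sum_apply]
    unfold hs bt ev od
    congr 1
    · refine Finset.sum_congr rfl (fun ij _ => ?_)
      rw [Pi.smul_apply, Pi.add_apply, nsmul_eq_mul]
    · split_ifs <;> rfl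
  rw [h1, map_add, map_sum]
  unfold hs bt ev od
  congr 1
  · refine Finset.sum_congr rfl (fun ij _ => ?_)
    rw [map_nsmul, map_add, nsmul_eq_mul]
  · split_ifs
    · rfl
    · rw [map_zero]

theorem two_eq_zero : (2 : Module.End (ZMod 2) (Module.Dual (ZMod 2) P)) = 0 := by
  have h : (2 : Module.End (ZMod 2) (Module.Dual (ZMod 2) P)) = 1 + 1 := by norm_num
  rw [h]
  ext psi q
  exact dbl (psi q)

/-- Operators of degree `n` with respect to a family of subspaces. -/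
def Gr (XX : ℕ → Submodule (ZMod 2) P) (n : ℕ) :
    AddSubgroup (Module.End (ZMod 2) (Module.Dual (ZMod 2) P)) where
  carrier := {O | ∀ (e : ℕ) (psi : Module.Dual (ZMod 2) P), (∀ q ∈ XX (e + n), psi q = 0) →
    ∀ q ∈ XX e, O psi q = 0}
  add_mem' := by
    intro O O' h h' e psi hpsi q hq
    show O psi q + O' psi q = 0
    rw [h e psi hpsi q hq, h' e psi hpsi q hq, add_zero]
  zero_mem' := by
    intro e psi hpsi q hq
    rfl
  neg_mem' := by
    intro O h e psi hpsi q hq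
    show -(O psi q) = 0
    rw [h e psi hpsi q hq, neg_zero]

theorem one_mem_Gr (XX : ℕ → Submodule (ZMod 2) P) : (1 : Module.End (ZMod 2)
    (Module.Dual (ZMod 2) P)) ∈ Gr XX 0 := by
  intro e psi hpsi q hq
  exact hpsi q hq

theorem mul_mem_Gr (XX : ℕ → Submodule (ZMod 2) P) (m n : ℕ)
    (O O' : Module.End (ZMod 2) (Module.Dual (ZMod 2) P)) (h : O ∈ Gr XX m) (h' : O' ∈ Gr XX n) :
    O * O' ∈ Gr XX (m + n) := by
  intro e psi hpsi q hq
  rw [Module.End.mul_apply]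
  refine h e (O' psi) (fun q' hq' => ?_) q hq
  refine h' (e + m) psi (fun q'' hq'' => ?_) q' hq'
  rw [add_assoc] at hq''
  exact hpsi q'' hq''

theorem op_mem_Gr (Lim : (ℕ → ZMod 2) →ₗ[ZMod 2] ZMod 2)
    (h0 : ∀ f : ℕ → ZMod 2, (∃ u0, ∀ u ≥ u0, f u = 0) → Lim f = 0)
    (XX : ℕ → Submodule (ZMod 2) P) (c : ℕ) (x : ℕ → P)
    (hX : ∀ e, ∀ q ∈ XX e, ∃ u0, ∀ u ≥ u0, q * x u ∈ XX (e + c)) : op Lim x ∈ Gr XX c := by
  intro e psi hpsi q hq
  rw [op_apply]
  obtain ⟨u0, hu⟩ := hX e q hq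
  exact h0 _ ⟨u0, fun u hu' => hpsi _ (hu u hu')⟩

end

end DualAux

theorem dual_lim {P : Type} [CommRing P] [Algebra (ZMod 2) P]
    (XX YY : ℕ → Submodule (ZMod 2) P) (x y : ℕ → ℕ → P) (N t1 t2 : ℕ)
    (hX0 : (1 : P) ∈ XX 0) (hY0 : (1 : P) ∈ YY 0)
    (hy : ∀ u, y 0 u = 1)
    (hxy : ∀ c ≤ N, ∀ u, x c u = hs (fun c' => y c' u) c)
    (hX : ∀ e, ∀ c ≤ N, ∀ q ∈ XX e, ∃ u0, ∀ u ≥ u0, q * x c u ∈ XX (e + c))
    (hY : ∀ e, ∀ c ≤ N, ∀ q ∈ YY e, ∃ u0, ∀ u ≥ u0, q * y c u ∈ YY (e + c))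
    (hN1 : 2 ^ (t1 + 1) ≤ N + 1) (hN2 : 2 ^ (t2 + 1) ≤ N + 1) :
    (1 : P) ∈ XX (2 ^ (t1 + 1) + 2 ^ (t2 + 1) - 2) ⊔ ⨆ d ∈ Adeg t1 t2, YY d := by
  by_contra hcon
  obtain ⟨psi0, hp1, hp0⟩ := DualAux.exists_functional _ _ hcon
  obtain ⟨Lim, hL1, hL0⟩ := DualAux.exists_lim
  have hpX : ∀ q ∈ XX (2 ^ (t1 + 1) + 2 ^ (t2 + 1) - 2), psi0 q = 0 := fun q hq =>
    hp0 q (Submodule.mem_sup_left hq)
  have hpY : ∀ d ∈ Adeg t1 t2, ∀ q ∈ YY d, psi0 q = 0 := fun d hd q hq =>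
    hp0 q (Submodule.mem_sup_right (Submodule.mem_iSup_of_mem d
      (Submodule.mem_iSup_of_mem hd hq)))
  set g : ℕ → Module.End (ZMod 2) (Module.Dual (ZMod 2) P) :=
    fun c => DualAux.op Lim (y c) with hg
  have hg0 : g 0 = 1 := by
    rw [hg]
    show DualAux.op Lim (y 0) = 1
    have : y 0 = fun _ => (1 : P) := funext hy
    rw [this]
    exact DualAux.op_one Lim hL1
  have hgx : ∀ c ≤ N, hs g c = DualAux.op Lim (x c) := by
    intro c hc
    have : x c = fun u => hs (fun c' => y c' u) c := funext (hxy c hc)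
    rw [this, DualAux.op_hs]
  have hgX : ∀ n ≤ N, hs g n ∈ DualAux.Gr XX n := by
    intro n hn
    rw [hgx n hn]
    exact DualAux.op_mem_Gr Lim hL0 XX n (x n) (fun e q hq => hX e n hn q hq)
  have hgY : ∀ n ≤ N, g n ∈ DualAux.Gr YY n := by
    intro n hn
    exact DualAux.op_mem_Gr Lim hL0 YY n (y n) (fun e q hq => hY e n hn q hq)
  have hp1' : 0 < 2 ^ t1 := by positivity
  have hp2' : 0 < 2 ^ t2 := by positivity
  have e1 : 2 ^ (t1 + 1) = 2 * 2 ^ t1 := by rw [pow_succ]; ring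
  have e2 : 2 ^ (t2 + 1) = 2 * 2 ^ t2 := by rw [pow_succ]; ring
  have m1 : 2 * (2 ^ t1 - 1) + 1 = 2 ^ (t1 + 1) - 1 := by omega
  have m2 : 2 * (2 ^ t2 - 1) + 1 = 2 ^ (t2 + 1) - 1 := by omega
  have m12 : (2 ^ (t1 + 1) - 1) + (2 ^ (t2 + 1) - 1) = 2 ^ (t1 + 1) + 2 ^ (t2 + 1) - 2 := by omega
  have hA1 := WW_mem (DualAux.Gr XX) (DualAux.one_mem_Gr XX) (DualAux.mul_mem_Gr XX) (hs g) N hgX
    (2 ^ t1 - 1) (by omega)
  have hA2 := WW_mem (DualAux.Gr XX) (DualAux.one_mem_Gr XX) (DualAux.mul_mem_Gr XX) (hs g) N hgX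
    (2 ^ t2 - 1) (by omega)
  have hB1 := WW_mem (DualAux.Gr YY) (DualAux.one_mem_Gr YY) (DualAux.mul_mem_Gr YY) g N hgY
    (2 ^ t1 - 1) (by omega)
  have hB2 := WW_mem (DualAux.Gr YY) (DualAux.one_mem_Gr YY) (DualAux.mul_mem_Gr YY) g N hgY
    (2 ^ t2 - 1) (by omega)
  rw [m1] at hA1 hB1
  rw [m2] at hA2 hB2
  have hAA := DualAux.mul_mem_Gr XX _ _ _ _ hA1 hA2
  have hBB := DualAux.mul_mem_Gr YY _ _ _ _ hB1 hB2
  rw [m12] at hAA hBB
  have hW1 := WW_hs DualAux.two_eq_zero g hg0 t1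
  have hW2 := WW_hs DualAux.two_eq_zero g hg0 t2
  have z1 : (WW (hs g) (2 ^ t1 - 1) * WW (hs g) (2 ^ t2 - 1)) psi0 1 = 0 :=
    hAA 0 psi0 (fun q hq => by rw [zero_add] at hq; exact hpX q hq) 1 hX0
  have z2 : (WW g (2 ^ t1 - 1) * WW g (2 ^ t2 - 1)) psi0 1 = 0 :=
    hBB 0 psi0 (fun q hq => by
      rw [zero_add] at hq; exact hpY _ (by simp [Adeg]) q hq) 1 hY0
  have z3 : (WW g (2 ^ t1 - 1)) psi0 1 = 0 :=
    hB1 0 psi0 (fun q hq => by
      rw [zero_add] at hq; exact hpY _ (by simp [Adeg]) q hq) 1 hY0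
  have z4 : (WW g (2 ^ t2 - 1)) psi0 1 = 0 :=
    hB2 0 psi0 (fun q hq => by
      rw [zero_add] at hq; exact hpY _ (by simp [Adeg]) q hq) 1 hY0
  rw [hW1, hW2] at z1
  have hexp : (WW g (2 ^ t1 - 1) + 1) * (WW g (2 ^ t2 - 1) + 1) =
      WW g (2 ^ t1 - 1) * WW g (2 ^ t2 - 1) + WW g (2 ^ t1 - 1) + WW g (2 ^ t2 - 1) + 1 := by
    noncomm_ring
  rw [hexp] at z1
  have z5 : (WW g (2 ^ t1 - 1) * WW g (2 ^ t2 - 1)) psi0 1 + (WW g (2 ^ t1 - 1)) psi0 1 +
      (WW g (2 ^ t2 - 1)) psi0 1 + psi0 1 = 0 := z1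
  rw [z2, z3, z4, hp1] at z5
  exact absurd z5 (by decide)

end Pool.Agent.HBD
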