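import Mathlib
import Pool.Agent.Lib.HBD.Hom

set_option autoImplicit false

/-!
# Module HBD.Letter : letters at a node and their complements

`letter n c u y = y_u^(c mod 2) * e_{2 (c / 2)} (y (u, some j), j < n)`, `n = 2 ^ s - 1`.

* `letter_hom` : `letter n c u` is homogeneous of degree `c`, supported on the variables of the
  node `u` (`c = c % 2 + 2 * (c / 2)`; `hom_esym_map`, `IsHomOn.mul`, `IsHomOn.monomial`).
* `letter_zero` : `esym _ 0 _ = 1`.
* `letter_xi` : let `n = 2 ^ s - 1`, `m = c / 2 < 2 ^ (s - 1)` (`c < 2 ^ s`), `w` = number of `j`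
  with `y (u, some j) = 1`, so `w ≤ n` and `e_{2m}(y) = binom(w, 2m)` (`esym_eq`).
  CLAIM A: `binom(n - w, 2m) = ∑ j, binom(m, j) binom(w, 2j)` mod 2 (`2 m < 2 ^ s`), i.e.
  `bt (fun j => (w.choose (2 j) : ZMod 2)) m`.
  Proof of CLAIM A: by `Choose.choose_modEq_choose_mod_mul_choose_div_nat` (p = 2),
  `binom(w, 2j) = binom(v, j)` with `v = w / 2`, and `binom(n - w, 2m) = binom(2^(s-1) - 1 - v, m)`
  (`(n - w) / 2 = 2^(s-1) - 1 - v`). By Vandermonde (`Nat.add_choose_eq` or
  `Nat.sum_range_choose_mul_choose` type) `∑ j, binom(m, j) binom(v, j) = binom(m + v, m)`. And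
  CLAIM B: for `m, v < 2 ^ t`, `binom(2^t - 1 - v, m) = binom(m + v, m)` mod 2: induction on `v`
  (outer) and `m` (inner): `v = 0` : `binom(2^t - 1, m)` is odd (from `binom(2^t, m)` even for
  `0 < m < 2^t`, `Nat.Prime.dvd_choose_pow` type, and Pascal); step: with `N = 2^t - 1 - v`,
  `binom(N - 1, m) = binom(N, m) - binom(N - 1, m - 1)`, which is mod 2
  `binom(m + v, m) + binom(m - 1 + v + 1, m - 1) = binom(m + v + 1, m)`.
  Then: if `y (u, none) = 0` the complemented leaf variables are `1 + y_j`, so the symmetric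
  function is `binom(n - w, 2m)`; the left side is `binom(n - w, 2m)` for both parities of `c`,
  and the right side is `bt (fun j => gl (2j) + gl (2j+1)) m + (if Even c then gl (c+1) else 0)`
  with `gl (2j) = binom(w, 2j)`, `gl (2j+1) = 0`. If `y (u, none) = 1` then `1 + y (u, none) = 0`:
  left side `0` for odd `c` and `binom(w, 2m)` for even `c`; on the right `gl (2j) + gl (2j+1) = 0`
  and `gl (c+1) = binom(w, 2m)` for even `c`.
-/

namespace Pool.Agent.HBD

open Finset Pool.Agent.P47443c

namespace LetterAux

theorem two_zero : (2 : ZMod 2) = 0 := by decide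

theorem dbl (a : ZMod 2) : a + a = 0 := by revert a; decide

/-- `binom(2^t - 1, m)` is odd. -/
theorem choose_pred (t : ℕ) : ∀ m : ℕ, m < 2 ^ t → (((2 ^ t - 1).choose m : ℕ) : ZMod 2) = 1 := by
  intro m
  induction m with
  | zero => intro _; simp
  | succ m ih =>
    intro hm
    have h1 := ih (by omega)
    have hpos : 0 < 2 ^ t := by positivity
    have h2 : (2 ^ t).choose (m + 1) = (2 ^ t - 1).choose m + (2 ^ t - 1).choose (m + 1) := by
      conv_lhs => rw [show 2 ^ t = (2 ^ t - 1) + 1 by omega]
      rw [Nat.choose_succ_succ]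
    have h3 : 2 ∣ (2 ^ t).choose (m + 1) :=
      Nat.Prime.dvd_choose_pow Nat.prime_two (by omega) (by omega)
    have h4 : (((2 ^ t).choose (m + 1) : ℕ) : ZMod 2) = 0 :=
      (ZMod.natCast_eq_zero_iff _ _).2 h3
    rw [h2] at h4
    push_cast at h4
    rw [h1] at h4
    have : ∀ z : ZMod 2, 1 + z = 0 → z = 1 := by decide
    exact this _ h4

/-- CLAIM B. -/
theorem claimB (t : ℕ) : ∀ v m : ℕ, v < 2 ^ t → m < 2 ^ t →
    (((2 ^ t - 1 - v).choose m : ℕ) : ZMod 2) = (((m + v).choose m : ℕ) : ZMod 2) := by
  intro v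
  induction v with
  | zero =>
    intro m _ hm
    rw [Nat.sub_zero, choose_pred t m hm]
    simp
  | succ v ihv =>
    intro m
    induction m with
    | zero => intro _ _; simp
    | succ m ihm =>
      intro hv hm
      have h1 := ihm hv (by omega)
      have h2 := ihv (m + 1) (by omega) hm
      have h3 : (2 ^ t - 1 - v).choose (m + 1) =
          (2 ^ t - 1 - (v + 1)).choose m + (2 ^ t - 1 - (v + 1)).choose (m + 1) := by
        rw [show 2 ^ t - 1 - v = (2 ^ t - 1 - (v + 1)) + 1 by omega, Nat.choose_succ_succ]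
      rw [h3] at h2
      push_cast at h2
      rw [h1] at h2
      have h4 : (m + 1 + (v + 1)).choose (m + 1) =
          (m + (v + 1)).choose m + (m + 1 + v).choose (m + 1) := by
        rw [show m + 1 + (v + 1) = (m + (v + 1)) + 1 by omega, Nat.choose_succ_succ,
          show m + (v + 1) = m + 1 + v by omega]
      rw [h4]
      push_cast
      have : ∀ a b c : ZMod 2, a + b = c → b = a + c := by decide
      exact this _ _ _ h2

theorem lucas_even (a b : ℕ) : ((a.choose (2 * b) : ℕ) : ZMod 2) = (((a / 2).choose b : ℕ) : ZMod 2) := by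
  have h := Choose.choose_modEq_choose_mod_mul_choose_div_nat (n := a) (k := 2 * b) (p := 2)
  rw [show 2 * b % 2 = 0 by omega, show 2 * b / 2 = b by omega, Nat.choose_zero_right,
    one_mul] at h
  exact (ZMod.natCast_eq_natCast_iff _ _ _).2 h

/-- Vandermonde in the form used here. -/
theorem vander (v m : ℕ) :
    ∑ ij ∈ antidiagonal m, (m.choose ij.1 : ZMod 2) * ((v.choose ij.1 : ℕ) : ZMod 2) =
      (((m + v).choose m : ℕ) : ZMod 2) := by
  rw [Nat.add_comm m v, Nat.add_choose_eq]
  push_cast
  refine Finset.sum_congr rfl (fun ij hij => ?_)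
  rw [Finset.HasAntidiagonal.mem_antidiagonal] at hij
  have h1 : m.choose ij.1 = m.choose ij.2 := by
    rw [← hij]
    rw [Nat.choose_symm_add]
  rw [h1, mul_comm]

/-- CLAIM A. -/
theorem claimA (s w m : ℕ) (hw : w ≤ 2 ^ s - 1) (hm : 2 * m < 2 ^ s) :
    (((2 ^ s - 1 - w).choose (2 * m) : ℕ) : ZMod 2) =
      bt (fun j => ((w.choose (2 * j) : ℕ) : ZMod 2)) m := by
  unfold bt
  rw [lucas_even]
  simp only [lucas_even w]
  rw [vander]
  rcases Nat.eq_zero_or_pos s with h0 | h0
  · subst h0
    simp at hm hw
    subst hm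
    simp
  · obtain ⟨t, rfl⟩ : ∃ t, s = t + 1 := ⟨s - 1, by omega⟩
    rw [pow_succ] at hw hm ⊢
    have h1 : (2 ^ t * 2 - 1 - w) / 2 = 2 ^ t - 1 - w / 2 := by omega
    rw [h1]
    exact claimB t (w / 2) m (by omega) (by omega)

theorem letter_even (n m u : ℕ) (y : NV n → ZMod 2) : letter n (2 * m) u y =
    ((((univ : Finset (Fin n)).filter (fun j => y (u, some j) = 1)).card.choose (2 * m) : ℕ) :
      ZMod 2) := by
  unfold letter
  rw [if_neg (by simp [Nat.not_odd_iff_even]), one_mul, esym_eq,
    show 2 * (2 * m / 2) = 2 * m by omega]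

theorem letter_odd (n m u : ℕ) (y : NV n → ZMod 2) : letter n (2 * m + 1) u y = y (u, none) *
    ((((univ : Finset (Fin n)).filter (fun j => y (u, some j) = 1)).card.choose (2 * m) : ℕ) :
      ZMod 2) := by
  unfold letter
  rw [if_pos (by exact ⟨m, rfl⟩), esym_eq,
    show 2 * ((2 * m + 1) / 2) = 2 * m by omega]

end LetterAux

theorem letter_zero (n u : ℕ) (y : NV n → ZMod 2) : letter n 0 u y = 1 := by
  have h := LetterAux.letter_even n 0 u y
  simpa using h

theorem letter_hom (n c u : ℕ) :
    IsHomOn (({u} : Finset ℕ) ×ˢ (univ : Finset (Option (Fin n)))) c (letter n c u) := by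
  have e0 : Function.Injective (fun j : Fin n => ((u, some j) : NV n)) := by
    intro a b hab
    simpa using hab
  have h1 := hom_esym_map (univ : Finset (Fin n)) ⟨fun j : Fin n => ((u, some j) : NV n), e0⟩
    (2 * (c / 2))
  have hsub : ((univ : Finset (Fin n)).map ⟨fun j : Fin n => ((u, some j) : NV n), e0⟩) ⊆
      (({u} : Finset ℕ) ×ˢ (univ : Finset (Option (Fin n)))) := by
    intro x hx
    rw [Finset.mem_map] at hx
    obtain ⟨j, _, rfl⟩ := hx
    simp
  rcases Nat.even_or_odd c with hc | hc
  · have hc2 : 2 * (c / 2) = c := by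
      obtain ⟨r, rfl⟩ := hc
      omega
    rw [hc2] at h1
    refine (h1.mono hsub).congr (fun x => ?_)
    unfold letter
    rw [if_neg (by simpa [Nat.not_odd_iff_even] using hc), one_mul, hc2]
    rfl
  · have hc2 : 1 + 2 * (c / 2) = c := by
      obtain ⟨r, rfl⟩ := hc
      omega
    have h2 : IsHomOn ({((u, none) : NV n)} : Finset (NV n)) 1 (fun x => x (u, none)) := by
      have := IsHomOn.linear ({((u, none) : NV n)} : Finset (NV n))
      simpa using this
    have hd : Disjoint ({((u, none) : NV n)} : Finset (NV n))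
        ((univ : Finset (Fin n)).map ⟨fun j : Fin n => ((u, some j) : NV n), e0⟩) := by
      rw [Finset.disjoint_left]
      intro x hx hx'
      rw [Finset.mem_singleton] at hx
      rw [Finset.mem_map] at hx'
      obtain ⟨j, _, hj⟩ := hx'
      rw [hx] at hj
      simp at hj
    have h3 := h2.mul h1 hd
    rw [hc2] at h3
    have hsub2 : ({((u, none) : NV n)} : Finset (NV n)) ∪
        ((univ : Finset (Fin n)).map ⟨fun j : Fin n => ((u, some j) : NV n), e0⟩) ⊆
        (({u} : Finset ℕ) ×ˢ (univ : Finset (Option (Fin n)))) := by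
      refine Finset.union_subset ?_ hsub
      intro x hx
      rw [Finset.mem_singleton] at hx
      rw [hx]
      simp
    refine (h3.mono hsub2).congr (fun x => ?_)
    unfold letter
    rw [if_pos hc]
    rfl

theorem LetterAux.letter_xi_aux (n s c u : ℕ) (hn : n = 2 ^ s - 1) (hc : c < 2 ^ s)
    (y : NV n → ZMod 2) : letter n c u (xi y) = hs (fun c' => letter n c' u y) c := by
  set F := (univ : Finset (Fin n)).filter (fun j => y (u, some j) = 1) with hF
  have hFc : F.card ≤ n := by
    have := Finset.card_le_univ F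
    simpa using this
  -- the two kinds of letters
  have hev : ∀ j, letter n (2 * j) u y = ((F.card.choose (2 * j) : ℕ) : ZMod 2) :=
    fun j => LetterAux.letter_even n j u y
  have hod : ∀ j, letter n (2 * j + 1) u y = y (u, none) * ((F.card.choose (2 * j) : ℕ) : ZMod 2) :=
    fun j => LetterAux.letter_odd n j u y
  have hcases : y (u, none) = 0 ∨ y (u, none) = 1 := by
    generalize y (u, none) = z
    revert z
    decide
  rcases hcases with h0 | h0
  · -- complemented leaves
    have hG : ((univ : Finset (Fin n)).filter (fun j => xi y (u, some j) = 1)) = Fᶜ := by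
      ext j
      simp only [Finset.mem_filter, Finset.mem_univ, true_and, Finset.mem_compl, hF]
      show 1 + y (u, none) + y (u, some j) = 1 ↔ _
      rw [h0, add_zero]
      generalize y (u, some j) = z
      revert z
      decide
    have hGc : ((univ : Finset (Fin n)).filter (fun j => xi y (u, some j) = 1)).card =
        n - F.card := by
      rw [hG, Finset.card_compl, Fintype.card_fin]
    have hA : ∀ m, 2 * m < 2 ^ s → (((n - F.card).choose (2 * m) : ℕ) : ZMod 2) =
        bt (fun j => ((F.card.choose (2 * j) : ℕ) : ZMod 2)) m := by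
      intro m hm
      have h5 := LetterAux.claimA s F.card m (by omega) hm
      rw [← hn] at h5
      exact h5
    have hbt : ∀ m, bt (fun j => ev (fun c' => letter n c' u y) j +
        od (fun c' => letter n c' u y) j) m =
        bt (fun j => ((F.card.choose (2 * j) : ℕ) : ZMod 2)) m := by
      intro m
      unfold bt ev od
      refine Finset.sum_congr rfl (fun ij _ => ?_)
      dsimp only
      rw [hev, hod, h0, zero_mul, add_zero]
    rcases Nat.even_or_odd' c with ⟨m, hm | hm⟩
    · subst hm
      rw [LetterAux.letter_even, hGc, hA m hc]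
      unfold hs
      rw [hbt, show 2 * m / 2 = m by omega, if_pos (by exact even_two_mul m)]
      show _ = _ + letter n (2 * m + 1) u y
      rw [hod, h0, zero_mul, add_zero]
    · subst hm
      rw [LetterAux.letter_odd, hGc, hA m (by omega)]
      unfold hs
      rw [hbt, show (2 * m + 1) / 2 = m by omega, if_neg (by simp)]
      show (1 + y (u, none)) * _ = _
      rw [h0, add_zero, one_mul, add_zero]
  · -- the leaves are unchanged
    have hG : ((univ : Finset (Fin n)).filter (fun j => xi y (u, some j) = 1)) = F := by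
      ext j
      simp only [Finset.mem_filter, Finset.mem_univ, true_and, hF]
      show 1 + y (u, none) + y (u, some j) = 1 ↔ _
      rw [h0]
      generalize y (u, some j) = z
      revert z
      decide
    have hbt : ∀ m, bt (fun j => ev (fun c' => letter n c' u y) j +
        od (fun c' => letter n c' u y) j) m = 0 := by
      intro m
      unfold bt ev od
      refine Finset.sum_eq_zero (fun ij _ => ?_)
      dsimp only
      rw [hev, hod, h0, one_mul, LetterAux.dbl, mul_zero]
    rcases Nat.even_or_odd' c with ⟨m, hm | hm⟩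
    · subst hm
      rw [LetterAux.letter_even, hG]
      unfold hs
      rw [hbt, if_pos (by exact even_two_mul m)]
      show _ = 0 + letter n (2 * m + 1) u y
      rw [hod, h0, one_mul, zero_add]
    · subst hm
      rw [LetterAux.letter_odd, hG]
      unfold hs
      rw [hbt, if_neg (by simp)]
      show (1 + y (u, none)) * _ = _
      rw [h0, LetterAux.dbl, zero_mul, add_zero]

theorem letter_xi (s c u : ℕ) (hc : c < 2 ^ s) (y : NV (2 ^ s - 1) → ZMod 2) :
    letter (2 ^ s - 1) c u (xi y) = hs (fun c' => letter (2 ^ s - 1) c' u y) c := by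
  exact LetterAux.letter_xi_aux _ s c u rfl hc y

end Pool.Agent.HBD
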