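import Mathlib
import Pool.Agent.Lib.HBD.Dual
import Pool.Agent.Lib.HBD.Letter

set_option autoImplicit false

/-!
# Module HBD.KeyInf : the key identity on the infinite tree

Apply `dual_lim` with `P = (NV n → ZMod 2) → ZMod 2`, `n = 2 ^ s - 1` (commutative `ZMod 2`-algebra
of all functions, `Pi` instances),
`YY e = {f | ∃ B, IsHomOn B e f}` and `XX e = {f | ∃ B G, IsHomOn B e G ∧ f = fun y => G (xi y)}`
(submodules: `IsHomOn.zero`, `IsHomOn.mono` to the union and `IsHomOn.add`; scalars of `ZMod 2` are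
`0`, `1`), `y c u = letter n c u`, `x c u = fun y => letter n c u (xi y)`, `N = 2 ^ s - 1`.
* `hxy` is `letter_xi` (both sides as functions; `hs` of a function-valued sequence is computed
  pointwise: `Finset.sum_apply`, `Pi.mul_apply`, natural number casts).
* `hX`, `hY` : if `B` is the finite support of `q`, let `u0` be larger than all first coordinates
  of elements of `B`; for `u ≥ u0` the support `{u} × univ` of `letter n c u` (`letter_hom`) is
  disjoint from `B`, use `IsHomOn.mul`.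
* `1 ∈ XX 0`, `YY 0` : `IsHomOn.one`.
From `1 ∈ XX _ ⊔ ⨆ d ∈ Adeg t1 t2, YY d` extract `G'` and `c` (`Submodule.mem_sup`; for the finite
supremum `Submodule.mem_iSup_finset_iff_exists_sum` or an induction on the finset) and enlarge all
supports to one finite set `B` (`IsHomOn.mono`).
-/

namespace Pool.Agent.HBD

open Finset Pool.Agent.P47443c

namespace KeyInfAux

theorem zero_or_one : ∀ c : ZMod 2, c = 0 ∨ c = 1 := by decide

/-- Forms of degree `e` in the edge variables. -/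
def YY (n e : ℕ) : Submodule (ZMod 2) ((NV n → ZMod 2) → ZMod 2) where
  carrier := {f | ∃ B : Finset (NV n), IsHomOn B e f}
  add_mem' := by
    rintro f g ⟨B, hB⟩ ⟨C, hC⟩
    exact ⟨B ∪ C, (hB.mono subset_union_left).add (hC.mono subset_union_right)⟩
  zero_mem' := ⟨∅, IsHomOn.zero ∅ e⟩
  smul_mem' := by
    rintro c f ⟨B, hB⟩
    rcases zero_or_one c with h | h
    · refine ⟨B, ?_⟩
      rw [h, zero_smul]
      exact IsHomOn.zero B e
    · refine ⟨B, ?_⟩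
      rw [h, one_smul]
      exact hB

/-- Forms of degree `e` in the vertex variables. -/
def XX (n e : ℕ) : Submodule (ZMod 2) ((NV n → ZMod 2) → ZMod 2) where
  carrier := {f | ∃ (B : Finset (NV n)) (G : (NV n → ZMod 2) → ZMod 2),
    IsHomOn B e G ∧ f = fun y => G (xi y)}
  add_mem' := by
    rintro f g ⟨B, F, hB, hf⟩ ⟨C, G, hC, hg⟩
    refine ⟨B ∪ C, fun y => F y + G y, (hB.mono subset_union_left).add
      (hC.mono subset_union_right), ?_⟩
    rw [hf, hg]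
    rfl
  zero_mem' := ⟨∅, fun _ => 0, IsHomOn.zero ∅ e, rfl⟩
  smul_mem' := by
    rintro c f ⟨B, F, hB, hf⟩
    rcases zero_or_one c with h | h
    · refine ⟨B, fun _ => 0, IsHomOn.zero B e, ?_⟩
      rw [h, zero_smul]
      rfl
    · refine ⟨B, F, hB, ?_⟩
      rw [h, one_smul]
      exact hf

theorem mem_YY {n e : ℕ} {f : (NV n → ZMod 2) → ZMod 2} :
    f ∈ YY n e ↔ ∃ B : Finset (NV n), IsHomOn B e f := Iff.rfl

theorem mem_XX {n e : ℕ} {f : (NV n → ZMod 2) → ZMod 2} :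
    f ∈ XX n e ↔ ∃ (B : Finset (NV n)) (G : (NV n → ZMod 2) → ZMod 2),
      IsHomOn B e G ∧ f = fun y => G (xi y) := Iff.rfl

theorem hs_apply {α : Type} (F : ℕ → α → ZMod 2) (c : ℕ) (y : α) :
    hs F c y = hs (fun c' => F c' y) c := by
  unfold hs bt ev od
  rw [Pi.add_apply, Finset.sum_apply]
  congr 1
  split_ifs <;> rfl

/-- Support far from a finite set. -/
theorem far {n : ℕ} (B : Finset (NV n)) : ∃ u0 : ℕ, ∀ u ≥ u0,
    Disjoint B (({u} : Finset ℕ) ×ˢ (univ : Finset (Option (Fin n)))) := by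
  refine ⟨B.sup Prod.fst + 1, fun u hu => ?_⟩
  rw [Finset.disjoint_left]
  intro v hv hv2
  rw [Finset.mem_product, Finset.mem_singleton] at hv2
  have h1 : v.1 ≤ B.sup Prod.fst := Finset.le_sup (f := Prod.fst) hv
  rw [hv2.1] at h1
  omega

theorem YY_mul {n e c : ℕ} {q : (NV n → ZMod 2) → ZMod 2} (hq : q ∈ YY n e) :
    ∃ u0, ∀ u ≥ u0, q * letter n c u ∈ YY n (e + c) := by
  obtain ⟨B, hB⟩ := mem_YY.1 hq
  obtain ⟨u0, h0⟩ := far B
  refine ⟨u0, fun u hu => mem_YY.2 ⟨_, hB.mul (letter_hom n c u) (h0 u hu)⟩⟩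

theorem XX_mul {n e c : ℕ} {q : (NV n → ZMod 2) → ZMod 2} (hq : q ∈ XX n e) :
    ∃ u0, ∀ u ≥ u0, q * (fun y => letter n c u (xi y)) ∈ XX n (e + c) := by
  obtain ⟨B, G, hB, hG⟩ := mem_XX.1 hq
  obtain ⟨u0, h0⟩ := far B
  refine ⟨u0, fun u hu => mem_XX.2 ⟨_, _, hB.mul (letter_hom n c u) (h0 u hu), ?_⟩⟩
  rw [hG]
  rfl

theorem extract {n : ℕ} (A : Finset ℕ) (f : (NV n → ZMod 2) → ZMod 2)
    (hf : f ∈ ⨆ d ∈ A, YY n d) :
    ∃ (B : Finset (NV n)) (c : ℕ → (NV n → ZMod 2) → ZMod 2),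
      (∀ d ∈ A, IsHomOn B d (c d)) ∧ ∀ y, ∑ d ∈ A, c d y = f y := by
  obtain ⟨mu, hmu⟩ := (Submodule.mem_iSup_finset_iff_exists_sum (s := A) (fun d => YY n d) f).1 hf
  have h1 : ∀ d, ∃ B : Finset (NV n), IsHomOn B d ((mu d : YY n d) : (NV n → ZMod 2) → ZMod 2) :=
    fun d => mem_YY.1 (mu d).2
  choose Bd hBd using h1
  refine ⟨A.biUnion Bd, fun d => (mu d : (NV n → ZMod 2) → ZMod 2), fun d hd =>
    (hBd d).mono (Finset.subset_biUnion_of_mem Bd hd), fun y => ?_⟩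
  rw [← hmu, Finset.sum_apply]

end KeyInfAux

theorem key_inf (t1 t2 s : ℕ) (hle : 2 ^ (t1 + 1) + 2 ^ (t2 + 1) ≤ 2 ^ s) :
    ∃ (B : Finset (NV (2 ^ s - 1))) (G' : (NV (2 ^ s - 1) → ZMod 2) → ZMod 2)
      (c : ℕ → (NV (2 ^ s - 1) → ZMod 2) → ZMod 2),
      IsHomOn B (2 ^ (t1 + 1) + 2 ^ (t2 + 1) - 2) G' ∧
      (∀ d ∈ Adeg t1 t2, IsHomOn B d (c d)) ∧
      ∀ y, G' (xi y) + ∑ d ∈ Adeg t1 t2, c d y = 1 := by
  have hpos : 1 ≤ 2 ^ s := Nat.one_le_two_pow
  have key := dual_lim (P := (NV (2 ^ s - 1) → ZMod 2) → ZMod 2)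
    (KeyInfAux.XX (2 ^ s - 1)) (KeyInfAux.YY (2 ^ s - 1))
    (fun c u => fun y => letter (2 ^ s - 1) c u (xi y)) (fun c u => letter (2 ^ s - 1) c u)
    (2 ^ s - 1) t1 t2
    (KeyInfAux.mem_XX.2 ⟨∅, fun _ => 1, IsHomOn.one ∅, rfl⟩)
    (KeyInfAux.mem_YY.2 ⟨∅, IsHomOn.one ∅⟩)
    (fun u => funext (fun y => letter_zero _ u y))
    (fun c hc u => by
      funext y
      rw [KeyInfAux.hs_apply]
      exact letter_xi s c u (by omega) y)
    (fun e c _ q hq => KeyInfAux.XX_mul hq)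
    (fun e c _ q hq => KeyInfAux.YY_mul hq)
    (by
      have : 0 < 2 ^ (t2 + 1) := by positivity
      omega)
    (by
      have : 0 < 2 ^ (t1 + 1) := by positivity
      omega)
  obtain ⟨a, ha, b, hb, hab⟩ := Submodule.mem_sup.1 key
  obtain ⟨B1, G, hG, haG⟩ := KeyInfAux.mem_XX.1 ha
  obtain ⟨B2, c, hc, hcs⟩ := KeyInfAux.extract _ _ hb
  refine ⟨B1 ∪ B2, G, c, hG.mono subset_union_left, fun d hd => (hc d hd).mono subset_union_right,
    fun y => ?_⟩
  rw [hcs y]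
  have h2 := congrFun hab y
  rw [Pi.add_apply, haG] at h2
  exact h2

end Pool.Agent.HBD
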