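import Mathlib
import Pool.Agent.Lib.HBD.KeyInf

set_option autoImplicit false

/-!
# Module HBD.KeyFin : the key lemma, finite form

Let `B`, `G'`, `c` be as in `key_inf` (take e.g. `s = t1 + t2 + 2`), `n = 2 ^ s - 1`, and `n0` with
`u < n0` for all `(u, _) ∈ B`, `n0 ≥ 1`. Put `L = Fin n0 × Option (Fin n)` (edges),
`S = Option L` (vertices; `none` is the root), `emb : L ↪ NV n` the obvious embedding
`(u, o) ↦ (u.val, o)`,
`E (u, none) = {some (u, none), none}`, `E (u, some j) = {some (u, some j), some (u, none)}`,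
`cut (u, none) = {some (u, o) | o : Option (Fin n)}`, `cut (u, some j) = {some (u, some j)}`
(the side of the edge not containing the root), `A = Adeg t1 t2`,
`c_fin d b = c d (Function.extend emb b 0)`, `G_fin ξ = ξ none * G' (Function.extend emb
(fun l => ξ (some l)) 0)`.
* homogeneity: `hom_restrict`, `IsHomOn.mul` (disjoint supports `{none}` and the others, e.g. by
  `hom_restrict` to `L` followed by `hom_comp` with `d = 1` along `some`), degree
  `1 + (2^(t1+1) + 2^(t2+1) - 2)`.
* `even` : the cards are `2`. `dual` : direct.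
* `legal` : `d = D - 1` : `a = 0`, `b = 1`; `d = 2^(t1+1) - 1` : `a = t2 + 1`, odd; the same for
  the third.
* `key` : if `ξ none = 1` then `G_fin (ξ + 1) = 0`; let `y` be the extension by `0` of
  `l ↦ ∑ s ∈ E l, ξ s`. For a node `u < n0` : `xi y (u, none) = 1 + ξ (u, none) + ξ none =
  ξ (some (u, none))`, `xi y (u, some j) = 1 + (ξ (u, none) + 1) + ξ (u, some j) + ξ (u, none) =
  ξ (some (u, some j))`. `G'` only depends on the variables in `B` (from `IsHomOn`), so
  `G' (xi y) = G_fin ξ`. If `ξ none = 0` apply the first case to `ξ + 1` (the even forms do not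
  change, `E l` has two elements).
-/

namespace Pool.Agent.HBD

open Finset Pool.Agent.P47443c

namespace KeyFinAux

/-- The edges of the finite tree. -/
abbrev LL (n0 n : ℕ) : Type := Fin n0 × Option (Fin n)

/-- The embedding of the finite tree in the infinite one. -/
def emb (n0 n : ℕ) : LL n0 n ↪ NV n where
  toFun l := (l.1.val, l.2)
  inj' := by
    rintro ⟨u, o⟩ ⟨u', o'⟩ h
    simp only [Prod.mk.injEq] at h
    exact Prod.ext (Fin.ext h.1) h.2

/-- The end points of an edge. -/
def EE (n0 n : ℕ) : LL n0 n → Finset (Option (LL n0 n))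
  | (u, none) => {some (u, none), none}
  | (u, some j) => {some (u, some j), some (u, none)}

/-- The side of an edge not containing the root. -/
def cc (n0 n : ℕ) : LL n0 n → Finset (Option (LL n0 n))
  | (u, none) => univ.image (fun o : Option (Fin n) => some (u, o))
  | (u, some j) => {some (u, some j)}

theorem EE_card (n0 n : ℕ) (l : LL n0 n) : (EE n0 n l).card = 2 := by
  rcases l with ⟨u, _ | j⟩
  · simp [EE]
  · simp [EE]

theorem EE_cc (n0 n : ℕ) (l l' : LL n0 n) :
    (((EE n0 n l ∩ cc n0 n l').card : ℕ) : ZMod 2) = if l = l' then 1 else 0 := by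
  rcases l with ⟨u, _ | j⟩ <;> rcases l' with ⟨u', _ | j'⟩
  · by_cases h : u = u'
    · subst h
      have : EE n0 n (u, none) ∩ cc n0 n (u, none) = {some (u, none)} := by
        ext x
        simp only [EE, cc, mem_inter, mem_insert, mem_singleton, mem_image, mem_univ, true_and]
        constructor
        · rintro ⟨h1 | h1, o, h2⟩
          · exact h1
          · rw [h1] at h2; exact absurd h2 (by simp)
        · rintro rfl
          exact ⟨Or.inl rfl, none, rfl⟩
      rw [this]; simp
    · have : EE n0 n (u, none) ∩ cc n0 n (u', none) = ∅ := by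
        ext x
        simp only [EE, cc, mem_inter, mem_insert, mem_singleton, mem_image, mem_univ, true_and,
          Finset.notMem_empty, iff_false]
        rintro ⟨h1 | h1, o, h2⟩
        · rw [h1] at h2
          simp only [Option.some.injEq, Prod.mk.injEq] at h2
          exact h h2.1.symm
        · rw [h1] at h2; exact absurd h2 (by simp)
      rw [this]; simp [h]
  · have : EE n0 n (u, none) ∩ cc n0 n (u', some j') = ∅ := by
      ext x
      simp only [EE, cc, mem_inter, mem_insert, mem_singleton,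
        Finset.notMem_empty, iff_false]
      rintro ⟨h1 | h1, h2⟩
      · rw [h1] at h2; simp at h2
      · rw [h1] at h2; simp at h2
    rw [this]; simp
  · by_cases h : u = u'
    · subst h
      have : EE n0 n (u, some j) ∩ cc n0 n (u, none) = EE n0 n (u, some j) := by
        apply Finset.inter_eq_left.2
        intro x
        simp only [EE, cc, mem_insert, mem_singleton, mem_image, mem_univ, true_and]
        rintro (h1 | h1)
        · exact ⟨some j, h1.symm⟩
        · exact ⟨none, h1.symm⟩
      rw [this, EE_card]; simp; decide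
    · have : EE n0 n (u, some j) ∩ cc n0 n (u', none) = ∅ := by
        ext x
        simp only [EE, cc, mem_inter, mem_insert, mem_singleton, mem_image, mem_univ, true_and,
          Finset.notMem_empty, iff_false]
        rintro ⟨h1 | h1, o, h2⟩
        · rw [h1] at h2
          simp only [Option.some.injEq, Prod.mk.injEq] at h2
          exact h h2.1.symm
        · rw [h1] at h2
          simp only [Option.some.injEq, Prod.mk.injEq] at h2
          exact h h2.1.symm
      rw [this]; simp
  · by_cases h : (u, some j) = (u', some j')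
    · have : EE n0 n (u, some j) ∩ cc n0 n (u', some j') = {some (u', some j')} := by
        rw [h]
        ext x
        simp only [EE, cc, mem_inter, mem_insert, mem_singleton]
        constructor
        · exact fun h => h.2
        · exact fun h => ⟨Or.inl h, h⟩
      rw [this, if_pos h]; simp
    · have : EE n0 n (u, some j) ∩ cc n0 n (u', some j') = ∅ := by
        ext x
        simp only [EE, cc, mem_inter, mem_insert, mem_singleton,
          Finset.notMem_empty, iff_false]
        rintro ⟨h1 | h1, h2⟩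
        · rw [h1] at h2
          exact h (Option.some.inj h2)
        · rw [h1] at h2
          simp at h2
      rw [this, if_neg h]; simp

theorem hom_dep {ι : Type*} [DecidableEq ι] {B : Finset ι} {k : ℕ} {F : (ι → ZMod 2) → ZMod 2}
    (hF : IsHomOn B k F) (x y : ι → ZMod 2) (h : ∀ i ∈ B, x i = y i) : F x = F y := by
  obtain ⟨T, h1, h2⟩ := hF
  rw [h2, h2]
  exact Finset.sum_congr rfl (fun s hs => Finset.prod_congr rfl (fun i hi => h i ((h1 s hs).2 hi)))

theorem legal (t1 t2 : ℕ) : ∀ d ∈ Adeg t1 t2,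
    (∃ a, d + 2 ^ a = 2 ^ (t1 + 1) + 2 ^ (t2 + 1) - 1) ∧
      (Odd d ∨ ∃ b, d + 2 ^ b = 2 ^ (t1 + 1) + 2 ^ (t2 + 1) - 1 + 1) := by
  intro d hd
  have h1 : 1 ≤ 2 ^ t1 := Nat.one_le_two_pow
  have h2 : 1 ≤ 2 ^ t2 := Nat.one_le_two_pow
  simp only [Adeg, mem_insert, mem_singleton] at hd
  rcases hd with rfl | rfl | rfl
  · refine ⟨⟨0, ?_⟩, Or.inr ⟨1, ?_⟩⟩
    · rw [pow_succ, pow_succ]; omega
    · rw [pow_succ, pow_succ]; omega
  · refine ⟨⟨t2 + 1, ?_⟩, Or.inl ⟨2 ^ t1 - 1, ?_⟩⟩
    · rw [pow_succ, pow_succ]; omega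
    · rw [pow_succ]; omega
  · refine ⟨⟨t1 + 1, ?_⟩, Or.inl ⟨2 ^ t2 - 1, ?_⟩⟩
    · rw [pow_succ, pow_succ]; omega
    · rw [pow_succ]; omega

theorem extend_emb (n0 n : ℕ) (f : LL n0 n → ZMod 2) (l : LL n0 n) :
    Function.extend (emb n0 n) f 0 (emb n0 n l) = f l :=
  (emb n0 n).injective.extend_apply f 0 l

theorem two_zero (z : ZMod 2) : z + z = 0 := by revert z; decide

theorem xi_emb (n0 n : ℕ) (ξ : Option (LL n0 n) → ZMod 2) (h : ξ none = 1) (l : LL n0 n) :
    xi (Function.extend (emb n0 n) (fun l => ∑ s ∈ EE n0 n l, ξ s) 0) (emb n0 n l) =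
      ξ (some l) := by
  have h0 := fun l => extend_emb n0 n (fun l => ∑ s ∈ EE n0 n l, ξ s) l
  rcases l with ⟨u, _ | j⟩
  · have h1 := h0 (u, none)
    have h2 : emb n0 n (u, none) = (u.val, none) := rfl
    have h3 : ∑ s ∈ EE n0 n (u, none), ξ s = ξ (some (u, none)) + ξ none := by
      simp only [EE]
      rw [Finset.sum_pair (by simp)]
    rw [h2] at h1 ⊢
    rw [xi, h1, h3, h]
    have := two_zero (1 : ZMod 2)
    linear_combination this
  · have h1 := h0 (u, none)
    have h1' := h0 (u, some j)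
    have h2 : emb n0 n (u, none) = (u.val, none) := rfl
    have h2' : emb n0 n (u, some j) = (u.val, some j) := rfl
    have h3 : ∑ s ∈ EE n0 n (u, none), ξ s = ξ (some (u, none)) + ξ none := by
      simp only [EE]
      rw [Finset.sum_pair (by simp)]
    have h3' : ∑ s ∈ EE n0 n (u, some j), ξ s = ξ (some (u, some j)) + ξ (some (u, none)) := by
      simp only [EE]
      rw [Finset.sum_pair (by simp)]
    rw [h2] at h1
    rw [h2'] at h1' ⊢
    rw [xi, h1, h1', h3, h3', h]
    have := two_zero (1 : ZMod 2)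
    have h5 := two_zero (ξ (some (u, none)))
    linear_combination this + h5

end KeyFinAux

open KeyFinAux

theorem key_data (t1 t2 : ℕ) : Nonempty (KeyData (2 ^ (t1 + 1) + 2 ^ (t2 + 1) - 1)) := by
  classical
  have hle : 2 ^ (t1 + 1) + 2 ^ (t2 + 1) ≤ 2 ^ (t1 + t2 + 2) := by
    have e : 2 ^ (t1 + t2 + 2) = 2 ^ (t1 + 1) * 2 ^ (t2 + 1) := by
      rw [← pow_add]; congr 1; ring
    rw [e]
    have h1 : 2 ≤ 2 ^ (t1 + 1) := by
      rw [pow_succ]; have : 1 ≤ 2 ^ t1 := Nat.one_le_two_pow
      omega
    have h2 : 2 ≤ 2 ^ (t2 + 1) := by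
      rw [pow_succ]; have : 1 ≤ 2 ^ t2 := Nat.one_le_two_pow
      omega
    nlinarith
  obtain ⟨n, B, G', c, hG', hc, hkey⟩ : ∃ (n : ℕ) (B : Finset (NV n))
      (G' : (NV n → ZMod 2) → ZMod 2) (c : ℕ → (NV n → ZMod 2) → ZMod 2),
      IsHomOn B (2 ^ (t1 + 1) + 2 ^ (t2 + 1) - 2) G' ∧
      (∀ d ∈ Adeg t1 t2, IsHomOn B d (c d)) ∧
      ∀ y, G' (xi y) + ∑ d ∈ Adeg t1 t2, c d y = 1 := ⟨_, key_inf t1 t2 (t1 + t2 + 2) hle⟩
  set n0 : ℕ := B.sup (fun p => p.1) + 1 with hn0
  have hB : ∀ a ∈ B, ∃ k : LL n0 n, emb n0 n k = a := by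
    intro a ha
    have h1 : a.1 ≤ B.sup (fun p => p.1) := Finset.le_sup (f := fun p : NV n => p.1) ha
    exact ⟨(⟨a.1, by omega⟩, a.2), rfl⟩
  have hD : 1 + (2 ^ (t1 + 1) + 2 ^ (t2 + 1) - 2) * 1 = 2 ^ (t1 + 1) + 2 ^ (t2 + 1) - 1 := by
    have h1 : 1 ≤ 2 ^ t1 := Nat.one_le_two_pow
    have h2 : 1 ≤ 2 ^ t2 := Nat.one_le_two_pow
    rw [pow_succ, pow_succ]; omega
  let G : (Option (LL n0 n) → ZMod 2) → ZMod 2 := fun ξ =>
    ξ none * G' (Function.extend (emb n0 n) (fun l => ξ (some l)) 0)
  have hG : IsHomOn (univ : Finset (Option (LL n0 n))) (2 ^ (t1 + 1) + 2 ^ (t2 + 1) - 1) G := by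
    have a1 := hom_restrict (emb n0 n) hB hG'
    have a2 := hom_comp a1 1 (fun l : LL n0 n => ({some l} : Finset (Option (LL n0 n))))
      (fun l z => z (some l))
      (fun l _ => by
        have := IsHomOn.monomial (A := ({some l} : Finset (Option (LL n0 n)))) (s := {some l})
          (Finset.Subset.refl _)
        simpa using this)
      (fun l _ l' _ hll => by
        rw [Finset.disjoint_singleton]
        exact fun h => hll (Option.some.inj h))
    have a3 : IsHomOn ({none} : Finset (Option (LL n0 n))) 1 (fun z => z none) := by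
      have := IsHomOn.monomial (A := ({none} : Finset (Option (LL n0 n)))) (s := {none})
          (Finset.Subset.refl _)
      simpa using this
    have a4 := a3.mul a2 (by
      rw [Finset.disjoint_singleton_left]
      simp)
    rw [hD] at a4
    exact a4.mono (Finset.subset_univ _)
  have hG1 : ∀ ξ : Option (LL n0 n) → ZMod 2, ξ none = 1 →
      G (fun s => ξ s + 1) + G ξ =
        1 + ∑ d ∈ Adeg t1 t2, c d (Function.extend (emb n0 n) (fun l => ∑ s ∈ EE n0 n l, ξ s) 0) := by
    intro ξ hξ
    have b1 : G (fun s => ξ s + 1) = 0 := by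
      show (ξ none + 1) * _ = 0
      rw [hξ, two_zero, zero_mul]
    have b2 : G ξ = G' (xi (Function.extend (emb n0 n) (fun l => ∑ s ∈ EE n0 n l, ξ s) 0)) := by
      show ξ none * _ = _
      rw [hξ, one_mul]
      refine hom_dep hG' _ _ (fun i hi => ?_)
      obtain ⟨l, rfl⟩ := hB i hi
      rw [extend_emb, xi_emb n0 n ξ hξ l]
    rw [b1, b2, zero_add]
    have b3 := hkey (Function.extend (emb n0 n) (fun l => ∑ s ∈ EE n0 n l, ξ s) 0)
    have b4 := two_zero (∑ d ∈ Adeg t1 t2,
      c d (Function.extend (emb n0 n) (fun l => ∑ s ∈ EE n0 n l, ξ s) 0))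
    linear_combination b3 - b4
  refine ⟨{
    S := Option (LL n0 n)
    L := LL n0 n
    E := EE n0 n
    cut := cc n0 n
    G := G
    A := Adeg t1 t2
    c := fun d b => c d (Function.extend (emb n0 n) b 0)
    neL := ⟨(⟨0, by omega⟩, none)⟩
    even := fun l => by rw [EE_card]; exact even_two
    dual := EE_cc n0 n
    homG := hG
    homc := fun d hd => hom_restrict (emb n0 n) hB (hc d hd)
    legal := legal t1 t2
    key := ?_ }⟩
  intro ξ
  by_cases hξ : ξ none = 1
  · exact hG1 ξ hξ
  · have h0 : ξ none = 0 := by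
      have : ∀ z : ZMod 2, z ≠ 1 → z = 0 := by decide
      exact this _ hξ
    have h1 := hG1 (fun s => ξ s + 1) (by simp [h0])
    have h2 : (fun s => ξ s + 1 + 1) = ξ := by
      funext s
      have := two_zero (1 : ZMod 2)
      linear_combination this
    have h3 : (fun l => ∑ s ∈ EE n0 n l, (ξ s + 1)) = (fun l => ∑ s ∈ EE n0 n l, ξ s) := by
      funext l
      rw [Finset.sum_add_distrib, Finset.sum_const, EE_card]
      have : (2 : ℕ) • (1 : ZMod 2) = 0 := by decide
      rw [this, add_zero]
    rw [h2, h3] at h1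
    rw [add_comm]
    exact h1

end Pool.Agent.HBD
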