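import Mathlib
import Pool.Agent.Lib.P47443c.Design
import Pool.Agent.Lib.HBD.Hom

set_option autoImplicit false

/-!
# Module HBD.Place : from a template to systems of dimension `card P * M`, `M` large

Let `n = card Λ`, `2 * 3 ^ n < M`, `γ : Λ → ZMod M`, `γ λ = 3 ^ (index of λ)` (as `gg` in
`P47443c/TwoInst.lean`); by `three_pow_sidon_mod` (P47443c/Design.lean) `γ` is injective and
`γ λ - γ μ = γ λ' - γ μ'` with `λ ≠ μ` implies `λ = λ'`, `μ = μ'`.

System: `κ = ZMod M ⊕ (E × ZMod M)`, `ι = P × ZMod M`, both of cardinality `card P * M`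
(`card P = card E + 1`). `D (inl x) (p, i) = 1` iff `∃ λ ∈ TP p, i + γ λ = x`,
`D (inr _) _ = 0`, so `x0 = inr (e, 0)` (`neE`) is a free dimension.
`t y x = y (inl x) + ∑_{(e,i)} [∃ λ ∈ TE e, i + γ λ = x] y (inr (e,i))`,
`pi y (p,i) = T.pi p (λ ↦ t y (i + γ λ)) (e ↦ y (inr (e,i)))`,
`g y = ∑_i T.g (λ ↦ t y (i + γ λ)) (e ↦ y (inr (e,i)))`.

* `pi` injective: equal outputs give, by `dec1` at every base `i`, equal `t (i + γ lam0)`, hence
  equal `t` everywhere; then by `dec2` equal `y (inr (e,i))`, and then equal `y (inl x)`. Bijective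
  by equal finite cardinality.
* homogeneity: `FF z = ∑_i F_loc (z^(i))` with `F_loc` the function of `T.hom` and
  `z^(i) : Λ ⊕ (E ⊕ P) → ZMod 2`, `z^(i) (e) = z (inl (inr (e,i)))`, `z^(i) (p) = z (inr (p,i))`,
  `z^(i) (λ) = ∑_{c ∈ C i λ} z c`, where `C i λ` is the set of the coordinates of base `≠ i`
  containing the point `i + γ λ` :
  `C i λ = {inl (inl (i + γ λ))} ∪ {inl (inr (e,i')) | i' ≠ i, ∃ λ' ∈ TE e, i' + γ λ' = i + γ λ}
         ∪ {inr (p,i') | i' ≠ i, ∃ λ' ∈ TP p, i' + γ λ' = i + γ λ}`.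
  Then `tloc TE TP z^(i) λ = t (yv D z) (i + γ λ)` (for `i' = i` the condition
  `i + γ λ' = i + γ λ` means `λ' = λ`). Apply `hom_comp T.hom 1` with the supports
  `C i λ`, `{inl (inr (e,i))}`, `{inr (p,i)}`: they are pairwise disjoint: a common element of
  `C i λ` and `C i μ`, `λ ≠ μ`, gives `λ', μ'` and `i' ≠ i` with
  `i' + γ λ' = i + γ λ`, `i' + γ μ' = i + γ μ`, so `γ λ - γ μ = γ λ' - γ μ'`, `λ = λ'`, `i = i'`,
  a contradiction. `k * 1 = k`.
-/

namespace Pool.Agent.HBD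

open Finset Pool.Agent.P47443c

namespace PlaceAux

/-- Sidon property for the powers of three labelled by a finite type. -/
theorem sidon {Λ : Type} [Fintype Λ] {M : ℕ} (hM : 2 * 3 ^ Fintype.card Λ < M) :
    ∃ γ : Λ → ZMod M, Function.Injective γ ∧
      ∀ j k j' k' : Λ, j ≠ k → γ j - γ k = γ j' - γ k' → j = j' ∧ k = k' := by
  classical
  have key : ∀ j k j' k' : Λ, j ≠ k →
      ((3 ^ (Fintype.equivFin Λ j).val : ℕ) : ZMod M) -
        ((3 ^ (Fintype.equivFin Λ k).val : ℕ) : ZMod M) =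
      ((3 ^ (Fintype.equivFin Λ j').val : ℕ) : ZMod M) -
        ((3 ^ (Fintype.equivFin Λ k').val : ℕ) : ZMod M) → j = j' ∧ k = k' := by
    intro j k j' k' hjk h
    have key := three_pow_sidon_mod M (Fintype.card Λ) hM
      (Fintype.equivFin Λ j).val (Fintype.equivFin Λ k).val
      (Fintype.equivFin Λ j').val (Fintype.equivFin Λ k').val
      (Fintype.equivFin Λ j).isLt (Fintype.equivFin Λ k).isLt
      (Fintype.equivFin Λ j').isLt (Fintype.equivFin Λ k').isLt
      (by linear_combination h)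
    have inj : ∀ u v : Λ, (Fintype.equivFin Λ u).val = (Fintype.equivFin Λ v).val → u = v :=
      fun u v huv => (Fintype.equivFin Λ).injective (Fin.ext huv)
    rcases key with ⟨h1, h2⟩ | ⟨h1, h2⟩
    · exact absurd (inj _ _ h1) hjk
    · exact ⟨inj _ _ h1, (inj _ _ h2).symm⟩
  refine ⟨fun l => ((3 ^ (Fintype.equivFin Λ l).val : ℕ) : ZMod M), ?_, key⟩
  intro j k h
  by_contra hjk
  have h' : ((3 ^ (Fintype.equivFin Λ j).val : ℕ) : ZMod M) =
      ((3 ^ (Fintype.equivFin Λ k).val : ℕ) : ZMod M) := h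
  have := key j k k j hjk (by rw [h'])
  exact hjk this.1

/-- Sum over the coordinates of base `≠` the given one. -/
theorem sum_far {Λ E : Type} [DecidableEq Λ] [Fintype E] [DecidableEq E] {M : ℕ} [NeZero M]
    (TE : E → Finset Λ) (γ : Λ → ZMod M) (hγ : Function.Injective γ) (m : Λ) (x : ZMod M)
    (w : E × ZMod M → ZMod 2) :
    ∑ c ∈ univ.filter (fun c : E × ZMod M => ∃ l ∈ TE c.1, l ≠ m ∧ c.2 = x - γ l), w c =
      ∑ e, ∑ l ∈ (TE e).filter (fun l => l ≠ m), w (e, x - γ l) := by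
  rw [Finset.sum_filter, Fintype.sum_prod_type]
  refine Finset.sum_congr rfl (fun e _ => ?_)
  rw [← Finset.sum_filter]
  have h1 : (univ.filter (fun j : ZMod M => ∃ l ∈ TE e, l ≠ m ∧ j = x - γ l)) =
      ((TE e).filter (fun l => l ≠ m)).image (fun l => x - γ l) := by
    ext j
    simp only [Finset.mem_filter, Finset.mem_univ, true_and, Finset.mem_image]
    constructor
    · rintro ⟨l, h1, h2, h3⟩
      exact ⟨l, ⟨h1, h2⟩, h3.symm⟩
    · rintro ⟨l, ⟨h1, h2⟩, h3⟩
      exact ⟨l, h1, h2, h3.symm⟩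
  rw [h1, Finset.sum_image]
  intro l _ l' _ h
  exact hγ (sub_right_injective h)

/-- Splitting off the coordinate of base `i`. -/
theorem sum_near {Λ E : Type} [DecidableEq Λ] [Fintype E] {M : ℕ}
    (TE : E → Finset Λ) (γ : Λ → ZMod M) (m : Λ) (i : ZMod M)
    (w : E × ZMod M → ZMod 2) :
    ∑ e, ∑ l ∈ TE e, w (e, i + γ m - γ l) =
      ∑ e, ∑ l ∈ (TE e).filter (fun l => l ≠ m), w (e, i + γ m - γ l) +
        ∑ e, (if m ∈ TE e then w (e, i) else 0) := by
  rw [← Finset.sum_add_distrib]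
  refine Finset.sum_congr rfl (fun e _ => ?_)
  rw [← Finset.sum_filter_add_sum_filter_not (TE e) (fun l => l ≠ m)]
  congr 1
  have h1 : (TE e).filter (fun l => ¬ l ≠ m) = if m ∈ TE e then {m} else ∅ := by
    ext l
    split_ifs with h
    · simp only [Finset.mem_filter, not_not, Finset.mem_singleton]
      constructor
      · exact fun h => h.2
      · rintro rfl
        exact ⟨h, rfl⟩
    · simp only [Finset.mem_filter, not_not, Finset.notMem_empty, iff_false, not_and]
      rintro h1 rfl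
      exact h h1
  rw [h1]
  split_ifs with h
  · rw [Finset.sum_singleton, add_sub_cancel_right]
  · rw [Finset.sum_empty]

variable {k : ℕ} (T : Tmpl k) (M : ℕ) [NeZero M] (γ : T.Λ → ZMod M)

/-- The linear forms. -/
def tt (y : ZMod M ⊕ (T.E × ZMod M) → ZMod 2) (x : ZMod M) : ZMod 2 :=
  y (Sum.inl x) + ∑ e, ∑ l ∈ T.TE e, y (Sum.inr (e, x - γ l))

/-- The matrix. -/
def DD : ZMod M ⊕ (T.E × ZMod M) → T.P × ZMod M → ZMod 2
  | Sum.inl x, j => ∑ l ∈ T.TP j.1, if j.2 = x - γ l then 1 else 0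
  | Sum.inr _, _ => 0

/-- The outputs. -/
def pp (y : ZMod M ⊕ (T.E × ZMod M) → ZMod 2) (j : T.P × ZMod M) : ZMod 2 :=
  T.pi j.1 (fun l => tt T M γ y (j.2 + γ l)) (fun e => y (Sum.inr (e, j.2)))

/-- The function `g`. -/
def gg (y : ZMod M ⊕ (T.E × ZMod M) → ZMod 2) : ZMod 2 :=
  ∑ i : ZMod M, T.g (fun l => tt T M γ y (i + γ l)) (fun e => y (Sum.inr (e, i)))

/-- The supports of the local coordinates. -/
def CC (i : ZMod M) : T.Λ ⊕ (T.E ⊕ T.P) → Finset ((ZMod M ⊕ (T.E × ZMod M)) ⊕ (T.P × ZMod M))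
  | Sum.inl m => ((({i + γ m} : Finset (ZMod M)).disjSum
      (univ.filter (fun c : T.E × ZMod M => ∃ l ∈ T.TE c.1, l ≠ m ∧ c.2 = i + γ m - γ l))).disjSum
      (univ.filter (fun c : T.P × ZMod M => ∃ l ∈ T.TP c.1, l ≠ m ∧ c.2 = i + γ m - γ l)))
  | Sum.inr (Sum.inl e) => {Sum.inl (Sum.inr (e, i))}
  | Sum.inr (Sum.inr p) => {Sum.inr (p, i)}

theorem yv_inr (z : (ZMod M ⊕ (T.E × ZMod M)) ⊕ (T.P × ZMod M) → ZMod 2) (c : T.E × ZMod M) :
    yv (DD T M γ) z (Sum.inr c) = z (Sum.inl (Sum.inr c)) := by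
  simp [yv, DD]

theorem yv_inl (z : (ZMod M ⊕ (T.E × ZMod M)) ⊕ (T.P × ZMod M) → ZMod 2) (x : ZMod M) :
    yv (DD T M γ) z (Sum.inl x) = z (Sum.inl (Sum.inl x)) +
      ∑ p, ∑ l ∈ T.TP p, z (Sum.inr (p, x - γ l)) := by
  unfold yv
  congr 1
  rw [Fintype.sum_prod_type]
  refine Finset.sum_congr rfl (fun p _ => ?_)
  simp only [DD]
  simp_rw [Finset.sum_mul]
  rw [Finset.sum_comm]
  refine Finset.sum_congr rfl (fun l _ => ?_)
  simp

theorem tloc_eq (hγ : Function.Injective γ) (i : ZMod M)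
    (z : (ZMod M ⊕ (T.E × ZMod M)) ⊕ (T.P × ZMod M) → ZMod 2) (m : T.Λ) :
    tloc T.TE T.TP (fun s => ∑ c ∈ CC T M γ i s, z c) m =
      tt T M γ (yv (DD T M γ) z) (i + γ m) := by
  unfold tloc tt
  rw [yv_inl]
  simp only [yv_inr]
  have h1 := sum_near T.TE γ m i (fun c => z (Sum.inl (Sum.inr c)))
  have h2 := sum_near T.TP γ m i (fun c => z (Sum.inr c))
  have h3 := sum_far T.TE γ hγ m (i + γ m) (fun c => z (Sum.inl (Sum.inr c)))
  have h4 := sum_far T.TP γ hγ m (i + γ m) (fun c => z (Sum.inr c))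
  rw [h1, h2, ← h3, ← h4]
  simp only [CC, Finset.sum_disjSum, Finset.sum_singleton]
  ring

theorem bloc_eq (i : ZMod M)
    (z : (ZMod M ⊕ (T.E × ZMod M)) ⊕ (T.P × ZMod M) → ZMod 2) :
    bloc (P := T.P) (fun s : T.Λ ⊕ (T.E ⊕ T.P) => ∑ c ∈ CC T M γ i s, z c) =
      fun e => yv (DD T M γ) z (Sum.inr (e, i)) := by
  funext e
  rw [yv_inr]
  simp [bloc, CC]

theorem disj (hγ : Function.Injective γ)
    (hS : ∀ j k j' k' : T.Λ, j ≠ k → γ j - γ k = γ j' - γ k' → j = j' ∧ k = k')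
    (i : ZMod M) (s s' : T.Λ ⊕ (T.E ⊕ T.P)) (hs : s ≠ s') :
    Disjoint (CC T M γ i s) (CC T M γ i s') := by
  rw [Finset.disjoint_left]
  intro c hc hc'
  rcases s with m | (e | p) <;> rcases s' with m' | (e' | p')
  · have hm : m ≠ m' := fun h => hs (by rw [h])
    simp only [CC] at hc hc'
    rcases c with (x | c) | c
    · rw [Finset.inl_mem_disjSum, Finset.inl_mem_disjSum, Finset.mem_singleton] at hc hc'
      exact hm (hγ (add_left_cancel (hc.symm.trans hc')))
    · rw [Finset.inl_mem_disjSum, Finset.inr_mem_disjSum, Finset.mem_filter] at hc hc'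
      obtain ⟨-, l, -, h2, h3⟩ := hc
      obtain ⟨-, l', -, -, h3'⟩ := hc'
      exact h2 (hS m m' l l' hm (by linear_combination h3' - h3)).1.symm
    · rw [Finset.inr_mem_disjSum, Finset.mem_filter] at hc hc'
      obtain ⟨-, l, -, h2, h3⟩ := hc
      obtain ⟨-, l', -, -, h3'⟩ := hc'
      exact h2 (hS m m' l l' hm (by linear_combination h3' - h3)).1.symm
  · simp only [CC, Finset.mem_singleton] at hc hc'
    subst hc'
    rw [Finset.inl_mem_disjSum, Finset.inr_mem_disjSum, Finset.mem_filter] at hc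
    obtain ⟨-, l, -, h2, h3⟩ := hc
    exact h2 (hγ (by linear_combination h3))
  · simp only [CC, Finset.mem_singleton] at hc hc'
    subst hc'
    rw [Finset.inr_mem_disjSum, Finset.mem_filter] at hc
    obtain ⟨-, l, -, h2, h3⟩ := hc
    exact h2 (hγ (by linear_combination h3))
  · simp only [CC, Finset.mem_singleton] at hc hc'
    subst hc
    rw [Finset.inl_mem_disjSum, Finset.inr_mem_disjSum, Finset.mem_filter] at hc'
    obtain ⟨-, l, -, h2, h3⟩ := hc'
    exact h2 (hγ (by linear_combination h3))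
  · simp only [CC, Finset.mem_singleton] at hc hc'
    subst hc
    simp at hc'
    exact hs (by rw [hc'])
  · simp only [CC, Finset.mem_singleton] at hc hc'
    subst hc
    simp at hc'
  · simp only [CC, Finset.mem_singleton] at hc hc'
    subst hc
    rw [Finset.inr_mem_disjSum, Finset.mem_filter] at hc'
    obtain ⟨-, l, -, h2, h3⟩ := hc'
    exact h2 (hγ (by linear_combination h3))
  · simp only [CC, Finset.mem_singleton] at hc hc'
    subst hc
    simp at hc'
  · simp only [CC, Finset.mem_singleton] at hc hc'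
    subst hc
    simp at hc'
    exact hs (by rw [hc'])

theorem hom (hγ : Function.Injective γ)
    (hS : ∀ j k j' k' : T.Λ, j ≠ k → γ j - γ k = γ j' - γ k' → j = j' ∧ k = k') :
    IsHomOn (univ : Finset ((ZMod M ⊕ (T.E × ZMod M)) ⊕ (T.P × ZMod M))) k
      (FF (DD T M γ) (pp T M γ) (gg T M γ)) := by
  have h1 : ∀ i : ZMod M, IsHomOn
      (univ : Finset ((ZMod M ⊕ (T.E × ZMod M)) ⊕ (T.P × ZMod M))) k
      (fun z => (fun z' : T.Λ ⊕ (T.E ⊕ T.P) → ZMod 2 =>
        ∑ p, z' (Sum.inr (Sum.inr p)) * T.pi p (tloc T.TE T.TP z') (bloc z') +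
          T.g (tloc T.TE T.TP z') (bloc z')) (fun s => ∑ c ∈ CC T M γ i s, z c)) := by
    intro i
    have h2 := hom_comp T.hom 1 (CC T M γ i) (fun s z => ∑ c ∈ CC T M γ i s, z c)
      (fun s _ => IsHomOn.linear _) (fun s _ s' _ h => disj T M γ hγ hS i s s' h)
    rw [mul_one] at h2
    exact h2.mono (Finset.subset_univ _)
  refine (IsHomOn.sum (univ : Finset (ZMod M)) (fun i _ => h1 i)).congr (fun z => ?_)
  unfold FF gg
  rw [Fintype.sum_prod_type_right, ← Finset.sum_add_distrib]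
  refine Finset.sum_congr rfl (fun i _ => ?_)
  have h3 : tloc T.TE T.TP (fun s => ∑ c ∈ CC T M γ i s, z c) =
      fun l => tt T M γ (yv (DD T M γ) z) (i + γ l) := by
    funext l
    exact tloc_eq T M γ hγ i z l
  simp only []
  rw [h3, bloc_eq]
  congr 1
  refine Finset.sum_congr rfl (fun p _ => ?_)
  simp only [pp, CC, Finset.sum_singleton]

theorem card_eq : Fintype.card (ZMod M ⊕ (T.E × ZMod M)) = Fintype.card (T.P × ZMod M) := by
  rw [Fintype.card_sum, Fintype.card_prod, Fintype.card_prod, ZMod.card, T.card_eq]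
  ring

theorem bij : Function.Bijective (pp T M γ) := by
  rw [Fintype.bijective_iff_injective_and_card]
  constructor
  · intro y y' h
    have h1 : ∀ x, tt T M γ y x = tt T M γ y' x := by
      intro x
      have h2 := T.dec1 (fun l => tt T M γ y (x - γ T.lam0 + γ l))
        (fun e => y (Sum.inr (e, x - γ T.lam0)))
        (fun l => tt T M γ y' (x - γ T.lam0 + γ l))
        (fun e => y' (Sum.inr (e, x - γ T.lam0)))
        (fun p => congrFun h (p, x - γ T.lam0))
      simpa using h2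
    have h2 : ∀ e i, y (Sum.inr (e, i)) = y' (Sum.inr (e, i)) := by
      intro e i
      have h3 := T.dec2 (fun l => tt T M γ y (i + γ l))
        (fun e => y (Sum.inr (e, i))) (fun e => y' (Sum.inr (e, i)))
        (fun p => by
          have h4 := congrFun h (p, i)
          simp only [pp] at h4
          rw [h4]
          simp only [h1])
      exact congrFun h3 e
    funext c
    rcases c with x | ⟨e, i⟩
    · have h3 := h1 x
      unfold tt at h3
      simp only [h2] at h3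
      exact add_right_cancel h3
    · exact h2 e i
  · rw [Fintype.card_fun, Fintype.card_fun, card_eq]

end PlaceAux

theorem sys_of_tmpl {k : ℕ} (T : Tmpl k) :
    ∃ N : ℕ, ∀ M : ℕ, N < M → Sys k (Fintype.card T.P * M) := by
  refine ⟨2 * 3 ^ Fintype.card T.Λ, fun M hM => ?_⟩
  have : NeZero M := ⟨by omega⟩
  obtain ⟨γ, hγ, hS⟩ := PlaceAux.sidon (Λ := T.Λ) hM
  obtain ⟨e0⟩ := T.neE
  refine ⟨{
    κ := ZMod M ⊕ (T.E × ZMod M)
    ι := T.P × ZMod M
    D := PlaceAux.DD T M γ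
    pi := PlaceAux.pp T M γ
    g := PlaceAux.gg T M γ
    x0 := Sum.inr (e0, 0)
    card_eq := PlaceAux.card_eq T M
    bij := PlaceAux.bij T M γ
    free := fun _ => rfl
    hom := PlaceAux.hom T M γ hγ hS }, ?_⟩
  have h := PlaceAux.card_eq T M
  rw [Fintype.card_prod, ZMod.card] at h
  exact h

end Pool.Agent.HBD
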