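import Mathlib
import Pool.Agent.Lib.HBD.Hom

/-!
# Module HBD.PGad : the gadget whose output is `t + c(B)`

Local variables: `Unit ⊕ (S ⊕ (Fin (2(D+1)) ⊕ L))`, written `φ0`, `φ s`, `φ q`, `b l`.
`t = φ0 + ∑ l, b l`. Let `pval K t0 tS tQ b z` be the point with
`φ0 = t0 + ∑ b`, `φ s = tS s + ∑_{l : s ∈ cut l} b l + z`, `φ q = tQ q + z`, `b l = b l`,
so `t = t0` at this point. CLAIM: there is a form `F` of degree `D + 1` whose value at `pval` is
affine in `z` with slope `t0 + ∑_{d ∈ A} c_d (B)`, `B l = b l + t0 * ∑_{s ∈ E l} tS s`.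

Construction. Let `e_a(φ) = esym (univ.filter (q < 2^(a+1) - 1)) (2^a) (φ q)` for `2 ^ a ≤ D + 1`
(then `2^(a+1) - 1 < 2 (D+1)`); by `esym_selfdual` its value at `pval` is `e_a(tQ) + z`. For
`d ∈ A` let `c'_d` be the form of degree `d + 1` of `hom_mul_sum`: `(∑ b) c_d = d c_d + c'_d`.
`legal` gives `a_d` with `d + 1 + 2^(a_d) = D + 1` and, for even `d`, `b_d` with
`d + 2^(b_d) = D + 1`. Put
`F = (φ0 + ∑ b) * G(φ s) + ∑_{d ∈ A} [ (φ0 * c_d(b) + c'_d(b)) * e_{a_d}(φ)
      + (if d even) c_d(b) * e_{b_d}(φ) ]`.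
Degrees: `1 + D`, `(d + 1) + 2^(a_d)`, `d + 2^(b_d)`, all `= D + 1`, supports disjoint
(`IsHomOn.mul`, `hom_comp` with `d = 1` to move a form to a part of the variables, `hom_esym_map`).
Slope in `z` at `pval` : with `u s = tS s + ∑_{l : s ∈ cut l} b l` we have
`G (u + z) = G u + z (G (u + 1) + G u) = G u + z (1 + ∑_d c_d (l ↦ ∑_{s ∈ E l} u s))` (key) and
`∑_{s ∈ E l} u s = ∑_{s ∈ E l} tS s + b l` by `dual` (and the sum of `z` over `E l` is `0`, `even`).
So the slope is `t0 (1 + ∑ c_d (η + b)) + ∑_d [ φ0 c_d(b) + c'_d(b) + (1 + d) c_d(b) ]`, where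
`φ0 c_d + c'_d + (1+d) c_d = (φ0 + ∑ b + 1) c_d = (t0 + 1) c_d(b)`. Finally
`c_d (b + t0 η) = (1 + t0) c_d(b) + t0 c_d(b + η)` (cases `t0 = 0, 1`). QED
-/

set_option autoImplicit false

namespace Pool.Agent.HBD

open Finset Pool.Agent.P47443c

/-- The local variables of the gadget. -/
abbrev PVar {D : ℕ} (K : KeyData D) : Type := Unit ⊕ (K.S ⊕ (Fin (2 * (D + 1)) ⊕ K.L))

/-- The point of the local variables attached to `t0, tS, tQ, b, z`. -/
def pval {D : ℕ} (K : KeyData D) (t0 : ZMod 2) (tS : K.S → ZMod 2)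
    (tQ : Fin (2 * (D + 1)) → ZMod 2) (b : K.L → ZMod 2) (z : ZMod 2) : PVar K → ZMod 2
  | Sum.inl _ => t0 + ∑ l, b l
  | Sum.inr (Sum.inl s) => tS s + (∑ l, if s ∈ K.cut l then b l else 0) + z
  | Sum.inr (Sum.inr (Sum.inl q)) => tQ q + z
  | Sum.inr (Sum.inr (Sum.inr l)) => b l

namespace PGadAux

theorem hom_map {ι κ : Type*} [DecidableEq ι] [DecidableEq κ] (e : ι ↪ κ) {A : Finset ι} {k : ℕ}
    {F : (ι → ZMod 2) → ZMod 2} (hF : IsHomOn A k F) :
    IsHomOn (A.map e) k (fun x : κ → ZMod 2 => F (fun i => x (e i))) := by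
  obtain ⟨S, h1, h2⟩ := hF
  refine ⟨S.map (Finset.mapEmbedding e).toEmbedding, ?_, ?_⟩
  · intro s hs
    rw [Finset.mem_map] at hs
    obtain ⟨t, ht, rfl⟩ := hs
    refine ⟨?_, ?_⟩
    · simp [(h1 t ht).1]
    · have := (h1 t ht).2
      simpa using this
  · intro x
    show F (fun i => x (e i)) = _
    rw [h2, Finset.sum_map]
    refine Finset.sum_congr rfl (fun s _ => ?_)
    simp

variable {D : ℕ}

/-- The variables of `S`. -/
def eS (K : KeyData D) : K.S ↪ PVar K :=
  ⟨fun s => Sum.inr (Sum.inl s), by intro a b h; simpa using h⟩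

/-- The variables of the esym part. -/
def eQ (K : KeyData D) : Fin (2 * (D + 1)) ↪ PVar K :=
  ⟨fun s => Sum.inr (Sum.inr (Sum.inl s)), by intro a b h; simpa using h⟩

/-- The variables of `L`. -/
def eL (K : KeyData D) : K.L ↪ PVar K :=
  ⟨fun s => Sum.inr (Sum.inr (Sum.inr s)), by intro a b h; simpa using h⟩

/-- The set used by the elementary symmetric function. -/
def MM (D a : ℕ) : Finset (Fin (2 * (D + 1))) := univ.filter (fun q => q.val < 2 ^ (a + 1) - 1)

theorem card_MM (D a : ℕ) (h : 2 ^ a ≤ D + 1) : (MM D a).card = 2 ^ (a + 1) - 1 := by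
  unfold MM
  have h1 : 2 ^ (a + 1) - 1 ≤ 2 * (D + 1) := by rw [pow_succ]; omega
  have h2 := Fin.card_filter_val_lt (n := 2 * (D + 1)) (m := 2 ^ (a + 1) - 1)
  rw [h2]
  exact Nat.min_eq_right h1

/-- The gadget form. -/
def FF' (K : KeyData D) (c' : ℕ → (K.L → ZMod 2) → ZMod 2) (a b : ℕ → ℕ)
    (φ : PVar K → ZMod 2) : ZMod 2 :=
  (φ (Sum.inl ()) + ∑ l, φ (eL K l)) * K.G (fun s => φ (eS K s)) +
    ∑ d ∈ K.A, ((φ (Sum.inl ()) * K.c d (fun l => φ (eL K l)) + c' d (fun l => φ (eL K l))) *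
        esym (MM D (a d)) (2 ^ (a d)) (fun q => φ (eQ K q)) +
      (if Odd d then 0 else K.c d (fun l => φ (eL K l)) *
        esym (MM D (b d)) (2 ^ (b d)) (fun q => φ (eQ K q))))

theorem hom_FF' (K : KeyData D) (c' : ℕ → (K.L → ZMod 2) → ZMod 2) (a b : ℕ → ℕ)
    (hc' : ∀ d ∈ K.A, IsHomOn (univ : Finset K.L) (d + 1) (c' d))
    (ha : ∀ d ∈ K.A, d + 2 ^ (a d) = D)
    (hb : ∀ d ∈ K.A, Odd d ∨ d + 2 ^ (b d) = D + 1) :
    IsHomOn (univ : Finset (PVar K)) (D + 1) (FF' K c' a b) := by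
  have h0 : IsHomOn ({Sum.inl ()} : Finset (PVar K)) 1 (fun φ => φ (Sum.inl ())) := by
    have := IsHomOn.monomial (A := ({Sum.inl ()} : Finset (PVar K))) (s := {Sum.inl ()})
      (Finset.Subset.refl _)
    simpa using this
  have hL1 : IsHomOn ((univ : Finset K.L).map (eL K)) 1 (fun φ : PVar K → ZMod 2 =>
      ∑ l, φ (eL K l)) := hom_map (eL K) (IsHomOn.linear (univ : Finset K.L))
  have hT : IsHomOn ({Sum.inl ()} ∪ (univ : Finset K.L).map (eL K)) 1 (fun φ : PVar K → ZMod 2 =>
      φ (Sum.inl ()) + ∑ l, φ (eL K l)) :=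
    (h0.mono Finset.subset_union_left).add (hL1.mono Finset.subset_union_right)
  have hG := hom_map (eS K) K.homG
  have h1 := hT.mul hG (by
    rw [Finset.disjoint_left]
    intro x hx hx'
    simp only [Finset.mem_union, Finset.mem_singleton, Finset.mem_map, Finset.mem_univ,
      true_and] at hx hx'
    obtain ⟨s, rfl⟩ := hx'
    rcases hx with h | ⟨l, h⟩
    · simp [eS] at h
    · exact absurd (Sum.inr.inj h) (by simp))
  have h2 : ∀ d ∈ K.A, IsHomOn (univ : Finset (PVar K)) (D + 1) (fun φ : PVar K → ZMod 2 =>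
      ((φ (Sum.inl ()) * K.c d (fun l => φ (eL K l)) + c' d (fun l => φ (eL K l))) *
        esym (MM D (a d)) (2 ^ (a d)) (fun q => φ (eQ K q)) +
      (if Odd d then 0 else K.c d (fun l => φ (eL K l)) *
        esym (MM D (b d)) (2 ^ (b d)) (fun q => φ (eQ K q))))) := by
    intro d hd
    have g1 := hom_map (eL K) (K.homc d hd)
    have g2 := hom_map (eL K) (hc' d hd)
    have g3 := h0.mul g1 (by
      rw [Finset.disjoint_left]
      intro x hx hx'
      simp only [Finset.mem_singleton, Finset.mem_map, Finset.mem_univ, true_and] at hx hx'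
      obtain ⟨s, rfl⟩ := hx'
      simp [eL] at hx)
    have g4 : IsHomOn ({Sum.inl ()} ∪ (univ : Finset K.L).map (eL K)) (d + 1)
        (fun φ : PVar K → ZMod 2 =>
          φ (Sum.inl ()) * K.c d (fun l => φ (eL K l)) + c' d (fun l => φ (eL K l))) := by
      have g5 := g2.mono (B := {Sum.inl ()} ∪ (univ : Finset K.L).map (eL K))
        Finset.subset_union_right
      rw [Nat.add_comm 1 d] at g3
      exact g3.add g5
    have hdis : ∀ M : Finset (Fin (2 * (D + 1))),
        Disjoint ({Sum.inl ()} ∪ (univ : Finset K.L).map (eL K)) (M.map (eQ K)) := by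
      intro M
      rw [Finset.disjoint_left]
      intro x hx hx'
      simp only [Finset.mem_union, Finset.mem_singleton, Finset.mem_map, Finset.mem_univ,
        true_and] at hx hx'
      obtain ⟨s, _, rfl⟩ := hx'
      rcases hx with h | ⟨l, h⟩
      · simp [eQ] at h
      · exact absurd (Sum.inr.inj (Sum.inr.inj h)) (by simp)
    have g6 := (g4.mul (hom_esym_map (MM D (a d)) (eQ K) (2 ^ (a d))) (hdis _)).mono
      (Finset.subset_univ _)
    have g7 : d + 1 + 2 ^ (a d) = D + 1 := by have := ha d hd; omega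
    rw [g7] at g6
    have g8 : IsHomOn (univ : Finset (PVar K)) (D + 1) (fun φ : PVar K → ZMod 2 =>
        (if Odd d then 0 else K.c d (fun l => φ (eL K l)) *
        esym (MM D (b d)) (2 ^ (b d)) (fun q => φ (eQ K q)))) := by
      by_cases ho : Odd d
      · simp only [ho, if_true]
        exact IsHomOn.zero _ _
      · simp only [ho, if_false]
        have g9 := (g1.mul (hom_esym_map (MM D (b d)) (eQ K) (2 ^ (b d)))
          (Finset.disjoint_of_subset_left Finset.subset_union_right (hdis _))).mono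
          (Finset.subset_univ _)
        have g10 : d + 2 ^ (b d) = D + 1 := (hb d hd).resolve_left ho
        rw [g10] at g9
        exact g9
    exact g6.add g8
  have h3 := IsHomOn.sum K.A h2
  have h4 := h1.mono (Finset.subset_univ _)
  rw [Nat.add_comm 1 D] at h4
  exact h4.add h3

end PGadAux

open PGadAux in
theorem pgad {D : ℕ} (K : KeyData D) : ∃ F : (PVar K → ZMod 2) → ZMod 2,
    IsHomOn (univ : Finset (PVar K)) (D + 1) F ∧
    ∀ t0 tS tQ b z, F (pval K t0 tS tQ b z) = F (pval K t0 tS tQ b 0) +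
      z * (t0 + ∑ d ∈ K.A, K.c d (fun l => b l + t0 * ∑ s ∈ K.E l, tS s)) := by
  classical
  have hc : ∀ d, ∃ c' : (K.L → ZMod 2) → ZMod 2, d ∈ K.A →
      IsHomOn (univ : Finset K.L) (d + 1) c' ∧
      ∀ b, (∑ l, b l) * K.c d b = (d : ZMod 2) * K.c d b + c' b := by
    intro d
    by_cases hd : d ∈ K.A
    · obtain ⟨c', h1, h2⟩ := hom_mul_sum (K.homc d hd)
      exact ⟨c', fun _ => ⟨h1, h2⟩⟩
    · exact ⟨fun _ => 0, fun h => absurd h hd⟩
  choose c' hc' using hc
  have ha : ∀ d, ∃ a : ℕ, d ∈ K.A → d + 2 ^ a = D := by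
    intro d
    by_cases hd : d ∈ K.A
    · obtain ⟨a, h1⟩ := (K.legal d hd).1
      exact ⟨a, fun _ => h1⟩
    · exact ⟨0, fun h => absurd h hd⟩
  choose a ha using ha
  have hb : ∀ d, ∃ b : ℕ, d ∈ K.A → Odd d ∨ d + 2 ^ b = D + 1 := by
    intro d
    by_cases hd : d ∈ K.A
    · rcases (K.legal d hd).2 with h | ⟨b, h⟩
      · exact ⟨0, fun _ => Or.inl h⟩
      · exact ⟨b, fun _ => Or.inr h⟩
    · exact ⟨0, fun h => absurd h hd⟩
  choose b hb using hb
  refine ⟨FF' K c' a b, hom_FF' K c' a b (fun d hd => (hc' d hd).1) ha hb, ?_⟩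
  intro t0 tS tQ β z
  have h2 : ∀ w : ZMod 2, w + w = 0 := by decide
  -- the values at the point
  set σ : ZMod 2 := ∑ l, β l with hσ
  set u : K.S → ZMod 2 := fun s => tS s + (∑ l, if s ∈ K.cut l then β l else 0) with hu
  have hval : ∀ y : ZMod 2, FF' K c' a b (pval K t0 tS tQ β y) =
      t0 * K.G (fun s => u s + y) +
      ∑ d ∈ K.A, (((t0 + σ) * K.c d β + c' d β) *
        (esym (MM D (a d)) (2 ^ (a d)) tQ + y) +
      (if Odd d then 0 else K.c d β *
        (esym (MM D (b d)) (2 ^ (b d)) tQ + y))) := by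
    intro y
    have e1 : pval K t0 tS tQ β y (Sum.inl ()) = t0 + σ := rfl
    have e2 : (fun l => pval K t0 tS tQ β y (eL K l)) = β := rfl
    have e3 : (fun s => pval K t0 tS tQ β y (eS K s)) = (fun s => u s + y) := rfl
    have e4 : (fun q => pval K t0 tS tQ β y (eQ K q)) = (fun q => tQ q + y) := rfl
    have e5 : ∑ l, pval K t0 tS tQ β y (eL K l) = σ := rfl
    unfold FF'
    rw [e5, e1, e2, e3, e4]
    have e6 : t0 + σ + σ = t0 := by rw [add_assoc, h2, add_zero]
    rw [e6]
    congr 1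
    refine Finset.sum_congr rfl (fun d hd => ?_)
    have hp1 : 1 ≤ 2 ^ (a d) := Nat.one_le_two_pow
    have e7 : 2 ^ (a d) ≤ D + 1 := by have := ha d hd; omega
    rw [esym_selfdual _ _ (card_MM D (a d) e7)]
    by_cases ho : Odd d
    · simp only [ho, if_true]
    · have e8 : 2 ^ (b d) ≤ D + 1 := by
        have := (hb d hd).resolve_left ho
        omega
      rw [esym_selfdual _ _ (card_MM D (b d) e8)]
  rw [hval z, hval 0]
  -- the derivative
  have hder : K.G (fun s => u s + z) = K.G (fun s => u s + 0) +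
      z * (1 + ∑ d ∈ K.A, K.c d (fun l => β l + ∑ s ∈ K.E l, tS s)) := by
    by_cases hz : z = 0
    · subst hz; simp
    · have hz1 := zmod2_eq_one hz
      subst hz1
      have k1 := K.key u
      have k2 : (fun l => ∑ s ∈ K.E l, u s) = (fun l => β l + ∑ s ∈ K.E l, tS s) := by
        funext l
        simp only [hu]
        rw [Finset.sum_add_distrib, Finset.sum_comm, add_comm]
        congr 1
        have k3 : ∀ l' ∈ (univ : Finset K.L), ∑ s ∈ K.E l, (if s ∈ K.cut l' then β l' else 0) =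
            (if l = l' then β l' else 0) := by
          intro l' _
          rw [← Finset.sum_filter, Finset.sum_const, Finset.filter_mem_eq_inter, nsmul_eq_mul,
            K.dual l l']
          split_ifs <;> simp
        rw [Finset.sum_congr rfl k3, Finset.sum_ite_eq]
        simp
      rw [k2] at k1
      have k4 : (fun s => u s + 0) = u := by funext s; simp
      rw [k4, one_mul]
      linear_combination k1 - h2 (K.G u)
  rw [hder]
  have hsum : ∀ y : ZMod 2, ∑ d ∈ K.A, (((t0 + σ) * K.c d β + c' d β) *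
        (esym (MM D (a d)) (2 ^ (a d)) tQ + y) +
      (if Odd d then 0 else K.c d β *
        (esym (MM D (b d)) (2 ^ (b d)) tQ + y))) =
      ∑ d ∈ K.A, (((t0 + σ) * K.c d β + c' d β) *
        (esym (MM D (a d)) (2 ^ (a d)) tQ + 0) +
      (if Odd d then 0 else K.c d β *
        (esym (MM D (b d)) (2 ^ (b d)) tQ + 0))) + y * ∑ d ∈ K.A, (t0 + 1) * K.c d β := by
    intro y
    rw [Finset.mul_sum, ← Finset.sum_add_distrib]
    refine Finset.sum_congr rfl (fun d hd => ?_)
    have m1 := (hc' d hd).2 β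
    have m1' : σ * K.c d β = (d : ZMod 2) * K.c d β + c' d β := m1
    by_cases ho : Odd d
    · have m2 : (d : ZMod 2) = 1 := by
        obtain ⟨m, hm⟩ := ho
        rw [hm]; push_cast
        have : (2 : ZMod 2) = 0 := by decide
        rw [this]; ring
      rw [m2] at m1'
      simp only [ho, if_true]
      linear_combination y * m1' + y * h2 (c' d β)
    · have m2 : (d : ZMod 2) = 0 := by
        have hev : Even d := Nat.not_odd_iff_even.1 ho
        obtain ⟨m, hm⟩ := hev
        rw [hm]; push_cast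
        exact h2 _
      rw [m2] at m1'
      simp only [ho, if_false]
      linear_combination y * m1' + y * h2 (c' d β)
  rw [hsum z]
  rw [← Finset.mul_sum]
  by_cases ht : t0 = 0
  · subst ht
    simp only [zero_mul, zero_add, add_zero, one_mul]
  · have ht1 := zmod2_eq_one ht
    subst ht1
    have h11 : (1 : ZMod 2) + 1 = 0 := by decide
    simp only [one_mul, h11, zero_mul, mul_zero, add_zero]
    ring

end Pool.Agent.HBD
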