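import Mathlib
import Pool.Agent.Lib.HBD.PGad

set_option autoImplicit false

/-!
# Module HBD.Step : the doubling template

Given `K : KeyData D`, a system `X : SysData k'` with `2 k' = D + 1`. Template of degree `D + 1`:

Labels `Λ = Unit ⊕ (S ⊕ (Q ⊕ ((L × κ × Bool) ⊕ ((L × ι × Fin 3) ⊕ (L × ι × κ × Fin 3)))))`,
`Q = Fin (2 (D+1))`, `lam0` the element of `Unit`; data `E = L × κ`; outputs `P = Option (L × ι)`
(`card P = card L * card κ + 1 = card E + 1` since `card ι = card κ`).
Types: `TE (l, x0) = {lam0} ∪ cut l`, `TE (l, x) = {(l,x,true), (l,x,false)}` for `x ≠ x0`;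
`TP none = S ∪ Q`, `TP (some (l, j)) = {(l,j,r)} ∪ {(l,j,x,r)}` (all `r`, all `x`).
Functions of `(t, b)` :
`B (l, x0) = b (l,x0) + t lam0 * ∑_{s ∈ K.E l} t s`, `B (l,x) = b (l,x) + t (l,x,true) *
t (l,x,false)` for `x ≠ x0`; `Y l x = B (l,x) + ∑_j D x j * (e2 (t (l,j,x,·)) + e2 (t (l,j,·)))`
with `e2 = esym univ 2` on `Fin 3` (so `Y l x0 = B (l, x0)` as `D x0 j = 0`);
`pi (some (l, j)) = X.pi (Y l) j`, `pi none = t lam0 + ∑_{d ∈ A} c_d (l ↦ B (l, x0))`.

`dec1` : equal outputs give equal `Y l` (`X.bij.injective`), so equal `B (l, x0)`, so equal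
`t lam0`. `dec2` : same `t`: equal `Y`, so equal `B`, so equal `b`.

Homogeneity: the function is `F_P + ∑_l F_l`.
* `F_l z = FF X.D X.pi X.g (a', p')` with `p' j = e2 (φ (l,j,·))` and
  `a' x = ∑_j D x j * e2 (φ (l,j,x,·)) + (B (l,x) as a quadratic form)`; homogeneous of degree
  `k' * 2` by `hom_comp X.hom 2`. The supports are disjoint: for `inr j` : the three labels
  `(l,j,r)`; for `inl x` : the labels `(l,j,x,r)` and, for `x ≠ x0`, the labels `(l,x,true/false)`
  and the data coordinate `(l,x)` (there `t = φ + b`, and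
  `b + (φ + b)(φ' + b) = φ φ' + b φ + b φ'` is a quadratic form), for `x = x0` the labels `lam0`,
  `s ∈ E l` and all data coordinates `(l', x0)` : with `t = φ0 + ∑_l' b l'`,
  `η = ∑_{s ∈ E l} φ s`, `∑_{s ∈ E l} t s = η + b l` (`K.dual`, `K.even`), and
  `b l + (φ0 + ∑_l' b l')(η + b l) = φ0 η + φ0 b l + b l η + ∑_{l' ≠ l} b l' (η + b l)`.
  In terms of `t` : `φ (l,j,r) = t (l,j,r) + z (some (l,j))` etc., so by `esym_selfdual`
  (`e = 1`, three variables) `e2 (φ (l,j,·)) = e2 (t (l,j,·)) + z (some (l,j))` etc.; hence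
  `yv D (a',p') = Y l` and `F_l = ∑_j (z (some (l,j)) + e2 (t (l,j,·))) * X.pi (Y l) j + X.g (Y l)`.
* `F_P` = the form `F` of `pgad K` at `φ0, φ s, φ q, b (l, x0)` (homogeneous of degree `D + 1`,
  `hom_comp` with `d = 1`); here `φ0 = t lam0 + ∑_l b (l,x0)`,
  `φ s = t s + z none + ∑_{l : s ∈ cut l} b (l,x0)`, `φ q = t q + z none`: this is
  `pval K (t lam0) t_S t_Q b (z none)`.
So `g (t, b) = F (pval K .. 0) + ∑_l (∑_j e2 (t (l,j,·)) * X.pi (Y l) j + X.g (Y l))`.
-/

namespace Pool.Agent.HBD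

open Finset Pool.Agent.P47443c

namespace StepAux

/-- Labels. -/
inductive Lab (S Q L κ ι : Type) : Type
  | lam : Lab S Q L κ ι
  | s : S → Lab S Q L κ ι
  | q : Q → Lab S Q L κ ι
  | ext : L → κ → Bool → Lab S Q L κ ι
  | tj : L → ι → Fin 3 → Lab S Q L κ ι
  | tjx : L → ι → κ → Fin 3 → Lab S Q L κ ι
  deriving DecidableEq, Fintype

theorem z2_add_self (z : ZMod 2) : z + z = 0 := by revert z; decide

theorem z2_mul_self (z : ZMod 2) : z * z = z := by revert z; decide

/-- The self-dual quadratic form in three variables. -/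
def e2 (v : Fin 3 → ZMod 2) : ZMod 2 := esym (univ : Finset (Fin 3)) (2 ^ 1) v

theorem e2_add (v : Fin 3 → ZMod 2) (t : ZMod 2) : e2 (fun r => v r + t) = e2 v + t :=
  esym_selfdual univ 1 (by simp) v t

section

variable {k' D : ℕ} (K : KeyData D) (X : SysData k')

/-- The labels of the template. -/
abbrev LL : Type := Lab K.S (Fin (2 * (D + 1))) K.L X.κ X.ι

/-- The data coordinates. -/
abbrev EE : Type := K.L × X.κ

/-- The output coordinates. -/
abbrev PP : Type := Option (K.L × X.ι)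

/-- The local coordinates. -/
abbrev Loc : Type := LL K X ⊕ (EE K X ⊕ PP K X)

/-- Membership of labels in the types of the data coordinates. -/
def mE : EE K X → LL K X → Bool
  | (_, x), Lab.lam => decide (x = X.x0)
  | (l, x), Lab.s a => decide (x = X.x0 ∧ a ∈ K.cut l)
  | (l, x), Lab.ext l' x' _ => decide (x ≠ X.x0 ∧ l' = l ∧ x' = x)
  | _, _ => false

/-- Membership of labels in the types of the output coordinates. -/
def mP : PP K X → LL K X → Bool
  | none, Lab.s _ => true
  | none, Lab.q _ => true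
  | some (l, j), Lab.tj l' j' _ => decide (l' = l ∧ j' = j)
  | some (l, j), Lab.tjx l' j' _ _ => decide (l' = l ∧ j' = j)
  | _, _ => false

/-- Types of the data coordinates. -/
def TE (e : EE K X) : Finset (LL K X) := univ.filter (fun c => mE K X e c = true)

/-- Types of the output coordinates. -/
def TP (p : PP K X) : Finset (LL K X) := univ.filter (fun c => mP K X p c = true)

theorem mem_TE (e : EE K X) (c : LL K X) : c ∈ TE K X e ↔ mE K X e c = true := by
  simp [TE]

theorem mem_TP (p : PP K X) (c : LL K X) : c ∈ TP K X p ↔ mP K X p c = true := by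
  simp [TP]

/-- The local forms. -/
abbrev tt (z : Loc K X → ZMod 2) : LL K X → ZMod 2 := tloc (TE K X) (TP K X) z

theorem tt_lam (z : Loc K X → ZMod 2) :
    tt K X z Lab.lam = z (Sum.inl Lab.lam) + ∑ l, z (Sum.inr (Sum.inl (l, X.x0))) := by
  unfold tt tloc
  simp only [mem_TE, mem_TP]
  have h1 : ∑ p : PP K X, (if mP K X p Lab.lam = true then z (Sum.inr (Sum.inr p)) else 0) = 0 := by
    apply Finset.sum_eq_zero
    intro p _
    rcases p with _ | ⟨l, j⟩ <;> simp [mP]
  rw [h1, add_zero, Fintype.sum_prod_type]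
  congr 1
  refine Finset.sum_congr rfl (fun l _ => ?_)
  simp [mE]

theorem tt_s (z : Loc K X → ZMod 2) (a : K.S) :
    tt K X z (Lab.s a) = z (Sum.inl (Lab.s a)) +
      (∑ l, if a ∈ K.cut l then z (Sum.inr (Sum.inl (l, X.x0))) else 0) +
      z (Sum.inr (Sum.inr none)) := by
  unfold tt tloc
  simp only [mem_TE, mem_TP]
  have h1 : ∑ p : PP K X, (if mP K X p (Lab.s a) = true then z (Sum.inr (Sum.inr p)) else 0) =
      z (Sum.inr (Sum.inr none)) := by
    rw [Fintype.sum_option]
    simp [mP]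
  rw [h1, Fintype.sum_prod_type]
  congr 2
  refine Finset.sum_congr rfl (fun l _ => ?_)
  by_cases h : a ∈ K.cut l <;> simp [mE, h]

theorem tt_q (z : Loc K X → ZMod 2) (a : Fin (2 * (D + 1))) :
    tt K X z (Lab.q a) = z (Sum.inl (Lab.q a)) + z (Sum.inr (Sum.inr none)) := by
  unfold tt tloc
  simp only [mem_TE, mem_TP]
  have h1 : ∑ p : PP K X, (if mP K X p (Lab.q a) = true then z (Sum.inr (Sum.inr p)) else 0) =
      z (Sum.inr (Sum.inr none)) := by
    rw [Fintype.sum_option]
    simp [mP]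
  have h2 : ∑ e : EE K X, (if mE K X e (Lab.q a) = true then z (Sum.inr (Sum.inl e)) else 0) = 0 := by
    apply Finset.sum_eq_zero
    intro e _
    simp [mE]
  rw [h1, h2, add_zero]

theorem tt_ext (z : Loc K X → ZMod 2) (l : K.L) (x : X.κ) (β : Bool) (hx : x ≠ X.x0) :
    tt K X z (Lab.ext l x β) = z (Sum.inl (Lab.ext l x β)) + z (Sum.inr (Sum.inl (l, x))) := by
  unfold tt tloc
  simp only [mem_TE, mem_TP]
  have h1 : ∑ p : PP K X, (if mP K X p (Lab.ext l x β) = true then z (Sum.inr (Sum.inr p)) else 0)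
      = 0 := by
    apply Finset.sum_eq_zero
    intro p _
    rcases p with _ | ⟨l, j⟩ <;> simp [mP]
  have h2 : ∑ e : EE K X, (if mE K X e (Lab.ext l x β) = true then z (Sum.inr (Sum.inl e)) else 0)
      = z (Sum.inr (Sum.inl (l, x))) := by
    rw [Finset.sum_eq_single (l, x)]
    · simp [mE, hx]
    · rintro ⟨l', x'⟩ _ hne
      have : ¬ (x' ≠ X.x0 ∧ l = l' ∧ x = x') := by
        rintro ⟨_, rfl, rfl⟩
        exact hne rfl
      simp only [mE, this, decide_false]
      simp
    · intro h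
      exact absurd (Finset.mem_univ _) h
  rw [h1, h2, add_zero]

theorem tt_tj (z : Loc K X → ZMod 2) (l : K.L) (j : X.ι) (r : Fin 3) :
    tt K X z (Lab.tj l j r) = z (Sum.inl (Lab.tj l j r)) + z (Sum.inr (Sum.inr (some (l, j)))) := by
  unfold tt tloc
  simp only [mem_TE, mem_TP]
  have h1 : ∑ p : PP K X, (if mP K X p (Lab.tj l j r) = true then z (Sum.inr (Sum.inr p)) else 0)
      = z (Sum.inr (Sum.inr (some (l, j)))) := by
    rw [Finset.sum_eq_single (some (l, j))]
    · simp [mP]
    · intro p _ hne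
      rcases p with _ | ⟨l', j'⟩
      · simp [mP]
      · have : ¬ (l = l' ∧ j = j') := by
          rintro ⟨rfl, rfl⟩
          exact hne rfl
        simp only [mP, this, decide_false]
        simp
    · intro h
      exact absurd (Finset.mem_univ _) h
  have h2 : ∑ e : EE K X, (if mE K X e (Lab.tj l j r) = true then z (Sum.inr (Sum.inl e)) else 0)
      = 0 := by
    apply Finset.sum_eq_zero
    intro e _
    simp [mE]
  rw [h1, h2, add_zero]

theorem tt_tjx (z : Loc K X → ZMod 2) (l : K.L) (j : X.ι) (x : X.κ) (r : Fin 3) :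
    tt K X z (Lab.tjx l j x r) =
      z (Sum.inl (Lab.tjx l j x r)) + z (Sum.inr (Sum.inr (some (l, j)))) := by
  unfold tt tloc
  simp only [mem_TE, mem_TP]
  have h1 : ∑ p : PP K X, (if mP K X p (Lab.tjx l j x r) = true then z (Sum.inr (Sum.inr p))
      else 0) = z (Sum.inr (Sum.inr (some (l, j)))) := by
    rw [Finset.sum_eq_single (some (l, j))]
    · simp [mP]
    · intro p _ hne
      rcases p with _ | ⟨l', j'⟩
      · simp [mP]
      · have : ¬ (l = l' ∧ j = j') := by
          rintro ⟨rfl, rfl⟩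
          exact hne rfl
        simp only [mP, this, decide_false]
        simp
    · intro h
      exact absurd (Finset.mem_univ _) h
  have h2 : ∑ e : EE K X, (if mE K X e (Lab.tjx l j x r) = true then z (Sum.inr (Sum.inl e))
      else 0) = 0 := by
    apply Finset.sum_eq_zero
    intro e _
    simp [mE]
  rw [h1, h2, add_zero]

/-- The quadratics. -/
def BB (t : LL K X → ZMod 2) (b : EE K X → ZMod 2) (l : K.L) (x : X.κ) : ZMod 2 :=
  if x = X.x0 then b (l, x) + t Lab.lam * ∑ s ∈ K.E l, t (Lab.s s)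
  else b (l, x) + t (Lab.ext l x true) * t (Lab.ext l x false)

/-- The masked quadratics. -/
def YY (t : LL K X → ZMod 2) (b : EE K X → ZMod 2) (l : K.L) (x : X.κ) : ZMod 2 :=
  BB K X t b l x + ∑ j, X.D x j *
    (e2 (fun r => t (Lab.tjx l j x r)) + e2 (fun r => t (Lab.tj l j r)))

theorem YY_x0 (t : LL K X → ZMod 2) (b : EE K X → ZMod 2) (l : K.L) :
    YY K X t b l X.x0 = BB K X t b l X.x0 := by
  unfold YY
  rw [Finset.sum_eq_zero (fun j _ => by rw [X.free j, zero_mul]), add_zero]

/-- The outputs. -/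
def pi : PP K X → (LL K X → ZMod 2) → (EE K X → ZMod 2) → ZMod 2
  | none, t, b => t Lab.lam + ∑ d ∈ K.A, K.c d (fun l => BB K X t b l X.x0)
  | some (l, j), t, b => X.pi (YY K X t b l) j

theorem YY_eq_of_pi (t t' : LL K X → ZMod 2) (b b' : EE K X → ZMod 2)
    (h : ∀ p, pi K X p t b = pi K X p t' b') (l : K.L) : YY K X t b l = YY K X t' b' l := by
  apply X.bij.1
  funext j
  exact h (some (l, j))

theorem dec1 (t : LL K X → ZMod 2) (b : EE K X → ZMod 2) (t' : LL K X → ZMod 2)
    (b' : EE K X → ZMod 2) (h : ∀ p, pi K X p t b = pi K X p t' b') :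
    t Lab.lam = t' Lab.lam := by
  have h1 : (fun l => BB K X t b l X.x0) = (fun l => BB K X t' b' l X.x0) := by
    funext l
    rw [← YY_x0, ← YY_x0, YY_eq_of_pi K X t t' b b' h l]
  have h2 := h none
  simp only [pi] at h2
  rw [h1] at h2
  exact add_right_cancel h2

theorem dec2 (t : LL K X → ZMod 2) (b b' : EE K X → ZMod 2)
    (h : ∀ p, pi K X p t b = pi K X p t b') : b = b' := by
  funext e
  obtain ⟨l, x⟩ := e
  have h1 := congrFun (YY_eq_of_pi K X t t b b' h l) x
  unfold YY at h1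
  have h2 := add_right_cancel h1
  unfold BB at h2
  split_ifs at h2 with hx
  · exact add_right_cancel h2
  · exact add_right_cancel h2

/-! ### The group gadget -/

/-- The quadratic form of `BB` in the local variables. -/
def Bq (l : K.L) (x : X.κ) (z : Loc K X → ZMod 2) : ZMod 2 :=
  if x = X.x0 then
    (∑ s ∈ K.E l, z (Sum.inl Lab.lam) * z (Sum.inl (Lab.s s))) +
    z (Sum.inl Lab.lam) * z (Sum.inr (Sum.inl (l, X.x0))) +
    (∑ l', ∑ s ∈ K.E l, z (Sum.inr (Sum.inl (l', X.x0))) * z (Sum.inl (Lab.s s))) +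
    ∑ l' ∈ univ.erase l, z (Sum.inr (Sum.inl (l', X.x0))) * z (Sum.inr (Sum.inl (l, X.x0)))
  else
    z (Sum.inl (Lab.ext l x true)) * z (Sum.inl (Lab.ext l x false)) +
    z (Sum.inl (Lab.ext l x true)) * z (Sum.inr (Sum.inl (l, x))) +
    z (Sum.inl (Lab.ext l x false)) * z (Sum.inr (Sum.inl (l, x)))

theorem sum_cut (l : K.L) (b : K.L → ZMod 2) :
    ∑ s ∈ K.E l, (∑ l', if s ∈ K.cut l' then b l' else 0) = b l := by
  rw [Finset.sum_comm]
  have h1 : ∀ l', ∑ s ∈ K.E l, (if s ∈ K.cut l' then b l' else 0) =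
      (if l = l' then 1 else 0) * b l' := by
    intro l'
    rw [← Finset.sum_filter, Finset.sum_const, nsmul_eq_mul, ← K.dual l l']
    have : (K.E l).filter (fun s => s ∈ K.cut l') = K.E l ∩ K.cut l' := by
      ext s; simp
    rw [this]
  rw [Finset.sum_congr rfl (fun l' _ => h1 l')]
  simp

theorem sum_const_even (l : K.L) (z : ZMod 2) : ∑ _s ∈ K.E l, z = 0 := by
  rw [Finset.sum_const, nsmul_eq_mul]
  have : (((K.E l).card : ℕ) : ZMod 2) = 0 := by
    rw [ZMod.natCast_eq_zero_iff]
    exact (K.even l).two_dvd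
  rw [this, zero_mul]

theorem BB_eq (z : Loc K X → ZMod 2) (l : K.L) (x : X.κ) :
    BB K X (tt K X z) (bloc z) l x = Bq K X l x z := by
  unfold BB Bq
  split_ifs with hx
  · subst hx
    have h1 : ∑ s ∈ K.E l, tt K X z (Lab.s s) =
        ∑ s ∈ K.E l, z (Sum.inl (Lab.s s)) + z (Sum.inr (Sum.inl (l, X.x0))) := by
      rw [Finset.sum_congr rfl (fun s _ => tt_s K X z s), Finset.sum_add_distrib,
        Finset.sum_add_distrib, sum_const_even, add_zero,
        sum_cut K l (fun l' => z (Sum.inr (Sum.inl (l', X.x0))))]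
    rw [h1, tt_lam]
    have h2 := Finset.add_sum_erase (univ : Finset K.L)
      (fun l' => z (Sum.inr (Sum.inl (l', X.x0)))) (Finset.mem_univ l)
    simp only [bloc]
    rw [← Finset.mul_sum, Finset.sum_congr rfl (fun l' _ => (Finset.mul_sum _ _ _).symm),
      ← Finset.sum_mul, ← Finset.sum_mul, ← h2]
    generalize ∑ s ∈ K.E l, z (Sum.inl (Lab.s s)) = η
    generalize ∑ l' ∈ univ.erase l, z (Sum.inr (Sum.inl (l', X.x0))) = σ
    generalize z (Sum.inr (Sum.inl (l, X.x0))) = β
    generalize z (Sum.inl Lab.lam) = φ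
    revert η σ β φ
    decide
  · rw [tt_ext K X z l x true hx, tt_ext K X z l x false hx]
    simp only [bloc]
    generalize z (Sum.inl (Lab.ext l x true)) = a
    generalize z (Sum.inl (Lab.ext l x false)) = b
    generalize z (Sum.inr (Sum.inl (l, x))) = c
    revert a b c
    decide

/-- The owner of a local coordinate. -/
def own : Loc K X → Option (X.κ ⊕ X.ι)
  | Sum.inl Lab.lam => some (Sum.inl X.x0)
  | Sum.inl (Lab.s _) => some (Sum.inl X.x0)
  | Sum.inl (Lab.q _) => none
  | Sum.inl (Lab.ext _ x _) => some (Sum.inl x)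
  | Sum.inl (Lab.tj _ j _) => some (Sum.inr j)
  | Sum.inl (Lab.tjx _ _ x _) => some (Sum.inl x)
  | Sum.inr (Sum.inl (_, x)) => some (Sum.inl x)
  | Sum.inr (Sum.inr _) => none

/-- The support of the form substituted for the coordinate `c`. -/
def CC (c : X.κ ⊕ X.ι) : Finset (Loc K X) := univ.filter (fun v => own K X v = some c)

theorem mem_CC (c : X.κ ⊕ X.ι) (v : Loc K X) : v ∈ CC K X c ↔ own K X v = some c := by
  simp [CC]

theorem CC_disjoint (c c' : X.κ ⊕ X.ι) (h : c ≠ c') : Disjoint (CC K X c) (CC K X c') := by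
  rw [Finset.disjoint_left]
  intro v hv hv'
  rw [mem_CC] at hv hv'
  rw [hv] at hv'
  exact h (Option.some.inj hv')

/-- The quadratic forms substituted in the system `X`. -/
def qq (l : K.L) : X.κ ⊕ X.ι → (Loc K X → ZMod 2) → ZMod 2
  | Sum.inl x, z => ∑ j, X.D x j * e2 (fun r => z (Sum.inl (Lab.tjx l j x r))) + Bq K X l x z
  | Sum.inr j, z => e2 (fun r => z (Sum.inl (Lab.tj l j r)))

theorem hom_cast {ι : Type} [DecidableEq ι] {A : Finset ι} {k l : ℕ}
    {F : (ι → ZMod 2) → ZMod 2} (h : IsHomOn A k F) (e : k = l) : IsHomOn A l F := by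
  subst e
  exact h

theorem hom_pair {ι : Type} [DecidableEq ι] (A : Finset ι) (a b : ι) (hab : a ≠ b) (ha : a ∈ A)
    (hb : b ∈ A) : IsHomOn A 2 (fun z => z a * z b) := by
  have h := IsHomOn.monomial (A := A) (s := {a, b}) (by
    intro c hc
    rw [Finset.mem_insert, Finset.mem_singleton] at hc
    rcases hc with rfl | rfl <;> assumption)
  rw [Finset.card_pair hab] at h
  exact h.congr (fun z => by rw [Finset.prod_pair hab])

theorem hom_smul {ι : Type} [DecidableEq ι] {A : Finset ι} {k : ℕ} (a : ZMod 2)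
    {F : (ι → ZMod 2) → ZMod 2} (h : IsHomOn A k F) : IsHomOn A k (fun z => a * F z) := by
  have : a = 0 ∨ a = 1 := by revert a; decide
  rcases this with rfl | rfl
  · exact (IsHomOn.zero A k).congr (fun z => by ring)
  · exact h.congr (fun z => by ring)

theorem e2_hom {ι : Type} [DecidableEq ι] (A : Finset ι) (e : Fin 3 → ι)
    (he : Function.Injective e) (hA : ∀ r, e r ∈ A) : IsHomOn A 2 (fun z => e2 (fun r => z (e r))) := by
  have h := hom_esym_map (univ : Finset (Fin 3)) ⟨e, he⟩ (2 ^ 1)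
  refine (h.mono ?_)
  intro c hc
  rw [Finset.mem_map] at hc
  obtain ⟨r, _, rfl⟩ := hc
  exact hA r

theorem qq_hom (l : K.L) (c : X.κ ⊕ X.ι) : IsHomOn (CC K X c) 2 (qq K X l c) := by
  rcases c with x | j
  · refine IsHomOn.add (IsHomOn.sum _ (fun j _ => hom_smul _ ?_)) ?_
    · refine e2_hom _ _ (fun r r' h => ?_) (fun r => ?_)
      · simpa using h
      · rw [mem_CC]; rfl
    · unfold Bq
      split_ifs with hx
      · refine IsHomOn.add (IsHomOn.add (IsHomOn.add (IsHomOn.sum _ (fun s _ => ?_)) ?_)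
          (IsHomOn.sum _ (fun l' _ => IsHomOn.sum _ (fun s _ => ?_)))) (IsHomOn.sum _ (fun l' hl' => ?_))
        · exact hom_pair _ _ _ (by simp) (by rw [mem_CC, hx]; rfl) (by rw [mem_CC, hx]; rfl)
        · exact hom_pair _ _ _ (by simp) (by rw [mem_CC, hx]; rfl) (by rw [mem_CC, hx]; rfl)
        · exact hom_pair _ _ _ (by simp) (by rw [mem_CC, hx]; rfl) (by rw [mem_CC, hx]; rfl)
        · have hne : l' ≠ l := (Finset.mem_erase.1 hl').1
          exact hom_pair _ _ _ (by simpa using hne) (by rw [mem_CC, hx]; rfl)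
            (by rw [mem_CC, hx]; rfl)
      · refine IsHomOn.add (IsHomOn.add ?_ ?_) ?_
        · exact hom_pair _ _ _ (by simp) (by rw [mem_CC]; rfl) (by rw [mem_CC]; rfl)
        · exact hom_pair _ _ _ (by simp) (by rw [mem_CC]; rfl) (by rw [mem_CC]; rfl)
        · exact hom_pair _ _ _ (by simp) (by rw [mem_CC]; rfl) (by rw [mem_CC]; rfl)
  · refine e2_hom _ _ (fun r r' h => ?_) (fun r => ?_)
    · simpa using h
    · rw [mem_CC]; rfl

/-- The group gadget. -/
def Fg (l : K.L) (z : Loc K X → ZMod 2) : ZMod 2 := FF X.D X.pi X.g (fun c => qq K X l c z)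

theorem Fg_hom (l : K.L) : IsHomOn (univ : Finset (Loc K X)) (k' * 2) (Fg K X l) := by
  have h := hom_comp X.hom 2 (CC K X) (qq K X l) (fun c _ => qq_hom K X l c)
    (fun c _ c' _ hne => CC_disjoint K X c c' hne)
  exact h.mono (Finset.subset_univ _)

theorem yv_qq (l : K.L) (z : Loc K X → ZMod 2) :
    yv X.D (fun c => qq K X l c z) = YY K X (tt K X z) (bloc z) l := by
  funext x
  unfold yv YY
  rw [BB_eq]
  simp only [qq]
  have h1 : ∀ j, e2 (fun r => tt K X z (Lab.tjx l j x r)) =
      e2 (fun r => z (Sum.inl (Lab.tjx l j x r))) + z (Sum.inr (Sum.inr (some (l, j)))) := by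
    intro j
    rw [← e2_add]
    congr 1
    funext r
    rw [tt_tjx]
  have h2 : ∀ j, e2 (fun r => tt K X z (Lab.tj l j r)) =
      e2 (fun r => z (Sum.inl (Lab.tj l j r))) + z (Sum.inr (Sum.inr (some (l, j)))) := by
    intro j
    rw [← e2_add]
    congr 1
    funext r
    rw [tt_tj]
  have h3 : ∀ j, X.D x j * (e2 (fun r => tt K X z (Lab.tjx l j x r)) +
      e2 (fun r => tt K X z (Lab.tj l j r))) =
      X.D x j * e2 (fun r => z (Sum.inl (Lab.tjx l j x r))) +
      X.D x j * e2 (fun r => z (Sum.inl (Lab.tj l j r))) := by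
    intro j
    rw [h1, h2]
    have := z2_add_self (X.D x j * z (Sum.inr (Sum.inr (some (l, j)))))
    linear_combination this
  rw [Finset.sum_congr rfl (fun j _ => h3 j), Finset.sum_add_distrib]
  ring

theorem Fg_eq (l : K.L) (z : Loc K X → ZMod 2) :
    Fg K X l z = ∑ j, z (Sum.inr (Sum.inr (some (l, j)))) * pi K X (some (l, j)) (tt K X z) (bloc z) +
      (∑ j, e2 (fun r => tt K X z (Lab.tj l j r)) * X.pi (YY K X (tt K X z) (bloc z) l) j +
        X.g (YY K X (tt K X z) (bloc z) l)) := by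
  unfold Fg FF
  rw [yv_qq]
  have h2 : ∀ j, e2 (fun r => tt K X z (Lab.tj l j r)) =
      e2 (fun r => z (Sum.inl (Lab.tj l j r))) + z (Sum.inr (Sum.inr (some (l, j)))) := by
    intro j
    rw [← e2_add]
    congr 1
    funext r
    rw [tt_tj]
  simp only [qq, pi]
  rw [← add_assoc, ← Finset.sum_add_distrib]
  congr 1
  refine Finset.sum_congr rfl (fun j _ => ?_)
  rw [h2]
  have := z2_add_self (z (Sum.inr (Sum.inr (some (l, j)))) * X.pi (YY K X (tt K X z) (bloc z) l) j)
  linear_combination (-1 : ZMod 2) * this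

/-! ### The gadget `none` -/

/-- The place of the variables of `pgad`. -/
def emb : PVar K → Loc K X
  | Sum.inl _ => Sum.inl Lab.lam
  | Sum.inr (Sum.inl s) => Sum.inl (Lab.s s)
  | Sum.inr (Sum.inr (Sum.inl q)) => Sum.inl (Lab.q q)
  | Sum.inr (Sum.inr (Sum.inr l)) => Sum.inr (Sum.inl (l, X.x0))

theorem emb_inj : Function.Injective (emb K X) := by
  intro v w h
  rcases v with _ | v | v | v <;> rcases w with _ | w | w | w <;> simp_all [emb]

theorem pval_eq (z : Loc K X → ZMod 2) :
    pval K (tt K X z Lab.lam) (fun s => tt K X z (Lab.s s)) (fun q => tt K X z (Lab.q q))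
      (fun l => bloc z (l, X.x0)) (z (Sum.inr (Sum.inr none))) = fun v => z (emb K X v) := by
  funext v
  rcases v with v | v | v | v
  · simp only [pval, emb, bloc]
    rw [tt_lam, add_assoc, z2_add_self, add_zero]
  · simp only [pval, emb, bloc]
    rw [tt_s]
    have h1 := z2_add_self (∑ l, if v ∈ K.cut l then z (Sum.inr (Sum.inl (l, X.x0))) else 0)
    have h2 := z2_add_self (z (Sum.inr (Sum.inr none)))
    linear_combination h1 + h2
  · simp only [pval, emb]
    rw [tt_q, add_assoc, z2_add_self, add_zero]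
  · rfl

theorem Fn_hom {F : (PVar K → ZMod 2) → ZMod 2}
    (hF : IsHomOn (univ : Finset (PVar K)) (D + 1) F) :
    IsHomOn (univ : Finset (Loc K X)) (D + 1) (fun z => F (fun v => z (emb K X v))) := by
  have h := hom_comp hF 1 (fun v => ({emb K X v} : Finset (Loc K X)))
    (fun v z => z (emb K X v)) (fun v _ => by
      have := IsHomOn.monomial (A := ({emb K X v} : Finset (Loc K X))) (s := {emb K X v})
        (Finset.Subset.refl _)
      simpa using this)
    (fun v _ w _ hne => by
      rw [Finset.disjoint_singleton]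
      exact fun h => hne (emb_inj K X h))
  rw [mul_one] at h
  exact h.mono (Finset.subset_univ _)

end

end StepAux

open StepAux

theorem step_tmpl {k' D : ℕ} (hk : 2 * k' = D + 1) (K : KeyData D) (X : SysData k') :
    ∃ T : Tmpl (D + 1), Fintype.card T.P = Fintype.card K.L * Fintype.card X.κ + 1 := by
  obtain ⟨F, hF, hF2⟩ := pgad K
  have hne : Nonempty (K.L × X.κ) := by
    obtain ⟨l⟩ := K.neL
    exact ⟨(l, X.x0)⟩
  refine ⟨{
    Λ := LL K X
    E := EE K X
    P := PP K X
    lam0 := Lab.lam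
    TE := TE K X
    TP := TP K X
    pi := StepAux.pi K X
    g := fun t b => F (pval K (t Lab.lam) (fun s => t (Lab.s s)) (fun q => t (Lab.q q))
        (fun l => b (l, X.x0)) 0) +
      ∑ l, (∑ j, e2 (fun r => t (Lab.tj l j r)) * X.pi (YY K X t b l) j + X.g (YY K X t b l))
    card_eq := by
      rw [Fintype.card_option, Fintype.card_prod, Fintype.card_prod, X.card_eq]
    neE := hne
    hom := ?_
    dec1 := dec1 K X
    dec2 := dec2 K X }, ?_⟩
  · have h1 := Fn_hom K X hF
    have h2 : IsHomOn (univ : Finset (Loc K X)) (D + 1) (fun z => ∑ l, Fg K X l z) := by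
      exact IsHomOn.sum _ (fun l _ => hom_cast (Fg_hom K X l) (by omega))
    refine (h1.add h2).congr (fun z => ?_)
    have h3 := hF2 (tt K X z Lab.lam) (fun s => tt K X z (Lab.s s)) (fun q => tt K X z (Lab.q q))
      (fun l => bloc z (l, X.x0)) (z (Sum.inr (Sum.inr none)))
    rw [pval_eq] at h3
    rw [h3, Fintype.sum_option, Fintype.sum_prod_type,
      Finset.sum_congr rfl (fun l _ => Fg_eq K X l z), Finset.sum_add_distrib]
    simp only [StepAux.pi, BB, bloc, if_true, tt, Finset.sum_add_distrib]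
    ring
  · rw [Fintype.card_option, Fintype.card_prod, X.card_eq]

end Pool.Agent.HBD
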