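import Mathlib
import Pool.Agent.Lib.HBD.Hom

set_option autoImplicit false

/-!
# Module HBD.SumSys : direct sums of systems; all large dimensions

* `sys_add` : the direct sum: `κ = κ1 ⊕ κ2`, `ι = ι1 ⊕ ι2`, `D` block diagonal,
  `pi y = Sum.elim (pi1 (y ∘ inl)) (pi2 (y ∘ inr))`, `g y = g1 (y ∘ inl) + g2 (y ∘ inr)`,
  `x0 = inl x0`. `FF z = FF1 (z on the first) + FF2 (z on the second)`; homogeneous by `hom_comp`
  with `d = 1` (or directly) and `IsHomOn.mono`.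
* `allLarge_of_two` : let `N` be a bound for both families. Every large `m` is
  `A * M1 + B * M2` with `M1, M2 > N` : `m - (A + B) (N + 1)` is large, so it is `A x + B y` with
  `x, y ≥ 0` (`Nat.Coprime`; e.g. from `frobeniusNumber_pair`, or directly:
  `x ≡ m' A^{-1} mod B` with `0 ≤ x < B`, then `B ∣ m' - A x ≥ 0` for `m' ≥ A B`).
-/

namespace Pool.Agent.HBD

open Finset Pool.Agent.P47443c

namespace SumSysAux

/-- Pulling back along an embedding of the index types. -/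
theorem comp_emb {ι κ : Type*} [DecidableEq ι] [DecidableEq κ] (e : ι ↪ κ) {A : Finset ι} {k : ℕ}
    {F : (ι → ZMod 2) → ZMod 2} (hF : IsHomOn A k F) :
    IsHomOn (A.map e) k (fun x : κ → ZMod 2 => F (fun i => x (e i))) := by
  obtain ⟨S, h1, h2⟩ := hF
  refine ⟨S.map (Finset.mapEmbedding e).toEmbedding, ?_, ?_⟩
  · intro s hs
    rw [Finset.mem_map] at hs
    obtain ⟨t, ht, rfl⟩ := hs
    refine ⟨?_, ?_⟩
    · simp [(h1 t ht).1]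
    · have := (h1 t ht).2
      simpa using this
  · intro x
    show F (fun i => x (e i)) = _
    rw [h2, Finset.sum_map]
    refine Finset.sum_congr rfl (fun s _ => ?_)
    simp

/-- The block diagonal matrix. -/
def DD {κ₁ κ₂ ι₁ ι₂ : Type} (D₁ : κ₁ → ι₁ → ZMod 2) (D₂ : κ₂ → ι₂ → ZMod 2) :
    κ₁ ⊕ κ₂ → ι₁ ⊕ ι₂ → ZMod 2
  | Sum.inl x, Sum.inl j => D₁ x j
  | Sum.inr x, Sum.inr j => D₂ x j
  | Sum.inl _, Sum.inr _ => 0
  | Sum.inr _, Sum.inl _ => 0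

/-- The product of the two maps. -/
def PP {κ₁ κ₂ ι₁ ι₂ : Type} (p₁ : (κ₁ → ZMod 2) → ι₁ → ZMod 2)
    (p₂ : (κ₂ → ZMod 2) → ι₂ → ZMod 2) (y : κ₁ ⊕ κ₂ → ZMod 2) : ι₁ ⊕ ι₂ → ZMod 2 :=
  Sum.elim (p₁ (fun x => y (Sum.inl x))) (p₂ (fun x => y (Sum.inr x)))

theorem PP_bij {κ₁ κ₂ ι₁ ι₂ : Type} {p₁ : (κ₁ → ZMod 2) → ι₁ → ZMod 2}
    {p₂ : (κ₂ → ZMod 2) → ι₂ → ZMod 2} (h₁ : Function.Bijective p₁)
    (h₂ : Function.Bijective p₂) : Function.Bijective (PP p₁ p₂) := by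
  constructor
  · intro y y' h
    have e₁ : p₁ (fun x => y (Sum.inl x)) = p₁ (fun x => y' (Sum.inl x)) := by
      funext j
      exact congrFun h (Sum.inl j)
    have e₂ : p₂ (fun x => y (Sum.inr x)) = p₂ (fun x => y' (Sum.inr x)) := by
      funext j
      exact congrFun h (Sum.inr j)
    have f₁ := h₁.1 e₁
    have f₂ := h₂.1 e₂
    funext x
    rcases x with x | x
    · exact congrFun f₁ x
    · exact congrFun f₂ x
  · intro w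
    obtain ⟨y₁, hy₁⟩ := h₁.2 (fun j => w (Sum.inl j))
    obtain ⟨y₂, hy₂⟩ := h₂.2 (fun j => w (Sum.inr j))
    refine ⟨Sum.elim y₁ y₂, ?_⟩
    funext j
    rcases j with j | j
    · exact congrFun hy₁ j
    · exact congrFun hy₂ j

theorem yv_inl {κ₁ κ₂ ι₁ ι₂ : Type} [Fintype ι₁] [Fintype ι₂] (D₁ : κ₁ → ι₁ → ZMod 2)
    (D₂ : κ₂ → ι₂ → ZMod 2) (z : (κ₁ ⊕ κ₂) ⊕ (ι₁ ⊕ ι₂) → ZMod 2) :
    (fun x => yv (DD D₁ D₂) z (Sum.inl x)) =
      yv D₁ (fun i => z (Sum.map Sum.inl Sum.inl i)) := by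
  funext x
  simp [yv, DD, Fintype.sum_sum_type]

theorem yv_inr {κ₁ κ₂ ι₁ ι₂ : Type} [Fintype ι₁] [Fintype ι₂] (D₁ : κ₁ → ι₁ → ZMod 2)
    (D₂ : κ₂ → ι₂ → ZMod 2) (z : (κ₁ ⊕ κ₂) ⊕ (ι₁ ⊕ ι₂) → ZMod 2) :
    (fun x => yv (DD D₁ D₂) z (Sum.inr x)) =
      yv D₂ (fun i => z (Sum.map Sum.inr Sum.inr i)) := by
  funext x
  simp [yv, DD, Fintype.sum_sum_type]

/-- The embedding of the first summand. -/
def e₁ (κ₁ κ₂ ι₁ ι₂ : Type) : κ₁ ⊕ ι₁ ↪ (κ₁ ⊕ κ₂) ⊕ (ι₁ ⊕ ι₂) :=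
  ⟨Sum.map Sum.inl Sum.inl, Function.Injective.sumMap Sum.inl_injective Sum.inl_injective⟩

/-- The embedding of the second summand. -/
def e₂ (κ₁ κ₂ ι₁ ι₂ : Type) : κ₂ ⊕ ι₂ ↪ (κ₁ ⊕ κ₂) ⊕ (ι₁ ⊕ ι₂) :=
  ⟨Sum.map Sum.inr Sum.inr, Function.Injective.sumMap Sum.inr_injective Sum.inr_injective⟩

end SumSysAux

open SumSysAux in
theorem sys_add {k m n : ℕ} (h1 : Sys k m) (h2 : Sys k n) : Sys k (m + n) := by
  obtain ⟨X, hX⟩ := h1
  obtain ⟨Y, hY⟩ := h2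
  refine ⟨{ κ := X.κ ⊕ Y.κ
            ι := X.ι ⊕ Y.ι
            D := DD X.D Y.D
            pi := PP X.pi Y.pi
            g := fun y => X.g (fun x => y (Sum.inl x)) + Y.g (fun x => y (Sum.inr x))
            x0 := Sum.inl X.x0
            card_eq := by
              rw [Fintype.card_sum, Fintype.card_sum, X.card_eq, Y.card_eq]
            bij := PP_bij X.bij Y.bij
            free := by
              intro j
              rcases j with j | j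
              · exact X.free j
              · rfl
            hom := ?_ }, ?_⟩
  · have a1 : IsHomOn (univ : Finset ((X.κ ⊕ Y.κ) ⊕ (X.ι ⊕ Y.ι))) k
        (fun z => FF X.D X.pi X.g (fun i => z (e₁ X.κ Y.κ X.ι Y.ι i))) :=
      (comp_emb (e₁ X.κ Y.κ X.ι Y.ι) X.hom).mono (Finset.subset_univ _)
    have a2 : IsHomOn (univ : Finset ((X.κ ⊕ Y.κ) ⊕ (X.ι ⊕ Y.ι))) k
        (fun z => FF Y.D Y.pi Y.g (fun i => z (e₂ X.κ Y.κ X.ι Y.ι i))) :=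
      (comp_emb (e₂ X.κ Y.κ X.ι Y.ι) Y.hom).mono (Finset.subset_univ _)
    refine (a1.add a2).congr (fun z => ?_)
    have b1 := yv_inl X.D Y.D z
    have b2 := yv_inr X.D Y.D z
    simp only [FF, PP]
    rw [b1, b2, Fintype.sum_sum_type]
    simp only [Sum.elim_inl, Sum.elim_inr]
    have c1 : (fun i => z (e₁ X.κ Y.κ X.ι Y.ι i)) =
      (fun i => z (Sum.map Sum.inl Sum.inl i)) := rfl
    have c2 : (fun i => z (e₂ X.κ Y.κ X.ι Y.ι i)) =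
      (fun i => z (Sum.map Sum.inr Sum.inr i)) := rfl
    rw [c1, c2]
    have d1 : ∀ j, z (e₁ X.κ Y.κ X.ι Y.ι (Sum.inr j)) = z (Sum.inr (Sum.inl j)) := fun j => rfl
    have d2 : ∀ j, z (e₂ X.κ Y.κ X.ι Y.ι (Sum.inr j)) = z (Sum.inr (Sum.inr j)) := fun j => rfl
    simp only [d1, d2]
    ring
  · show Fintype.card (X.κ ⊕ Y.κ) = m + n
    rw [Fintype.card_sum, hX, hY]

theorem allLarge_of_two {k A B : ℕ} (hc : Nat.Coprime A B) (hA : 0 < A) (hB : 0 < B)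
    (h1 : ∃ N : ℕ, ∀ M : ℕ, N < M → Sys k (A * M))
    (h2 : ∃ N : ℕ, ∀ M : ℕ, N < M → Sys k (B * M)) : AllLarge k := by
  obtain ⟨N₁, H₁⟩ := h1
  obtain ⟨N₂, H₂⟩ := h2
  refine ⟨A * B + (A + B) * (N₁ + N₂ + 1), fun m hm => ?_⟩
  obtain ⟨m', rfl⟩ : ∃ m', m = m' + (A + B) * (N₁ + N₂ + 1) :=
    ⟨m - (A + B) * (N₁ + N₂ + 1), by omega⟩
  have hm' : A * B < m' := by omega
  have hlt := Nat.chineseRemainder_lt_mul hc 0 m' hA.ne' hB.ne'
  obtain ⟨⟨z, hz1, hz2⟩, hzz⟩ : ∃ z, z = Nat.chineseRemainder hc 0 m' := ⟨_, rfl⟩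
  rw [← hzz] at hlt
  simp only at hlt
  obtain ⟨x, rfl⟩ : A ∣ z := (Nat.modEq_zero_iff_dvd).1 hz1
  have hle : A * x ≤ m' := by omega
  obtain ⟨y, hy⟩ : B ∣ m' - A * x := (Nat.modEq_iff_dvd' hle).1 hz2
  have e1 := H₁ (x + (N₁ + N₂ + 1)) (by omega)
  have e2 := H₂ (y + (N₁ + N₂ + 1)) (by omega)
  have e3 := sys_add e1 e2
  have e4 : A * (x + (N₁ + N₂ + 1)) + B * (y + (N₁ + N₂ + 1)) =
      m' + (A + B) * (N₁ + N₂ + 1) := by
    have : m' = A * x + B * y := by omega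
    rw [this]
    ring
  rwa [e4] at e3

end Pool.Agent.HBD
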