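import Mathlib
import Pool.Agent.Lib.P47443c.TwoMain
import Pool.Agent.Lib.HBD.KeyFin
import Pool.Agent.Lib.HBD.Step
import Pool.Agent.Lib.HBD.Base
import Pool.Agent.Lib.HBD.Place
import Pool.Agent.Lib.HBD.SumSys

set_option autoImplicit false

/-!
# Homogeneous bent functions of degree `2 ^ i + 2 ^ j`
-/

namespace Pool.Agent.HBD

open Finset Pool.Agent.P47443c

theorem homBent_of_sys {k m : ℕ} (h : Sys k m) : HomBent (2 * m) k := by
  obtain ⟨X, hX⟩ := h
  refine exists_of_mm (κ := X.κ) (ι := X.ι) (2 * m) k ?_ X.card_eq X.D X.pi X.bij X.g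
    (fun a p => FF X.D X.pi X.g (Sum.elim a p)) ?_ ⟨univ, ?_⟩
  · rw [← X.card_eq, hX]; ring
  · intro a p
    rfl
  · refine X.hom.congr (fun x => ?_)
    congr 1
    funext c
    rcases c with c | c <;> rfl

theorem allLarge_base (a : ℕ) : AllLarge (2 ^ a + 1) := by
  obtain ⟨T1, h1⟩ := base_tmpl a 1 Nat.one_pos
  obtain ⟨T2, h2⟩ := base_tmpl a 2 Nat.two_pos
  refine allLarge_of_two (A := 2) (B := 3) (by decide) (by decide) (by decide) ?_ ?_
  · have := sys_of_tmpl T1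
    rwa [h1] at this
  · have := sys_of_tmpl T2
    rwa [h2] at this

theorem coprime_aux (l m : ℕ) : Nat.Coprime (l * m + 1) (l * (m + 1) + 1) := by
  have h1 : Nat.Coprime (l * m + 1) l := by
    rw [Nat.coprime_comm, add_comm, Nat.coprime_add_mul_left_right]
    exact Nat.coprime_one_right l
  have h2 : l * (m + 1) + 1 = l * m + 1 + l := by ring
  rw [h2, add_comm (l * m + 1) l]
  exact (Nat.coprime_add_self_right).2 h1

theorem allLarge_double {k' D : ℕ} (hk : 2 * k' = D + 1) (K : KeyData D) (h : AllLarge k') :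
    AllLarge (D + 1) := by
  obtain ⟨N, hN⟩ := h
  obtain ⟨X1, h1⟩ := hN (N + 1) (by omega)
  obtain ⟨X2, h2⟩ := hN (N + 2) (by omega)
  obtain ⟨T1, g1⟩ := step_tmpl hk K X1
  obtain ⟨T2, g2⟩ := step_tmpl hk K X2
  rw [h1] at g1
  rw [h2] at g2
  have e1 := sys_of_tmpl T1
  have e2 := sys_of_tmpl T2
  rw [g1] at e1
  rw [g2] at e2
  exact allLarge_of_two (coprime_aux (Fintype.card K.L) (N + 1)) (Nat.succ_pos _)
    (Nat.succ_pos _) e1 e2

theorem allLarge_pow (a j : ℕ) : AllLarge (2 ^ j * (2 ^ a + 1)) := by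
  induction j with
  | zero => simpa using allLarge_base a
  | succ j ih =>
    obtain ⟨K⟩ := key_data (a + j) j
    have hp : 1 ≤ 2 ^ (a + j + 1) := Nat.one_le_two_pow
    have e1 : 2 ^ (a + j + 1) + 2 ^ (j + 1) - 1 + 1 = 2 ^ (a + j + 1) + 2 ^ (j + 1) :=
      Nat.sub_add_cancel (le_trans hp (Nat.le_add_right _ _))
    have h := allLarge_double (k' := 2 ^ j * (2 ^ a + 1))
      (D := 2 ^ (a + j + 1) + 2 ^ (j + 1) - 1) (by rw [e1]; ring) K ih
    have e : 2 ^ (a + j + 1) + 2 ^ (j + 1) - 1 + 1 = 2 ^ (j + 1) * (2 ^ a + 1) := by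
      rw [e1]; ring
    rwa [e] at h

theorem allLarge_two_pow_add (i j : ℕ) : AllLarge (2 ^ i + 2 ^ j) := by
  rcases le_total i j with h | h
  · obtain ⟨a, rfl⟩ := Nat.exists_eq_add_of_le h
    have := allLarge_pow a i
    have e : 2 ^ i * (2 ^ a + 1) = 2 ^ i + 2 ^ (i + a) := by ring
    rwa [e] at this
  · obtain ⟨a, rfl⟩ := Nat.exists_eq_add_of_le h
    have := allLarge_pow a j
    have e : 2 ^ j * (2 ^ a + 1) = 2 ^ (j + a) + 2 ^ j := by ring
    rwa [e] at this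

/-- Homogeneous bent functions of degree `2 ^ i + 2 ^ j` in all large even dimensions. -/
theorem homBent_two_pow_add (i j : ℕ) : ∃ N : ℕ, 2 ≤ N ∧ ∀ n : ℕ, N < n → Even n →
    HomBent n (2 ^ i + 2 ^ j) := by
  obtain ⟨N, hN⟩ := allLarge_two_pow_add i j
  refine ⟨2 * N + 2, by omega, ?_⟩
  rintro n hn ⟨m, rfl⟩
  have := homBent_of_sys (hN m (by omega))
  rwa [two_mul] at this

end Pool.Agent.HBD
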